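import Pool.Agent.SGP.Sep

/-! # ALG (difficulty 2). The algebraic data.
`α` is algebraic: a primitive integer polynomial `P`, irreducible over `ℚ`, with `P(α) = 0` (e.g. clear the denominators of
`minpoly ℚ α`; copy `int_poly`-like lemmas; `IsAlgebraic`, `minpoly.irreducible`, `IsLocalization.integerNormalization`).
`natDegree P ≥ 1` (irreducible over `ℚ`). `P.map ℚ` is separable: Bezout `U P' + V P = D ≠ 0` over `ℤ` (as in the proof of
`sqfree_large` in `Sep.lean`). `M₀` from `sqfree_large`. Let `m = (M₀ + b + |D|)!` (`≥ 1`), `N = 10^9 m^3 + 1`. A prime `p`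
dividing `N (N-m) (N-2m)` does not divide `m` (all three are `≡ 1` mod `m`; in `ℕ` with `2m ≤ N`), so
`p > M₀ + b + |D|`: `p ∤ b`, `p ∤ D`, and `dvd_frob` gives `e_p ≥ 1` with `P̄ ∣ X^(p^(e_p)) - X`. Let `F = Π e_p` over the (finitely
many) prime factors of `N (N-m) (N-2m)`; `X^(p^e) - X ∣ X^(p^(e f)) - X` (iterate: `X^(p^(e(f+1))) - X =
(X^(p^(ef)) - X)^(p^e) + (X^(p^e) - X)` in characteristic `p`, or `sub_dvd_pow_sub_pow`...). -/

open Finset Polynomial

namespace Pool.Agent.SGP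

theorem Alg_bezout (P : ℤ[X]) (hirr : Irreducible (P.map (Int.castRingHom ℚ))) :
    ∃ (U V : ℤ[X]) (D : ℤ), D ≠ 0 ∧ U * derivative P + V * P = C D := by
  have hsep : (P.map (Int.castRingHom ℚ)).Separable := hirr.separable
  obtain ⟨a, b, hab⟩ := hsep
  obtain ⟨b1, hb1m, hb1⟩ := IsLocalization.integerNormalization_spec (nonZeroDivisors ℤ) a
  obtain ⟨b2, hb2m, hb2⟩ := IsLocalization.integerNormalization_spec (nonZeroDivisors ℤ) b
  set U := IsLocalization.integerNormalization (nonZeroDivisors ℤ) a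
  set V := IsLocalization.integerNormalization (nonZeroDivisors ℤ) b
  have hb10 : b1 ≠ 0 := nonZeroDivisors.ne_zero hb1m
  have hb20 : b2 ≠ 0 := nonZeroDivisors.ne_zero hb2m
  have hinj : Function.Injective (Polynomial.map (algebraMap ℤ ℚ)) :=
    Polynomial.map_injective _ (algebraMap ℤ ℚ).injective_int
  have hmapC : Int.castRingHom ℚ = algebraMap ℤ ℚ := rfl
  have hZ : C b2 * U * P + C b1 * V * derivative P = C (b1 * b2) := by
    apply hinj
    rw [Polynomial.map_add, Polynomial.map_mul, Polynomial.map_mul, Polynomial.map_mul,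
      Polynomial.map_mul, hb1, hb2, Polynomial.map_C, Polynomial.map_C, Polynomial.map_C,
      ← Polynomial.derivative_map]
    rw [hmapC] at hab
    rw [← Int.cast_smul_eq_zsmul ℚ, ← Int.cast_smul_eq_zsmul ℚ, Polynomial.smul_eq_C_mul,
      Polynomial.smul_eq_C_mul, map_mul, Polynomial.C_mul]
    simp only [eq_intCast] at hab ⊢
    linear_combination (C (b1 : ℚ) * C (b2 : ℚ)) * hab
  exact ⟨C b1 * V, C b2 * U, b1 * b2, mul_ne_zero hb10 hb20, by rw [add_comm]; exact hZ⟩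

theorem Alg_poly (α : ℝ) (hα : IsAlgebraic ℚ α) : ∃ P : ℤ[X], 1 ≤ P.natDegree ∧ aeval α P = 0 ∧
    Irreducible (P.map (Int.castRingHom ℚ)) := by
  have hint : IsIntegral ℚ α := hα.isIntegral
  have hirr : Irreducible (minpoly ℚ α) := minpoly.irreducible hint
  obtain ⟨b1, hb1m, hb1⟩ :=
    IsLocalization.integerNormalization_spec (nonZeroDivisors ℤ) (minpoly ℚ α)
  set P := IsLocalization.integerNormalization (nonZeroDivisors ℤ) (minpoly ℚ α) with hP
  have hb10 : b1 ≠ 0 := nonZeroDivisors.ne_zero hb1m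
  have hb1q : (b1 : ℚ) ≠ 0 := by exact_mod_cast hb10
  have hmap : P.map (Int.castRingHom ℚ) = C (b1 : ℚ) * minpoly ℚ α := by
    have h1 : P.map (Int.castRingHom ℚ) = b1 • minpoly ℚ α := hb1
    rw [h1, ← Int.cast_smul_eq_zsmul ℚ, Polynomial.smul_eq_C_mul]
  have hirr2 : Irreducible (P.map (Int.castRingHom ℚ)) := by
    rw [hmap]
    have h2 : Associated (minpoly ℚ α) (C (b1 : ℚ) * minpoly ℚ α) :=
      (associated_unit_mul_right (minpoly ℚ α) (C (b1 : ℚ))
        (Polynomial.isUnit_C.2 (isUnit_iff_ne_zero.2 hb1q)))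
    exact h2.irreducible hirr
  refine ⟨P, ?_, ?_, hirr2⟩
  · have h1 : (P.map (Int.castRingHom ℚ)).natDegree = P.natDegree :=
      Polynomial.natDegree_map_eq_of_injective (Int.castRingHom ℚ).injective_int P
    have h2 := hirr2.natDegree_pos
    omega
  · have h1 : aeval α (P.map (Int.castRingHom ℚ)) = aeval α P :=
      Polynomial.aeval_map_algebraMap ℚ α P
    rw [← h1, hmap, map_mul, minpoly.aeval, mul_zero]

theorem Alg_iter {R : Type*} [CommRing R] (x : R) (q : ℕ) (e : ℕ) : ∀ f : ℕ,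
    x ^ (q ^ e) - x ∣ x ^ (q ^ (e * f)) - x := by
  intro f
  induction f with
  | zero => simp
  | succ f ih =>
    have h1 : x ^ (q ^ (e * (f + 1))) - x =
        ((x ^ (q ^ (e * f))) ^ (q ^ e) - x ^ (q ^ e)) + (x ^ (q ^ e) - x) := by
      rw [← pow_mul, ← pow_add, mul_add, mul_one]
      ring
    rw [h1]
    exact dvd_add (ih.trans (sub_dvd_pow_sub_pow _ _ _)) dvd_rfl

theorem alg_data (α : ℝ) (hα : IsAlgebraic ℚ α) (b : ℕ) (hb : 2 ≤ b) :
    ∃ (P : ℤ[X]) (m N F : ℕ), 1 ≤ P.natDegree ∧ aeval α P = 0 ∧ 1 ≤ m ∧ 10^9*m^3 ≤ N ∧ 1 ≤ F ∧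
      ∀ p, p.Prime → p ∣ N*(N-m)*(N-2*m) → ¬ p ∣ b ∧
        P.map (Int.castRingHom (ZMod p)) ∣ X^(p^F) - X ∧
        ∃ (U V : ℤ[X]) (D : ℤ), U * derivative P + V * P = C D ∧ ¬ (p:ℤ) ∣ D := by
  obtain ⟨P, hP1, hP2, hP3⟩ := Alg_poly α hα
  obtain ⟨U, V, D, hD0, hUV⟩ := Alg_bezout P hP3
  obtain ⟨M₀, hM⟩ := sqfree_large P hP3
  obtain ⟨m, hm⟩ : ∃ m, m = (M₀ + b + D.natAbs).factorial := ⟨_, rfl⟩
  have hm1 : 1 ≤ m := by rw [hm]; exact Nat.factorial_pos _
  obtain ⟨N, hN⟩ : ∃ N, N = 10 ^ 9 * m ^ 3 + 1 := ⟨_, rfl⟩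
  have hmm : m ≤ m ^ 3 := Nat.le_self_pow (by norm_num) m
  have hNm : 2 * m < N := by
    rw [hN]
    have : 2 * m ≤ 10 ^ 9 * m ^ 3 := by nlinarith
    omega
  have he : ∀ p, ∃ e, 1 ≤ e ∧ (p.Prime → M₀ < p →
      P.map (Int.castRingHom (ZMod p)) ∣ X ^ (p ^ e) - X) := by
    intro p
    by_cases hp : p.Prime
    · by_cases hp2 : M₀ < p
      · have : Fact p.Prime := ⟨hp⟩
        obtain ⟨e, he1, he2⟩ := dvd_frob p _ (hM p hp hp2)
        exact ⟨e, he1, fun _ _ => he2⟩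
      · exact ⟨1, le_rfl, fun _ h => absurd h hp2⟩
    · exact ⟨1, le_rfl, fun h => absurd h hp⟩
  choose e he1 he2 using he
  have hQ : N * (N - m) * (N - 2 * m) ≠ 0 := by
    refine mul_ne_zero (mul_ne_zero ?_ ?_) ?_ <;> omega
  refine ⟨P, m, N, ∏ p ∈ (N * (N - m) * (N - 2 * m)).primeFactors, e p, hP1, hP2, hm1,
    by omega, Nat.one_le_iff_ne_zero.2 (Finset.prod_ne_zero_iff.2 fun p _ =>
      Nat.one_le_iff_ne_zero.1 (he1 p)), ?_⟩
  intro p hp hpd
  have hpm : ¬ p ∣ m := by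
    intro h
    have h1 : ¬ p ∣ N := by
      intro h2
      rw [hN] at h2
      have h3 : p ∣ 10 ^ 9 * m ^ 3 := (dvd_pow h (by norm_num)).mul_left _
      have h4 : p ∣ 1 := (Nat.dvd_add_right h3).1 h2
      exact hp.one_lt.ne' (Nat.dvd_one.1 h4)
    rcases (Nat.Prime.dvd_mul hp).1 hpd with h2 | h2
    · rcases (Nat.Prime.dvd_mul hp).1 h2 with h3 | h3
      · exact h1 h3
      · apply h1
        have h4 := dvd_add h3 h
        rwa [Nat.sub_add_cancel (by omega)] at h4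
    · apply h1
      have h4 := dvd_add h2 (h.mul_left 2)
      rwa [Nat.sub_add_cancel (by omega)] at h4
  have hlarge : M₀ + b + D.natAbs < p := by
    by_contra h
    apply hpm
    rw [hm]
    exact (Nat.Prime.dvd_factorial hp).2 (not_lt.1 h)
  refine ⟨?_, ?_, U, V, D, hUV, ?_⟩
  · intro h
    have := Nat.le_of_dvd (by omega) h
    omega
  · have hmem : p ∈ (N * (N - m) * (N - 2 * m)).primeFactors :=
      Nat.mem_primeFactors.2 ⟨hp, hpd, hQ⟩
    obtain ⟨f, hf⟩ := Finset.dvd_prod_of_mem e hmem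
    rw [hf]
    exact (he2 p hp (by omega)).trans (Alg_iter X p (e p) f)
  · intro h
    have h1 := Int.natAbs_dvd_natAbs.2 h
    rw [Int.natAbs_natCast] at h1
    have h2 : 0 < D.natAbs := Int.natAbs_pos.2 hD0
    have := Nat.le_of_dvd h2 h1
    omega

end Pool.Agent.SGP
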