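import Mathlib

namespace Pool.Agent.SGP

lemma le_pow_of_two_le {X : ℕ} (hX : 2 ≤ X) (c : ℕ) : c ≤ X^c :=
  (Nat.lt_pow_self (by omega)).le

lemma Bd_pow {X : ℕ} (hX : 2 ≤ X) (G : ℕ) {a c : ℕ} (h : a ≤ c) : X^a*G ≤ X^c*G :=
  Nat.mul_le_mul_right _ (Nat.pow_le_pow_right (by omega) h)

/-- everything is a multiple of `U` -/
lemma Bd_six (Q Cw l L w r₀ ρ U P Z : ℕ) (hQ : 1 ≤ Q) (hP : 1 ≤ P) (hU : U = r₀ + w + Q*l + L)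
    (hL : 1 ≤ L) (hρ : ρ = Q*l + r₀ + 1) (hZ : 11*((Cw+1)*(P*(Q*U))) ≤ Z) :
    r₀ ≤ Z ∧ Q*l + 2*r₀ + 2 + L ≤ Z ∧ Cw*(Q*(r₀+1+3*ρ)) ≤ Z ∧ Cw*Q ≤ Z ∧
      Q*ρ + Q*l + r₀ + w + 2*l + ρ ≤ Z ∧ Cw*P*(2*Q*ρ+1) ≤ Z := by
  have hlQ : l ≤ Q*l := Nat.le_mul_of_pos_left _ hQ
  have hU1 : 1 ≤ U := by omega
  have hρU : ρ ≤ U := by omega
  have hQU : U ≤ Q*U := Nat.le_mul_of_pos_left _ hQ
  have hPQU : Q*U ≤ P*(Q*U) := Nat.le_mul_of_pos_left _ hP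
  have hCPQU : P*(Q*U) ≤ (Cw+1)*(P*(Q*U)) := Nat.le_mul_of_pos_left _ (by omega)
  have hz0 : 11*(Q*U) ≤ Z := by
    refine le_trans ?_ hZ
    exact Nat.mul_le_mul_left _ (hPQU.trans hCPQU)
  have hz1 : 11*(Cw*(Q*U)) ≤ Z := by
    refine le_trans ?_ hZ
    exact Nat.mul_le_mul_left _ (Nat.mul_le_mul (Nat.le_succ _) hPQU)
  have hQρ : Q*ρ ≤ Q*U := Nat.mul_le_mul_left _ hρU
  refine ⟨?_, ?_, ?_, ?_, ?_, ?_⟩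
  · clear hZ hz1 hCPQU hPQU hQρ
    omega
  · clear hZ hz1 hCPQU hPQU hQρ
    omega
  · have e1 : r₀ + 1 + 3*ρ ≤ 11*U := by
      clear hZ hz1 hz0 hCPQU hPQU hQρ hQU
      omega
    calc Cw*(Q*(r₀+1+3*ρ)) ≤ Cw*(Q*(11*U)) := Nat.mul_le_mul_left _ (Nat.mul_le_mul_left _ e1)
      _ = 11*(Cw*(Q*U)) := by ring
      _ ≤ Z := hz1
  · calc Cw*Q = Cw*(Q*1) := by rw [mul_one]
      _ ≤ Cw*(Q*U) := Nat.mul_le_mul_left _ (Nat.mul_le_mul_left _ hU1)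
      _ ≤ 11*(Cw*(Q*U)) := Nat.le_mul_of_pos_left _ (by norm_num)
      _ ≤ Z := hz1
  · clear hZ hz1 hCPQU hPQU
    omega
  · have e1 : 2*Q*ρ + 1 ≤ 11*(Q*U) := by
      have e2 : 2*Q*ρ = 2*(Q*ρ) := mul_assoc _ _ _
      rw [e2]
      clear hZ hz1 hz0 hCPQU hPQU e2 hρ hU hlQ
      omega
    calc Cw*P*(2*Q*ρ+1) ≤ (Cw+1)*P*(11*(Q*U)) :=
          Nat.mul_le_mul (Nat.mul_le_mul_right _ (Nat.le_succ _)) e1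
      _ = 11*((Cw+1)*(P*(Q*U))) := by ring
      _ ≤ Z := hZ

/-- the size of `w` -/
lemma Bd_w (κ Q B l L D G w c2 : ℕ) (hG : G = L + D) (hl : 1 ≤ l) (hG1 : 1 ≤ G)
    (hw : w = κ*(κ*(D+B+1)+1) + Q*(l+1)) (hc2 : c2 = κ*κ*(B+2) + κ + 2*Q) : w ≤ c2*(l*G) := by
  have e1 : D + B + 1 ≤ (B+2)*G := by
    have h1 : (B+2)*G = B*G + 2*G := by ring
    have h2 : B ≤ B*G := Nat.le_mul_of_pos_right _ hG1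
    omega
  have e2 : 1 ≤ l*G := Nat.mul_pos (by omega) (by omega)
  have e3 : G ≤ l*G := Nat.le_mul_of_pos_left _ (by omega)
  have e4 : l + 1 ≤ 2*(l*G) := by
    have : l ≤ l*G := Nat.le_mul_of_pos_right _ hG1
    omega
  rw [hw, hc2]
  calc κ*(κ*(D+B+1)+1) + Q*(l+1) ≤ κ*(κ*((B+2)*G)+1) + Q*(2*(l*G)) :=
        Nat.add_le_add (Nat.mul_le_mul_left _ (Nat.add_le_add_right (Nat.mul_le_mul_left _ e1) _))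
          (Nat.mul_le_mul_left _ e4)
    _ = κ*κ*(B+2)*G + κ*1 + 2*Q*(l*G) := by ring
    _ ≤ κ*κ*(B+2)*(l*G) + κ*(l*G) + 2*Q*(l*G) :=
        Nat.add_le_add_right (Nat.add_le_add (Nat.mul_le_mul_left _ e3) (Nat.mul_le_mul_left _ e2)) _
    _ = (κ*κ*(B+2) + κ + 2*Q)*(l*G) := by ring

/-- the size of `r₀` -/
lemma Bd_r (T l L G K w r₀ c1 c2 X : ℕ) (hX : X = T^l) (hX2 : 2 ≤ X) (hXl : l ≤ X) (hT : 2 ≤ T)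
    (hLG : L ≤ G) (hK : K ≤ c1*l) (hw : w ≤ c2*(l*G)) (hr : r₀ = (T+1)^K*(K*L+2*w)) :
    r₀ ≤ X^(3*c1+2*c2+1)*G := by
  have hTK : (T+1)^K ≤ X^(2*c1) := by
    have e1 : T + 1 ≤ T^2 := by nlinarith
    calc (T+1)^K ≤ (T^2)^K := Nat.pow_le_pow_left e1 K
      _ ≤ (T^2)^(c1*l) := Nat.pow_le_pow_right (by positivity) hK
      _ = X^(2*c1) := by rw [hX, ← pow_mul, ← pow_mul]; congr 1; ring
  have hKL : K*L + 2*w ≤ (c1+2*c2)*(l*G) := by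
    have e1 : K*L ≤ c1*(l*G) := by
      calc K*L ≤ (c1*l)*G := Nat.mul_le_mul hK hLG
        _ = c1*(l*G) := by ring
    calc K*L + 2*w ≤ c1*(l*G) + 2*(c2*(l*G)) := Nat.add_le_add e1 (Nat.mul_le_mul_left _ hw)
      _ = (c1+2*c2)*(l*G) := by ring
  have hKL2 : K*L + 2*w ≤ X^(c1+2*c2)*(X*G) :=
    hKL.trans (Nat.mul_le_mul (le_pow_of_two_le hX2 _) (Nat.mul_le_mul_right _ hXl))
  rw [hr]
  calc (T+1)^K*(K*L+2*w) ≤ X^(2*c1)*(X^(c1+2*c2)*(X*G)) := Nat.mul_le_mul hTK hKL2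
    _ = X^(2*c1 + (c1+2*c2) + 1)*G := by rw [pow_add, pow_add, pow_one]; ring
    _ = X^(3*c1+2*c2+1)*G := by congr 2; ring

/-- the size of `U` -/
lemma Bd_U (l L G w r₀ Q X U a c2 : ℕ) (hX2 : 2 ≤ X) (hXl : l ≤ X) (hG1 : 1 ≤ G)
    (hLG : L ≤ G) (hw : w ≤ c2*(l*G)) (hr : r₀ ≤ X^a*G) (hU : U = r₀ + w + Q*l + L) :
    U ≤ X^(a+c2+Q+3)*G := by
  have h1 : w ≤ X^(c2+1)*G := by
    calc w ≤ c2*(l*G) := hw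
      _ ≤ X^c2*(X*G) := Nat.mul_le_mul (le_pow_of_two_le hX2 _) (Nat.mul_le_mul_right _ hXl)
      _ = X^(c2+1)*G := by rw [pow_succ]; ring
  have h2 : Q*l ≤ X^(Q+1)*G := by
    calc Q*l ≤ X^Q*X := Nat.mul_le_mul (le_pow_of_two_le hX2 _) hXl
      _ = X^(Q+1)*1 := by rw [pow_succ, mul_one]
      _ ≤ X^(Q+1)*G := Nat.mul_le_mul_left _ hG1
  have h3 : L ≤ X^0*G := by rw [pow_zero, one_mul]; exact hLG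
  have m1 := hr.trans (Bd_pow hX2 G (show a ≤ a+c2+Q+1 by omega))
  have m2 := h1.trans (Bd_pow hX2 G (show c2+1 ≤ a+c2+Q+1 by omega))
  have m3 := h2.trans (Bd_pow hX2 G (show Q+1 ≤ a+c2+Q+1 by omega))
  have m4 := h3.trans (Bd_pow hX2 G (show 0 ≤ a+c2+Q+1 by omega))
  have m5 : 4*(X^(a+c2+Q+1)*G) ≤ X^2*(X^(a+c2+Q+1)*G) := by
    refine Nat.mul_le_mul_right _ ?_
    calc 4 = 2^2 := rfl
      _ ≤ X^2 := Nat.pow_le_pow_left hX2 2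
  have m6 : X^2*(X^(a+c2+Q+1)*G) = X^(a+c2+Q+3)*G := by
    rw [show a+c2+Q+3 = (a+c2+Q+1)+2 from rfl, pow_add X (a+c2+Q+1) 2]; ring
  rw [← m6]
  refine le_trans ?_ m5
  rw [hU]
  clear m5 m6 hr hw h1 h2 h3
  omega

/-- all auxiliary quantities are bounded by `T^(c l) (L+D)` -/
theorem bounds (κ μ Q B Cw : ℕ) (hQ : 1 ≤ Q) : ∃ c : ℕ, ∀ (T l L D : ℕ), 2 ≤ T → 1 ≤ l → 1 ≤ L → 1 ≤ D →
    ∀ K w r₀ ρ : ℕ, K = κ*(μ*l) + Q → w = κ*(κ*(D+B+1)+1) + Q*(l+1) →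
      r₀ = (T+1)^K*(K*L+2*w) → ρ = Q*l + r₀ + 1 →
      r₀ ≤ T^(c*l)*(L+D) ∧ Q*l + 2*r₀ + 2 + L ≤ T^(c*l)*(L+D) ∧
      Cw*(Q*(r₀+1+3*ρ)) ≤ T^(c*l)*(L+D) ∧ Cw*Q ≤ T^(c*l)*(L+D) ∧
      Q*ρ + Q*l + r₀ + w + 2*l + ρ ≤ T^(c*l)*(L+D) ∧
      Cw*(T+2)^Cw*(2*Q*ρ+1) ≤ T^(c*l)*(L+D) := by
  obtain ⟨c1, hc1⟩ : ∃ c1, c1 = κ*μ + Q := ⟨_, rfl⟩
  obtain ⟨c2, hc2⟩ : ∃ c2, c2 = κ*κ*(B+2) + κ + 2*Q := ⟨_, rfl⟩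
  obtain ⟨a, ha⟩ : ∃ a, a = 3*c1+2*c2+1 := ⟨_, rfl⟩
  refine ⟨4 + (Cw+1) + 2*Cw + Q + (a+c2+Q+3), ?_⟩
  intro T l L D hT hl hL hD K w r₀ ρ hK hw hr hρ
  obtain ⟨G, hG⟩ : ∃ G, G = L + D := ⟨_, rfl⟩
  have hG1 : 1 ≤ G := by omega
  have hLG : L ≤ G := by omega
  obtain ⟨X, hX⟩ : ∃ X, X = T^l := ⟨_, rfl⟩
  have hX2 : 2 ≤ X := by
    rw [hX]
    calc 2 = 2^1 := rfl
      _ ≤ T^1 := Nat.pow_le_pow_left hT 1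
      _ ≤ T^l := Nat.pow_le_pow_right (by omega) hl
  have hXl : l ≤ X := by
    rw [hX]
    exact (le_pow_of_two_le hT l)
  have hTX : T ≤ X := by
    rw [hX]
    calc T = T^1 := (pow_one T).symm
      _ ≤ T^l := Nat.pow_le_pow_right (by omega) hl
  have hpow : ∀ c, T^(c*l) = X^c := by
    intro c
    rw [hX, ← pow_mul, mul_comm]
  rw [hpow, ← hG]
  have hK1 : K ≤ c1*l := by
    rw [hK, hc1]
    calc κ*(μ*l) + Q ≤ κ*(μ*l) + Q*l := Nat.add_le_add_left (Nat.le_mul_of_pos_right _ hl) _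
      _ = (κ*μ + Q)*l := by ring
  have hw1 : w ≤ c2*(l*G) := Bd_w κ Q B l L D G w c2 hG hl hG1 hw hc2
  have hr1 : r₀ ≤ X^a*G := by
    rw [ha]
    exact Bd_r T l L G K w r₀ c1 c2 X hX hX2 hXl hT hLG hK1 hw1 hr
  obtain ⟨U, hU⟩ : ∃ U, U = r₀ + w + Q*l + L := ⟨_, rfl⟩
  have hU1 : U ≤ X^(a+c2+Q+3)*G := Bd_U l L G w r₀ Q X U a c2 hX2 hXl hG1 hLG hw1 hr1 hU
  have hP : (T+2)^Cw ≤ X^(2*Cw) := by
    have e1 : T + 2 ≤ X^2 := by nlinarith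
    calc (T+2)^Cw ≤ (X^2)^Cw := Nat.pow_le_pow_left e1 _
      _ = X^(2*Cw) := by rw [← pow_mul]
  refine Bd_six Q Cw l L w r₀ ρ U ((T+2)^Cw) _ hQ (Nat.one_le_pow _ _ (by omega)) hU hL hρ ?_
  have h11 : 11 ≤ X^4 := by
    calc 11 ≤ 2^4 := by norm_num
      _ ≤ X^4 := Nat.pow_le_pow_left hX2 4
  calc 11*((Cw+1)*((T+2)^Cw*(Q*U))) ≤ X^4*(X^(Cw+1)*(X^(2*Cw)*(X^Q*(X^(a+c2+Q+3)*G)))) :=
        Nat.mul_le_mul h11 (Nat.mul_le_mul (le_pow_of_two_le hX2 _) (Nat.mul_le_mul hP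
          (Nat.mul_le_mul (le_pow_of_two_le hX2 _) hU1)))
    _ = X^(4 + (Cw+1) + 2*Cw + Q + (a+c2+Q+3))*G := by
        rw [← mul_assoc, ← mul_assoc, ← mul_assoc, ← mul_assoc, ← pow_add, ← pow_add, ← pow_add, ← pow_add]

end Pool.Agent.SGP
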