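import Pool.Agent.SGP.Defs

/-! # CNT (difficulty 2). Generic points exist in every interval of length `T^K (K L + 2 w)`.
By induction on `K`: every `σ ∈ ss A K` has `f : Fin K → Fin T` with `Σ c (f j) ≤ σ ≤ Σ c (f j) + K L`.
If no `x` in `[y, y + T^K (K L + 2 w)]` (`T^K (K L + 2w) + 1` points) were generic, every such `x` would have `σ` with
`x < σ + w`, `σ < x + w`, so some `f` with `x + w > Σ c (f j)`, `x < Σ c (f j) + K L + w`: `x` in an interval with at most
`K L + 2 w - 1` points (`w ≥ 1`). Union bound over the `T^K` functions `f` (`Finset.card_biUnion_le`,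
`Fintype.card_fun`): at most `T^K (K L + 2 w)` points. Contradiction. -/

open Finset Polynomial

namespace Pool.Agent.SGP

theorem Cnt_cover (A : Finset ℕ) (T L : ℕ) (c : Fin T → ℕ)
    (hc : ∀ a ∈ A, ∃ i, c i ≤ a ∧ a < c i + L) : ∀ (K σ : ℕ), σ ∈ ss A K →
      ∃ f : Fin K → Fin T, ∑ j, c (f j) ≤ σ ∧ σ ≤ ∑ j, c (f j) + K * L := by
  intro K
  induction K with
  | zero =>
    intro σ hσ
    have h0 : σ = 0 := by simpa [ss] using hσ
    subst h0
    exact ⟨fun j => j.elim0, by simp, by simp⟩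
  | succ K ih =>
    intro σ hσ
    obtain ⟨a, ha, s, hs, h1⟩ := Finset.mem_image₂.1 hσ
    obtain ⟨f, hf1, hf2⟩ := ih s hs
    obtain ⟨i, hi1, hi2⟩ := hc a ha
    refine ⟨Fin.cons i f, ?_, ?_⟩
    · rw [Fin.sum_univ_succ]
      simp only [Fin.cons_zero, Fin.cons_succ]
      omega
    · rw [Fin.sum_univ_succ]
      simp only [Fin.cons_zero, Fin.cons_succ]
      have h2 : (K + 1) * L = K * L + L := by ring
      omega

theorem gen_exists (A : Finset ℕ) (T L K w y : ℕ) (hw : 1 ≤ w) (c : Fin T → ℕ)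
    (hc : ∀ a ∈ A, ∃ i, c i ≤ a ∧ a < c i + L) :
    ∃ x, y ≤ x ∧ x ≤ y + T^K*(K*L + 2*w) ∧ Gen A K w x := by
  by_contra hcon
  have hno : ∀ x, y ≤ x → x ≤ y + T^K*(K*L + 2*w) → ¬ Gen A K w x := by
    intro x h1 h2 h3
    exact hcon ⟨x, h1, h2, h3⟩
  let I : (Fin K → Fin T) → Finset ℕ := fun f =>
    Finset.Ico (∑ j, c (f j) + 1 - w) (∑ j, c (f j) + K * L + w)
  have hsub : Finset.Icc y (y + T^K*(K*L + 2*w)) ⊆ Finset.univ.biUnion I := by
    intro x hx
    rw [Finset.mem_Icc] at hx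
    have h1 := hno x hx.1 hx.2
    unfold Gen at h1
    push Not at h1
    obtain ⟨σ, hσ, h2, h3⟩ := h1
    obtain ⟨f, hf1, hf2⟩ := Cnt_cover A T L c hc K σ hσ
    rw [Finset.mem_biUnion]
    refine ⟨f, Finset.mem_univ _, ?_⟩
    show x ∈ Finset.Ico (∑ j, c (f j) + 1 - w) (∑ j, c (f j) + K * L + w)
    rw [Finset.mem_Ico]
    constructor <;> omega
  have hcard := Finset.card_le_card hsub
  have h1 : (Finset.univ.biUnion I).card ≤ (Finset.univ : Finset (Fin K → Fin T)).card *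
      (K * L + 2 * w - 1) := by
    apply Finset.card_biUnion_le_card_mul
    intro f _
    show (Finset.Ico (∑ j, c (f j) + 1 - w) (∑ j, c (f j) + K * L + w)).card ≤ _
    rw [Nat.card_Ico]
    omega
  rw [Finset.card_univ, Fintype.card_fun, Fintype.card_fin, Fintype.card_fin] at h1
  rw [Nat.card_Icc] at hcard
  have h2 : T ^ K * (K * L + 2 * w - 1) ≤ T ^ K * (K * L + 2 * w) :=
    Nat.mul_le_mul_left _ (Nat.sub_le _ _)
  omega

end Pool.Agent.SGP
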