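import Mathlib

/-! The numerical part of the corollary on the shortest run. -/

open Finset Filter

namespace Pool.Agent.SGP

/-- covering separated points -/
lemma cover_sep (n : ℕ) (x y t : ℝ) (hy : 0 < y) (hx : (n:ℝ)/y ≤ x) (L : ℕ)
    (hL : t ≤ L) (hL1 : 1 ≤ L) (P : ℕ → Prop)
    (hsep : ∀ k k' : ℕ, t ≤ k → k < k' → k' ≤ n → P k → P k' → y ≤ (k':ℝ) - k) :
    ∃ c : Fin (⌊x⌋₊ + 2) → ℕ, ∀ k ≤ n, P k → ∃ i, c i ≤ k ∧ k < c i + L := by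
  classical
  have h : ∀ j : Fin (⌊x⌋₊+1), ∃ c : ℕ, ∀ k : ℕ, t ≤ k → k ≤ n → P k → ⌊(k:ℝ)/y⌋₊ = j → k = c := by
    intro j
    by_cases h : ∃ k : ℕ, t ≤ k ∧ k ≤ n ∧ P k ∧ ⌊(k:ℝ)/y⌋₊ = j
    · obtain ⟨c, h1, h2, h3, h4⟩ := h
      refine ⟨c, ?_⟩
      intro k h5 h6 h7 h8
      have key : ∀ a a' : ℕ, t ≤ a → a' ≤ n → P a → P a' → ⌊(a:ℝ)/y⌋₊ = ⌊(a':ℝ)/y⌋₊ → ¬ a < a' := by
        intro a a' q1 q2 q3 q4 q5 hlt
        have q6 := hsep a a' q1 hlt q2 q3 q4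
        have q7 := Nat.floor_le (show 0 ≤ (a:ℝ)/y by positivity)
        have q8 := Nat.lt_floor_add_one ((a':ℝ)/y)
        rw [← q5] at q8
        have q9 : (a':ℝ)/y < (a:ℝ)/y + 1 := by linarith
        rw [div_add_one hy.ne', div_lt_div_iff_of_pos_right hy] at q9
        linarith
      rcases lt_trichotomy k c with h9 | h9 | h9
      · exact absurd h9 (key k c h5 h2 h7 h3 (h8.trans h4.symm))
      · exact h9
      · exact absurd h9 (key c k h1 h6 h3 h7 (h4.trans h8.symm))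
    · refine ⟨0, ?_⟩
      intro k h5 h6 h7 h8
      exact absurd ⟨k, h5, h6, h7, h8⟩ h
  choose c hc using h
  refine ⟨Fin.cons 0 c, ?_⟩
  intro k hk hP
  by_cases hkt : (k:ℝ) < t
  · refine ⟨0, ?_⟩
    rw [Fin.cons_zero]
    have : (k:ℝ) < L := hkt.trans_le hL
    have : k < L := by exact_mod_cast this
    omega
  · have hkt' : t ≤ (k:ℝ) := not_lt.1 hkt
    have hj : ⌊(k:ℝ)/y⌋₊ < ⌊x⌋₊ + 1 := by
      refine Nat.lt_succ_of_le (Nat.floor_le_floor ?_)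
      refine le_trans ?_ hx
      have : (k:ℝ) ≤ n := by exact_mod_cast hk
      exact div_le_div_of_nonneg_right this hy.le
    have h1 := hc ⟨_, hj⟩ k hkt' hk hP rfl
    refine ⟨(⟨_, hj⟩ : Fin (⌊x⌋₊+1)).succ, ?_⟩
    rw [Fin.cons_succ, ← h1]
    omega

/-- the size condition -/
lemma size_ok (κ : ℕ) (θ c : ℝ) (hθ0 : 0 < θ) (hθ1 : θ < 1) (hc : c = (1-θ)/(2*(κ+1))) :
    0 < c ∧ ∀ᶠ n : ℕ in atTop, 2 ≤ (n:ℝ)^θ ∧ κ * (n:ℝ)^θ < n ∧ ((⌊(n:ℝ)^c⌋₊ + 2 : ℕ):ℝ)^(κ*1) *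
      ((⌈(n:ℝ)^θ⌉₊:ℝ) + Real.log n) ≤ (n:ℝ)^(1-c) ∧ (n:ℝ)^(1-c) ≤ n := by
  have hκ0 : (0:ℝ) ≤ κ := by positivity
  have hc0 : 0 < c := by rw [hc]; exact div_pos (by linarith) (by positivity)
  have hcκ : c*(κ+1) = (1-θ)/2 := by
    rw [hc]
    field_simp
  refine ⟨hc0, ?_⟩
  have hid : Tendsto (fun n : ℕ => (n:ℝ)) atTop atTop := tendsto_natCast_atTop_atTop
  have t1 : ∀ᶠ n : ℕ in atTop, 2 ≤ (n:ℝ)^θ :=
    ((tendsto_rpow_atTop hθ0).comp hid).eventually_ge_atTop 2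
  have t2 : ∀ᶠ n : ℕ in atTop, (κ:ℝ)+1 ≤ (n:ℝ)^(1-θ) :=
    ((tendsto_rpow_atTop (by linarith : 0 < 1-θ)).comp hid).eventually_ge_atTop _
  have t3 : ∀ᶠ n : ℕ in atTop, (3:ℝ)^(κ+1) ≤ (n:ℝ)^((1-θ)/2) :=
    ((tendsto_rpow_atTop (by linarith : 0 < (1-θ)/2)).comp hid).eventually_ge_atTop _
  have t4 : ∀ᶠ n : ℕ in atTop, Real.log n ≤ (n:ℝ)^θ := by
    have h := (isLittleO_log_rpow_atTop hθ0).bound (by norm_num : (0:ℝ) < 1)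
    have h2 := hid.eventually h
    filter_upwards [h2, eventually_ge_atTop 1] with n hn hn1
    rw [one_mul, Real.norm_eq_abs, Real.norm_eq_abs] at hn
    have hn0 : (0:ℝ) ≤ n := by positivity
    rw [abs_of_nonneg (Real.rpow_nonneg hn0 _)] at hn
    exact (le_abs_self _).trans hn
  filter_upwards [t1, t2, t3, t4, eventually_ge_atTop 1] with n h1 h2 h3 h4 hn
  have hn1 : (1:ℝ) ≤ n := by exact_mod_cast hn
  have hn0 : (0:ℝ) < n := by linarith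
  refine ⟨h1, ?_, ?_, ?_⟩
  · have e : (n:ℝ)^(1-θ) * (n:ℝ)^θ = n := by
      rw [← Real.rpow_add hn0]
      ring_nf
      exact Real.rpow_one _
    calc κ * (n:ℝ)^θ < (κ+1) * (n:ℝ)^θ := by
          refine mul_lt_mul_of_pos_right (by linarith) (Real.rpow_pos_of_pos hn0 _)
      _ ≤ (n:ℝ)^(1-θ) * (n:ℝ)^θ := mul_le_mul_of_nonneg_right h2 (Real.rpow_nonneg hn0.le _)
      _ = n := e
  · have hx1 : 1 ≤ (n:ℝ)^c := Real.one_le_rpow hn1 hc0.le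
    have a1 : ((⌊(n:ℝ)^c⌋₊ + 2 : ℕ):ℝ) ≤ 3 * (n:ℝ)^c := by
      push_cast
      have := Nat.floor_le (show 0 ≤ (n:ℝ)^c by positivity)
      linarith
    have a2 : (⌈(n:ℝ)^θ⌉₊:ℝ) + Real.log n ≤ 3 * (n:ℝ)^θ := by
      have := (Nat.ceil_lt_add_one (show 0 ≤ (n:ℝ)^θ by positivity)).le
      linarith
    have a3 : 0 ≤ (⌈(n:ℝ)^θ⌉₊:ℝ) + Real.log n := by
      have := Real.log_nonneg hn1
      positivity
    have e1 : ((n:ℝ)^c)^κ = (n:ℝ)^(c*κ) := by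
      rw [← Real.rpow_natCast, ← Real.rpow_mul hn0.le]
    calc ((⌊(n:ℝ)^c⌋₊ + 2 : ℕ):ℝ)^(κ*1) * ((⌈(n:ℝ)^θ⌉₊:ℝ) + Real.log n)
        ≤ (3 * (n:ℝ)^c)^κ * (3 * (n:ℝ)^θ) := by
          rw [mul_one]
          exact mul_le_mul (pow_le_pow_left₀ (by positivity) a1 κ) a2 a3 (by positivity)
      _ = 3^(κ+1) * ((n:ℝ)^(c*κ) * (n:ℝ)^θ) := by rw [mul_pow, e1, pow_succ]; ring
      _ ≤ (n:ℝ)^((1-θ)/2) * ((n:ℝ)^(c*κ) * (n:ℝ)^θ) :=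
          mul_le_mul_of_nonneg_right h3 (by positivity)
      _ = (n:ℝ)^(1-c) := by
          rw [← Real.rpow_add hn0, ← Real.rpow_add hn0]
          congr 1
          linarith
  · calc (n:ℝ)^(1-c) ≤ (n:ℝ)^(1:ℝ) := Real.rpow_le_rpow_of_exponent_le hn1 (by linarith)
      _ = n := Real.rpow_one _

end Pool.Agent.SGP
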