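import Mathlib

/-! Digit changes of a real number, as a bounded signed expansion. -/

open Finset Filter

namespace Pool.Agent.SGP

/-- the differences of the base `b` digits of `α` after the point -/
noncomputable def ech (α : ℝ) (b : ℕ) (k : ℕ) : ℤ :=
  if k = 0 then 0 else if k = 1 then ⌊α * (b:ℝ)^k⌋ % b
    else ⌊α * (b:ℝ)^k⌋ % b - ⌊α * (b:ℝ)^(k-1)⌋ % b

lemma digit_bd (x : ℤ) (b : ℕ) (hb : 2 ≤ b) : 0 ≤ x % b ∧ x % b < b := by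
  have h : (b:ℤ) ≠ 0 := by omega
  exact ⟨Int.emod_nonneg _ h, Int.emod_lt_of_pos _ (by omega)⟩

lemma ech_bd (α : ℝ) (b : ℕ) (hb : 2 ≤ b) (k : ℕ) : |ech α b k| ≤ b := by
  obtain ⟨h1, h2⟩ := digit_bd ⌊α * (b:ℝ)^k⌋ b hb
  obtain ⟨h3, h4⟩ := digit_bd ⌊α * (b:ℝ)^(k-1)⌋ b hb
  unfold ech
  rw [abs_le]
  split_ifs <;> constructor <;> omega

lemma digit_eq (α : ℝ) (b : ℕ) (hb : 2 ≤ b) (k : ℕ) :
    ⌊α * (b:ℝ)^(k+1)⌋ % b = ⌊α * (b:ℝ)^(k+1)⌋ - b * ⌊α * (b:ℝ)^k⌋ := by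
  have hb0 : (b:ℝ) ≠ 0 := by
    have : b ≠ 0 := by omega
    exact_mod_cast this
  have h : ⌊α * (b:ℝ)^k⌋ = ⌊α * (b:ℝ)^(k+1)⌋ / b := by
    rw [← Int.floor_div_natCast, pow_succ, ← mul_assoc, mul_div_assoc, div_self hb0, mul_one]
  rw [h]
  exact Int.emod_def _ _

lemma ech_sum (α : ℝ) (b : ℕ) (hb : 2 ≤ b) (n : ℕ) :
    ∑ k ∈ range (n+2), (ech α b k : ℝ)/(b:ℝ)^k =
      (⌊α * (b:ℝ)^(n+1)⌋ - ⌊α * (b:ℝ)^n⌋)/(b:ℝ)^(n+1) - (1 - 1/(b:ℝ)) * ⌊α⌋ := by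
  have hb0 : (b:ℝ) ≠ 0 := by
    have : b ≠ 0 := by omega
    exact_mod_cast this
  induction n with
  | zero =>
    have h1 : ech α b 0 = 0 := by simp [ech]
    have h2 : ech α b 1 = ⌊α * (b:ℝ)^(0+1)⌋ - b * ⌊α * (b:ℝ)^0⌋ := by
      rw [← digit_eq α b hb 0]
      simp [ech]
    rw [sum_range_succ, sum_range_succ, sum_range_zero, h1, h2]
    push_cast
    rw [pow_zero, mul_one, pow_one]
    field_simp
    ring
  | succ n ih =>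
    rw [sum_range_succ, ih]
    have h2 : ech α b (n+2) = (⌊α * (b:ℝ)^(n+2)⌋ - b * ⌊α * (b:ℝ)^(n+1)⌋) -
        (⌊α * (b:ℝ)^(n+1)⌋ - b * ⌊α * (b:ℝ)^n⌋) := by
      rw [← digit_eq α b hb n, ← digit_eq α b hb (n+1)]
      have e1 : n + 2 ≠ 0 := by omega
      have e2 : n + 2 ≠ 1 := by omega
      have e3 : n + 2 - 1 = n + 1 := by omega
      unfold ech
      rw [if_neg e1, if_neg e2, e3]
    rw [h2]
    push_cast
    have e4 : (b:ℝ)^(n+2) = b^n*b^2 := by rw [pow_add]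
    have e5 : (b:ℝ)^(n+1) = b^n*b := by rw [pow_succ]
    have e7 : (b:ℝ)^n ≠ 0 := pow_ne_zero _ hb0
    rw [e4, e5]
    field_simp
    ring

lemma ech_hasSum (α : ℝ) (b : ℕ) (hb : 2 ≤ b) :
    HasSum (fun k => (ech α b k : ℝ)/(b:ℝ)^k) ((1 - 1/(b:ℝ)) * (α - ⌊α⌋)) := by
  have hb2 : (2:ℝ) ≤ b := by exact_mod_cast hb
  have hb0 : (0:ℝ) < b := by linarith
  have hsum : Summable (fun k : ℕ => (ech α b k : ℝ)/(b:ℝ)^k) := by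
    have hg : Summable (fun k : ℕ => (b:ℝ) * ((b:ℝ)⁻¹)^k) := by
      refine (summable_geometric_of_lt_one (by positivity) ?_).mul_left _
      exact inv_lt_one_of_one_lt₀ (by linarith)
    refine Summable.of_norm_bounded hg ?_
    intro k
    rw [Real.norm_eq_abs, abs_div, abs_of_pos (pow_pos hb0 k), div_eq_mul_inv, inv_pow]
    refine mul_le_mul_of_nonneg_right ?_ (by positivity)
    exact_mod_cast ech_bd α b hb k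
  rw [hsum.hasSum_iff_tendsto_nat]
  refine (tendsto_add_atTop_iff_nat 2).1 ?_
  rw [tendsto_iff_dist_tendsto_zero]
  have hlim : Tendsto (fun n : ℕ => 2 * ((b:ℝ)⁻¹)^(n+1)) atTop (nhds 0) := by
    have h1 := (tendsto_pow_atTop_nhds_zero_of_lt_one (r := (b:ℝ)⁻¹) (by positivity)
      (inv_lt_one_of_one_lt₀ (by linarith))).const_mul 2
    rw [mul_zero] at h1
    exact h1.comp (tendsto_add_atTop_nat 1)
  refine squeeze_zero (fun _ => dist_nonneg) (fun n => ?_) hlim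
  rw [ech_sum α b hb n, Real.dist_eq]
  have e5 : (b:ℝ)^(n+1) = b^n*b := by rw [pow_succ]
  have e7 : 0 < (b:ℝ)^n := pow_pos hb0 _
  have e8 : 0 < (b:ℝ)^(n+1) := pow_pos hb0 _
  have e : ((⌊α * (b:ℝ)^(n+1)⌋:ℝ) - ⌊α * (b:ℝ)^n⌋)/(b:ℝ)^(n+1) - (1 - 1/(b:ℝ)) * ⌊α⌋ -
      (1 - 1/(b:ℝ)) * (α - ⌊α⌋) =
      ((⌊α * (b:ℝ)^n⌋ - α*(b:ℝ)^n) * (-1) + (⌊α * (b:ℝ)^(n+1)⌋ - α*(b:ℝ)^(n+1)))/(b:ℝ)^(n+1) := by
    rw [e5]
    field_simp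
    ring
  rw [e, abs_div, abs_of_pos e8, div_eq_mul_inv, inv_pow]
  refine mul_le_mul_of_nonneg_right ?_ (by positivity)
  have f1 := Int.floor_le (α * (b:ℝ)^n)
  have f2 := Int.lt_floor_add_one (α * (b:ℝ)^n)
  have f3 := Int.floor_le (α * (b:ℝ)^(n+1))
  have f4 := Int.lt_floor_add_one (α * (b:ℝ)^(n+1))
  rw [abs_le]
  constructor <;> linarith

lemma ech_alg (α : ℝ) (hα : IsAlgebraic ℚ α) (b : ℕ) :
    IsAlgebraic ℚ ((1 - 1/(b:ℝ)) * (α - ⌊α⌋)) := by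
  have h1 : IsAlgebraic ℚ (((1 - 1/(b:ℚ) : ℚ) : ℝ)) := isAlgebraic_algebraMap (A := ℝ) (1 - 1/(b:ℚ) : ℚ)
  have h2 : IsAlgebraic ℚ (((⌊α⌋ : ℚ) : ℝ)) := isAlgebraic_algebraMap (A := ℝ) (⌊α⌋ : ℚ)
  have h3 := h1.mul (hα.sub h2)
  push_cast at h3
  exact h3

lemma ech_irr (α : ℝ) (hα : Irrational α) (b : ℕ) (hb : 2 ≤ b) :
    Irrational ((1 - 1/(b:ℝ)) * (α - ⌊α⌋)) := by
  have hb2 : (2:ℚ) ≤ b := by exact_mod_cast hb
  have hq : (1 - 1/(b:ℚ) : ℚ) ≠ 0 := by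
    have : 1/(b:ℚ) ≤ 1/2 := one_div_le_one_div_of_le (by norm_num) hb2
    intro h
    linarith
  have h3 := (hα.sub_intCast ⌊α⌋).ratCast_mul hq
  push_cast at h3
  exact h3

end Pool.Agent.SGP
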