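import Pool.Agent.SGP.Main
import Pool.Agent.SGP.Digits
import Pool.Agent.SGP.CorN

open Finset Filter

namespace Pool.Agent.SGP

lemma ech_ne {α : ℝ} {b k : ℕ} (hk : 2 ≤ k) (h : ech α b k ≠ 0) :
    ⌊α * (b:ℝ)^k⌋ % b ≠ ⌊α * (b:ℝ)^(k-1)⌋ % b := by
  intro heq
  refine h ?_
  have e1 : k ≠ 0 := by omega
  have e2 : k ≠ 1 := by omega
  unfold ech
  rw [if_neg e1, if_neg e2, heq, sub_self]

theorem short_run (α : ℝ) (hα : IsAlgebraic ℚ α) (hirr : Irrational α) (b : ℕ) (hb : 2 ≤ b)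
    (θ : ℝ) (hθ0 : 0 < θ) (hθ1 : θ < 1) :
    ∃ c : ℝ, 0 < c ∧ ∀ᶠ n : ℕ in atTop, ∃ k k' : ℕ, (n:ℝ)^θ ≤ k ∧ k < k' ∧ k' ≤ n ∧
      ⌊α * (b:ℝ)^k⌋ % b ≠ ⌊α * (b:ℝ)^(k-1)⌋ % b ∧
      ⌊α * (b:ℝ)^k'⌋ % b ≠ ⌊α * (b:ℝ)^(k'-1)⌋ % b ∧ (k':ℝ) - k < (n:ℝ)^(1-c) := by
  obtain ⟨κ, hκ⟩ := main _ (ech_alg α hα b) (ech_irr α hirr b hb) b b hb
  obtain ⟨c, hc⟩ : ∃ c : ℝ, c = (1-θ)/(2*(κ+1)) := ⟨_, rfl⟩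
  obtain ⟨hc0, hev⟩ := size_ok κ θ c hθ0 hθ1 hc
  refine ⟨c, hc0, ?_⟩
  filter_upwards [hκ, hev, eventually_ge_atTop 1] with n hn h hn1
  obtain ⟨h1, h2, h3, h4⟩ := h
  have hn0 : (0:ℝ) < n := by
    have : 0 < n := hn1
    exact_mod_cast this
  have hL1 : 1 ≤ ⌈(n:ℝ)^θ⌉₊ := Nat.ceil_pos.2 (by linarith)
  by_contra hcon
  push Not at hcon
  have hge : ∀ k : ℕ, (n:ℝ)^θ ≤ k → 2 ≤ k := by
    intro k hk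
    have : (2:ℝ) ≤ k := h1.trans hk
    exact_mod_cast this
  have hy : 0 < (n:ℝ)^(1-c) := Real.rpow_pos_of_pos hn0 _
  have hx : (n:ℝ)/(n:ℝ)^(1-c) ≤ (n:ℝ)^c := by
    rw [div_le_iff₀ hy, ← Real.rpow_add hn0]
    ring_nf
    rw [Real.rpow_one]
  obtain ⟨cc, hcc⟩ := cover_sep n ((n:ℝ)^c) ((n:ℝ)^(1-c)) ((n:ℝ)^θ) hy hx ⌈(n:ℝ)^θ⌉₊ (Nat.le_ceil _)
    hL1 (fun k => ech α b k ≠ 0) (by
      intro k k' q1 q2 q3 q4 q5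
      exact hcon k k' q1 q2 q3 (ech_ne (hge k q1) q4) (ech_ne ((hge k q1).trans q2.le) q5))
  obtain ⟨k, k', r1, r2, r3, r4, r5, r6⟩ := hn (ech α b) (ech_bd α b hb) (ech_hasSum α b hb) 1
    ⌈(n:ℝ)^θ⌉₊ (⌊(n:ℝ)^c⌋₊+2) le_rfl hL1 (by omega) (h3.trans h4) cc hcc
  have hk : (n:ℝ)^θ ≤ k := by
    have r1' : (n:ℝ) ≤ κ*k := by exact_mod_cast r1
    have h5 : κ * (n:ℝ)^θ < κ*k := h2.trans_le r1'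
    exact (lt_of_mul_lt_mul_left h5 (by positivity)).le
  have hkk : k < k' := by omega
  have := hcon k k' hk hkk r3 (ech_ne (hge k hk) r4) (ech_ne ((hge k hk).trans hkk.le) r5)
  linarith

end Pool.Agent.SGP
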