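import Pool.Agent.SGP.Defs

/-! # MACRO (difficulty 2). Composition of the steps over the prime factors of `a`. Induction on `a`
(`Nat.recOnMul` or strong induction with `a = p * a'`, `p = a.minFac`); `F ≥ 1`, so `p^F ≥ 2`.
UP (`a = p a'`): `v₁` with `|v₁ - p^F v| ≤ ρ`; `v₁ ≥ 2v - ρ ≥ v`, `v₁ ≥ y`, `v₁ ≥ ρ`; `a'^F (v₁ + ρ) ≤ a'^F (p^F v + 2ρ) ≤ a^F (v + ρ) ≤ Y`;
 induction: `|v' - a'^F v₁| ≤ a'^F ρ`, so `|v' - a^F v| ≤ a'^F ρ + a'^F ρ ≤ a^F ρ`. For `a = 1`: `v' = v`.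
 (The first step needs `p^F v ≤ Y`.)
DOWN: hypothesis `a^F (y + ρ) ≤ v + ρ`. `v₁` with `|p^F v₁ - v| ≤ ρ`; `p^F (v₁ + ρ) ≥ v - ρ + p^F ρ ≥ a^F (y+ρ) - 2ρ + p^F ρ ≥
 a^F (y + ρ)`, so `a'^F (y+ρ) ≤ v₁ + ρ`; `p^F y ≤ v`; `v₁ ≤ v ≤ Y` as `2 v₁ ≤ v + ρ`, `ρ ≤ v` (for `a ≥ 2`: `2 ρ ≤ v + ρ`);
 induction `|a'^F v' - v₁| ≤ (a'^F) ρ`... use the sharper bound `(a^F - 1) ρ`:
 `|a^F v' - v| ≤ p^F (a'^F - 1) ρ + ρ = (a^F - p^F + 1) ρ ≤ (a^F - 1) ρ`. -/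

open Finset Polynomial

namespace Pool.Agent.SGP

theorem macro_up (V : ℕ → Prop) (Pr : ℕ → Prop) (F ρ y Y : ℕ) (hF : 1 ≤ F)
    (hUp : ∀ p, p.Prime → Pr p → ∀ v, V v → y ≤ v → p^F * v ≤ Y →
      ∃ v', V v' ∧ |(v':ℤ) - (p:ℤ)^F*v| ≤ ρ)
    (a : ℕ) (ha : 1 ≤ a) (hP : ∀ p, p.Prime → p ∣ a → Pr p) (v : ℕ) (hv : V v)
    (h1 : y ≤ v) (h2 : ρ ≤ v) (h3 : a^F * (v + ρ) ≤ Y) :
    ∃ v', V v' ∧ |(v':ℤ) - (a:ℤ)^F*v| ≤ (a:ℤ)^F*ρ := by
  induction a using Nat.strong_induction_on generalizing v with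
  | _ a ih =>
    rcases Nat.eq_or_lt_of_le ha with h | h
    · subst h
      refine ⟨v, hv, ?_⟩
      have : (v:ℤ) - ((1:ℕ):ℤ)^F*v = 0 := by push_cast; rw [one_pow]; ring
      rw [this, abs_zero]
      positivity
    · have hp : (a.minFac).Prime := Nat.minFac_prime (by omega)
      obtain ⟨a', ha'⟩ := Nat.minFac_dvd a
      set p := a.minFac with hpdef
      have ha1 : 1 ≤ a' := by
        rcases Nat.eq_zero_or_pos a' with h0 | h0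
        · rw [h0, mul_zero] at ha'; omega
        · exact h0
      have hlt : a' < a := by
        rw [ha']
        have := hp.two_le
        nlinarith
      have hpF : 2 ≤ p^F := by
        calc 2 ≤ p := hp.two_le
          _ = p^1 := (pow_one p).symm
          _ ≤ p^F := Nat.pow_le_pow_right hp.pos hF
      have haF : 1 ≤ a'^F := Nat.one_le_pow _ _ ha1
      have hmul : a^F = p^F * a'^F := by conv_lhs => rw [ha', mul_pow]
      have hb : p^F * v ≤ Y := by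
        refine le_trans ?_ h3
        rw [hmul]
        have e1 : p^F * a'^F * (v+ρ) = p^F * v + (p^F * ((a'^F - 1) * v + a'^F * ρ)) := by
          obtain ⟨c, hc⟩ : ∃ c, a'^F = c + 1 := ⟨a'^F - 1, by omega⟩
          rw [hc, Nat.add_sub_cancel]; ring
        rw [e1]; exact Nat.le_add_right _ _
      obtain ⟨v₁, hv₁, he₁⟩ := hUp p hp (hP p hp ⟨a', ha'⟩) v hv h1 hb
      have hz := abs_le.1 he₁
      have hpv : (2:ℤ) * v ≤ (p:ℤ)^F * v := by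
        have : (2:ℤ) ≤ (p:ℤ)^F := by exact_mod_cast hpF
        exact mul_le_mul_of_nonneg_right this (by positivity)
      have hv1 : v ≤ v₁ := by
        have h2' : (ρ:ℤ) ≤ v := by exact_mod_cast h2
        have : (v:ℤ) ≤ v₁ := by linarith [hz.1]
        exact_mod_cast this
      have hv2 : v₁ + ρ ≤ p^F * v + 2*ρ := by
        have : (v₁:ℤ) + ρ ≤ (p:ℤ)^F * v + 2*ρ := by linarith [hz.2]
        exact_mod_cast this
      have hY : a'^F * (v₁ + ρ) ≤ Y := by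
        refine le_trans ?_ h3
        rw [hmul]
        calc a'^F * (v₁ + ρ) ≤ a'^F * (p^F * v + 2*ρ) := Nat.mul_le_mul_left _ hv2
          _ ≤ a'^F * (p^F * v + p^F*ρ) := Nat.mul_le_mul_left _ (Nat.add_le_add_left (Nat.mul_le_mul_right _ hpF) _)
          _ = p^F * a'^F * (v+ρ) := by ring
      obtain ⟨v', hv', he'⟩ := ih a' hlt ha1 (fun q hq hqd => hP q hq (by rw [ha']; exact Dvd.dvd.mul_left hqd p)) v₁ hv₁
        (h1.trans hv1) (h2.trans hv1) hY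
      refine ⟨v', hv', ?_⟩
      have hmulZ : (a:ℤ)^F = (p:ℤ)^F * (a':ℤ)^F := by exact_mod_cast hmul
      have e2 : (v':ℤ) - (a:ℤ)^F*v = ((v':ℤ) - (a':ℤ)^F*v₁) + (a':ℤ)^F * ((v₁:ℤ) - (p:ℤ)^F*v) := by
        rw [hmulZ]; ring
      have haZ : (0:ℤ) ≤ (a':ℤ)^F := by positivity
      have hpZ : (2:ℤ) ≤ (p:ℤ)^F := by exact_mod_cast hpF
      calc |(v':ℤ) - (a:ℤ)^F*v| ≤ |(v':ℤ) - (a':ℤ)^F*v₁| + |(a':ℤ)^F * ((v₁:ℤ) - (p:ℤ)^F*v)| := by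
            rw [e2]; exact abs_add_le _ _
        _ ≤ (a':ℤ)^F*ρ + (a':ℤ)^F*ρ := by
            rw [abs_mul, abs_of_nonneg haZ]
            exact add_le_add he' (mul_le_mul_of_nonneg_left he₁ haZ)
        _ = 2 * ((a':ℤ)^F*ρ) := by ring
        _ ≤ (p:ℤ)^F * ((a':ℤ)^F*ρ) := mul_le_mul_of_nonneg_right hpZ (by positivity)
        _ = (a:ℤ)^F*ρ := by rw [hmulZ]; ring

theorem Macro_down (V : ℕ → Prop) (Pr : ℕ → Prop) (F ρ y Y : ℕ) (hF : 1 ≤ F)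
    (hDown : ∀ p, p.Prime → Pr p → ∀ v, V v → p^F * y ≤ v → v ≤ Y →
      ∃ v', V v' ∧ |(p:ℤ)^F*v' - v| ≤ ρ)
    (a : ℕ) (ha : 1 ≤ a) (hP : ∀ p, p.Prime → p ∣ a → Pr p) (v : ℕ) (hv : V v)
    (h1 : a^F * (y + ρ) ≤ v + ρ) (h2 : v ≤ Y) :
    ∃ v', V v' ∧ |(a:ℤ)^F*v' - v| ≤ ((a:ℤ)^F-1)*ρ := by
  induction a using Nat.strong_induction_on generalizing v with
  | _ a ih =>
    rcases Nat.eq_or_lt_of_le ha with h | h
    · subst h
      refine ⟨v, hv, ?_⟩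
      have : ((1:ℕ):ℤ)^F*v - (v:ℤ) = 0 := by push_cast; rw [one_pow]; ring
      rw [this, abs_zero]
      push_cast
      rw [one_pow]
      simp
    · have hp : (a.minFac).Prime := Nat.minFac_prime (by omega)
      obtain ⟨a', ha'⟩ := Nat.minFac_dvd a
      set p := a.minFac with hpdef
      have ha1 : 1 ≤ a' := by
        rcases Nat.eq_zero_or_pos a' with h0 | h0
        · rw [h0, mul_zero] at ha'; omega
        · exact h0
      have hlt : a' < a := by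
        rw [ha']
        have := hp.two_le
        nlinarith
      have hpF : 2 ≤ p^F := by
        calc 2 ≤ p := hp.two_le
          _ = p^1 := (pow_one p).symm
          _ ≤ p^F := Nat.pow_le_pow_right hp.pos hF
      have haF : 1 ≤ a'^F := Nat.one_le_pow _ _ ha1
      have hmul : a^F = p^F * a'^F := by conv_lhs => rw [ha', mul_pow]
      have hmulZ : (a:ℤ)^F = (p:ℤ)^F * (a':ℤ)^F := by exact_mod_cast hmul
      have hpZ : (2:ℤ) ≤ (p:ℤ)^F := by exact_mod_cast hpF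
      have haZ : (1:ℤ) ≤ (a':ℤ)^F := by exact_mod_cast haF
      have hρ0 : (0:ℤ) ≤ ρ := by positivity
      have hy0 : (0:ℤ) ≤ y := by positivity
      have h1Z : (p:ℤ)^F * (a':ℤ)^F * (y + ρ) ≤ v + ρ := by
        rw [← hmulZ]; exact_mod_cast h1
      -- p^F (y + ρ) ≤ v + ρ
      have h4 : (p:ℤ)^F * (y + ρ) ≤ v + ρ := by
        refine le_trans ?_ h1Z
        have : (p:ℤ)^F * (y+ρ) * 1 ≤ (p:ℤ)^F * (y+ρ) * (a':ℤ)^F :=
          mul_le_mul_of_nonneg_left haZ (by positivity)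
        nlinarith [this]
      have h5 : 2 * (ρ:ℤ) ≤ (p:ℤ)^F * ρ := mul_le_mul_of_nonneg_right hpZ hρ0
      have h6 : (p:ℤ)^F * y ≤ v := by nlinarith [h4, h5]
      have h7 : (ρ:ℤ) ≤ v := by
        have : (0:ℤ) ≤ (p:ℤ)^F * y := by positivity
        nlinarith [h4, h5]
      obtain ⟨v₁, hv₁, he₁⟩ := hDown p hp (hP p hp ⟨a', ha'⟩) v hv (by exact_mod_cast h6) h2
      have hz := abs_le.1 he₁
      have hv1Z : (v₁:ℤ) ≤ v := by
        have : 2 * (v₁:ℤ) ≤ (p:ℤ)^F * v₁ := mul_le_mul_of_nonneg_right hpZ (by positivity)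
        linarith [hz.2]
      have hv1 : v₁ ≤ v := by exact_mod_cast hv1Z
      have h8 : (p:ℤ)^F * ((a':ℤ)^F * (y + ρ)) ≤ (p:ℤ)^F * (v₁ + ρ) := by
        have e : (p:ℤ)^F * ((a':ℤ)^F * (y + ρ)) = (p:ℤ)^F * (a':ℤ)^F * (y + ρ) := by ring
        rw [e]
        nlinarith [hz.1, h5, h1Z]
      have h9 : (a':ℤ)^F * (y + ρ) ≤ v₁ + ρ := le_of_mul_le_mul_left h8 (by linarith)
      obtain ⟨v', hv', he'⟩ := ih a' hlt ha1 (fun q hq hqd => hP q hq (by rw [ha']; exact Dvd.dvd.mul_left hqd p)) v₁ hv₁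
        (by exact_mod_cast h9) (hv1.trans h2)
      refine ⟨v', hv', ?_⟩
      have e2 : (a:ℤ)^F*v' - (v:ℤ) = (p:ℤ)^F * ((a':ℤ)^F*v' - v₁) + ((p:ℤ)^F*v₁ - v) := by
        rw [hmulZ]; ring
      calc |(a:ℤ)^F*v' - (v:ℤ)| ≤ |(p:ℤ)^F * ((a':ℤ)^F*v' - v₁)| + |(p:ℤ)^F*v₁ - v| := by
            rw [e2]; exact abs_add_le _ _
        _ ≤ (p:ℤ)^F * (((a':ℤ)^F-1)*ρ) + ρ := by
            rw [abs_mul, abs_of_nonneg (by linarith : (0:ℤ) ≤ (p:ℤ)^F)]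
            exact add_le_add (mul_le_mul_of_nonneg_left he' (by linarith)) he₁
        _ ≤ ((a:ℤ)^F-1)*ρ := by
            rw [hmulZ]
            nlinarith [h5]

theorem macro_down (V : ℕ → Prop) (Pr : ℕ → Prop) (F ρ y Y : ℕ) (hF : 1 ≤ F)
    (hDown : ∀ p, p.Prime → Pr p → ∀ v, V v → p^F * y ≤ v → v ≤ Y →
      ∃ v', V v' ∧ |(p:ℤ)^F*v' - v| ≤ ρ)
    (a : ℕ) (ha : 1 ≤ a) (hP : ∀ p, p.Prime → p ∣ a → Pr p) (v : ℕ) (hv : V v)
    (h1 : a^F * (y + ρ) ≤ v + ρ) (h2 : v ≤ Y) :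
    ∃ v', V v' ∧ |(a:ℤ)^F*v' - v| ≤ (a:ℤ)^F*ρ := by
  obtain ⟨v', h, h'⟩ := Macro_down V Pr F ρ y Y hF hDown a ha hP v hv h1 h2
  refine ⟨v', h, h'.trans ?_⟩
  have : (0:ℤ) ≤ ρ := by positivity
  nlinarith

end Pool.Agent.SGP
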