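import Pool.Agent.SGP.Defs

/-! # WIN (difficulty 2). Windows and visible starts (combinatorics of `Iso`).
* `win_vs`: the sum over `(x, x']` is `≠ 0`, so some `k ∈ (x,x']` has `e k ≠ 0`; let `v` be the least one. Any other
  `k ∈ (x, x']` with `e k ≠ 0` has `k < v + r` (`x' ≤ x + r`), so `k ≤ v + l` by `Iso`. If `k < v ≤ k + l`, `e k ≠ 0`, then
  `k ≤ x` (minimality) and `x < k + l`: contradiction to `hc`. If `x' < k ≤ v + l` then `v ≤ x' < v + l` contradicts `hc'`
  unless there is no such `k`: so `hc'` at `v` gives `x' ≥ v + l`, hence (in all cases) `Icc v (v+l)` and `Ioc x x'` have the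
  same nonzero digits [if `x' < v + l` then `e v = 0` by `hc'`, contradiction]; so the sum over `Icc v (v+l)` is the same.
* `win_sum`: digits in `(x,x']` outside `[v, v+l]` vanish: `k < v`: `v < k + r` so `v ≤ k + l` by `Iso`, and then `e k = 0` by
  the definition of `Vs`; `k > v + l`: `Iso` gives `k ≤ v + l` or `k ≥ v + r`, both impossible.
* `pf_sub`: `pf (EE e n) f x' - pf (EE e n) f x` is the sum over `(x,x']` when `f k = 0` for `e k = 0` (`x' ≤ n`).
* `gen_nc`, `gen_nc'`: a generic point `x` does not cut a cluster, nor does `x/q`: `k ≤ x < k + l` with `e k ≠ 0` gives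
  `σ = k ∈ ss A K` at distance `< w`; `k ≤ x/q < k + l`: `σ = q k ∈ ss A K` (`q ≤ K`), `q k ≤ x < q k + q l`, `w ≥ q(l+1)`.
  (`A = EE e n`, `0 ∈ A` as `e 0 ≠ 0`.) -/

open Finset Polynomial

namespace Pool.Agent.SGP

theorem win_vs (b : ℕ) (e : ℕ → ℤ) (l r y n x x' : ℕ) (hI : Iso e l r y n) (h1 : y ≤ x)
    (h2 : x < x') (h3 : x' + l ≤ n) (h4 : x' ≤ x + r)
    (hc : ∀ k, k ≤ x → x < k + l → e k = 0) (hc' : ∀ k, k ≤ x' → x' < k + l → e k = 0)
    (hne : ∑ k ∈ Ioc x x', (e k : ℚ)/(b:ℚ)^k ≠ 0) : ∃ v, x < v ∧ v ≤ x' ∧ Vs b e l v := by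
  have hex : ∃ k, x < k ∧ k ≤ x' ∧ e k ≠ 0 := by
    by_contra hcon
    push Not at hcon
    refine hne (Finset.sum_eq_zero fun k hk => ?_)
    rw [Finset.mem_Ioc] at hk
    rw [hcon k hk.1 hk.2]
    simp
  classical
  obtain ⟨hv1, hv2, hv3⟩ := Nat.find_spec hex
  have hmin : ∀ k, x < k → k < Nat.find hex → e k = 0 := by
    intro k hk hk'
    by_contra h
    exact Nat.find_min hex hk' ⟨hk, by omega, h⟩
  generalize Nat.find hex = v at hv1 hv2 hv3 hmin
  have hvl : v + l ≤ x' := by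
    by_contra h
    exact hv3 (hc' v hv2 (by omega))
  refine ⟨v, hv1, hv2, hv3, ?_, ?_⟩
  · intro k hk hk'
    by_cases hkx : k ≤ x
    · exact hc k hkx (by omega)
    · exact hmin k (by omega) hk
  · have h5 : ∑ k ∈ Icc v (v+l), (e k : ℚ) / (b:ℚ)^k = ∑ k ∈ Ioc x x', (e k : ℚ)/(b:ℚ)^k := by
      refine Finset.sum_subset ?_ ?_
      · intro k hk
        rw [Finset.mem_Icc] at hk
        rw [Finset.mem_Ioc]
        omega
      · intro k hk hk'
        rw [Finset.mem_Ioc] at hk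
        rw [Finset.mem_Icc] at hk'
        have h6 : e k = 0 := by
          by_cases hkv : k < v
          · exact hmin k hk.1 hkv
          · by_contra hek
            have h7 := hI v k (by omega) (by omega) (by omega) hv3 hek
            omega
        rw [h6]
        simp
    rw [h5]
    exact hne

theorem win_sum {R : Type*} [AddCommMonoid R] (f : ℕ → R) (b : ℕ) (e : ℕ → ℤ) (l r y n x x' v : ℕ)
    (hf : ∀ k, e k = 0 → f k = 0) (hI : Iso e l r y n) (hv : Vs b e l v) (h1 : y ≤ x) (h2 : x < v)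
    (h3 : v + l ≤ x') (h4 : x' ≤ n) (h5 : v ≤ x + r) (h6 : x' < v + r) :
    ∑ k ∈ Ioc x x', f k = ∑ k ∈ Icc v (v+l), f k := by
  symm
  refine Finset.sum_subset ?_ ?_
  · intro k hk
    rw [Finset.mem_Icc] at hk
    rw [Finset.mem_Ioc]
    omega
  · intro k hk hk'
    rw [Finset.mem_Ioc] at hk
    rw [Finset.mem_Icc] at hk'
    apply hf
    by_contra hek
    by_cases hkv : k < v
    · have h7 := hI k v (by omega) hkv (by omega) hek hv.1
      have h8 : v ≤ k + l := by omega
      exact hek (hv.2.1 k hkv h8)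
    · have h7 := hI v k (by omega) (by omega) (by omega) hv.1 hek
      omega

theorem pf_sub {R : Type*} [CommRing R] (f : ℕ → R) (e : ℕ → ℤ) (n x x' : ℕ)
    (hf : ∀ k, e k = 0 → f k = 0) (hx : x ≤ x') (hn : x' ≤ n) :
    pf (EE e n) f x' - pf (EE e n) f x = ∑ k ∈ Ioc x x', f k := by
  have h1 : ∀ z, z ≤ n → pf (EE e n) f z = ∑ k ∈ range (z+1), f k := by
    intro z hz
    unfold pf
    refine Finset.sum_subset ?_ ?_
    · intro k hk
      rw [Finset.mem_filter] at hk
      rw [Finset.mem_range]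
      omega
    · intro k hk hk'
      rw [Finset.mem_range] at hk
      rw [Finset.mem_filter, mem_EE] at hk'
      apply hf
      by_contra hek
      exact hk' ⟨⟨by omega, hek⟩, by omega⟩
  rw [h1 x' hn, h1 x (by omega)]
  have h2 : range (x'+1) = range (x+1) ∪ Ioc x x' := by
    ext k
    rw [Finset.mem_union, Finset.mem_range, Finset.mem_range, Finset.mem_Ioc]
    omega
  have h3 : Disjoint (range (x+1)) (Ioc x x') := by
    rw [Finset.disjoint_left]
    intro k hk hk'
    rw [Finset.mem_range] at hk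
    rw [Finset.mem_Ioc] at hk'
    omega
  rw [h2, Finset.sum_union h3]
  ring

theorem gen_nc (e : ℕ → ℤ) (h0 : e 0 ≠ 0) (l n K w x : ℕ) (hK : 1 ≤ K) (hw : l ≤ w)
    (hx : x ≤ n) (hg : Gen (EE e n) K w x) : ∀ k, k ≤ x → x < k + l → e k = 0 := by
  intro k hk hk'
  by_contra hek
  have h1 : k ∈ EE e n := mem_EE.2 ⟨by omega, hek⟩
  have h2 : (0:ℕ) ∈ EE e n := mem_EE.2 ⟨by omega, h0⟩
  have h3 : k ∈ ss (EE e n) K := ss_le _ h2 hK (mem_ss_one _ h1)
  have h4 := hg k h3
  omega

theorem gen_nc' (e : ℕ → ℤ) (h0 : e 0 ≠ 0) (l n K w x q : ℕ) (hq : 1 ≤ q) (hK : q ≤ K)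
    (hw : q*(l+1) ≤ w) (hx : x ≤ n) (hg : Gen (EE e n) K w x) :
    ∀ k, k ≤ x/q → x/q < k + l → e k = 0 := by
  intro k hk hk'
  by_contra hek
  have h5 : x / q ≤ x := Nat.div_le_self x q
  have h1 : k ∈ EE e n := mem_EE.2 ⟨by omega, hek⟩
  have h2 : (0:ℕ) ∈ EE e n := mem_EE.2 ⟨by omega, h0⟩
  have h3 : q * k ∈ ss (EE e n) K := by
    have h6 := ss_mul (EE e n) q (mem_ss_one _ h1)
    rw [mul_one] at h6
    exact ss_le _ h2 hK h6
  have h4 := hg (q*k) h3
  have h7 : q * k ≤ x := by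
    have h8 := Nat.mul_le_mul_left q hk
    exact h8.trans (Nat.mul_div_le x q)
  have h9 : x < q * k + q * l := by
    have h10 : x < q * (x / q + 1) := by
      have h11 := Nat.lt_mul_div_succ x (show 0 < q by omega)
      exact h11
    have h12 : q * (x / q + 1) ≤ q * (k + l) := Nat.mul_le_mul_left q (by omega)
    calc x < q * (x / q + 1) := h10
      _ ≤ q * (k + l) := h12
      _ = q * k + q * l := by ring
  have h13 : q * (l + 1) = q * l + q := by ring
  omega

end Pool.Agent.SGP
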