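import Pool.Agent.SGP.Val
import Pool.Agent.SGP.Win

/-! # STEP (difficulty 3; two theorems, may be shared: up and down). One dilation step. `ρ = q l + r₀ + 1`.
UP. `x₁` generic in `[qv-1-r₀, qv-1]`, `x₂` generic in `[q(v+l), q(v+l)+r₀]` (`hE.gen`).
 `x₁/q ≤ v-1 < v`, `x₁/q ≥ v-1-r₀ ≥ y`; `v+l ≤ x₂/q ≤ v+l+r₀ < v+r`. By `win_sum` (`f = vM`) the `vM`-sum over
 `(x₁/q, x₂/q]` is the sum over `Icc v (v+l)`, `≠ 0` by `val_iff` (`a = v`) and the last part of `Vs`. By `pf_sub` and `Dl`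
 (at `x₁, x₂`; `x₂ + w ≤ n`) it equals the `vM`-sum over `(x₁, x₂]`, so this is `≠ 0`. Let `S` = the `k ∈ (x₁,x₂]` with
 `e k ≠ 0`; by `Iso` (`x₂ ≤ x₁ + r`, `x₁ ≥ y`) all of them are within `l` of the least one `a` (`S` is nonempty), so `val_iff`
 shows that the rational sum is `≠ 0`; `win_vs` (with `gen_nc`) gives `v' ∈ (x₁, x₂]`, `Vs v'`.
 `qv-1-r₀ ≤ x₁ < v' ≤ q v + q l + r₀`.
DOWN. `x₁` generic in `[v-1-r₀, v-1]`, `x₂` generic in `[v+l, v+l+r₀]`. The `vM`-sum over `(x₁,x₂]` is `≠ 0` as before, and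
 equals the one over `(x₁/q, x₂/q]`; `val_iff` and `win_vs` for `(x₁/q, x₂/q]` (`gen_nc'`; `x₁/q ≥ y`; if
 `x₁/q = x₂/q` the sum is empty, contradiction) give `v'` with `x₁/q < v' ≤ x₂/q`, so `v-1-r₀ ≤ x₁ < q v' ≤ x₂ ≤ v+l+r₀`. -/

open Finset Polynomial

namespace Pool.Agent.SGP

/-- the environment -/
structure Env (b B : ℕ) (e : ℕ → ℤ) (l r r₀ y n K w : ℕ) : Prop where
  hb : 2 ≤ b
  zero : e 0 ≠ 0
  bd : ∀ k ≤ n, |e k| ≤ B
  iso : Iso e l r y n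
  gen : ∀ x, ∃ x', x ≤ x' ∧ x' ≤ x + r₀ ∧ Gen (EE e n) K w x'
  hK : 1 ≤ K
  hlw : l ≤ w

/-- dilation by `q` at generic points, modulo `m` -/
def Dl (b : ℕ) (e : ℕ → ℤ) (n K w m q : ℕ) : Prop :=
  ∀ x, x + w ≤ n → Gen (EE e n) K w x → pf (EE e n) (vM b e m) (x/q) = pf (EE e n) (vM b e m) x

/-- `vM` vanishes where `e` does -/
theorem StepDown_vM (b : ℕ) (e : ℕ → ℤ) (m k : ℕ) (h : e k = 0) : vM b e m k = 0 := by
  unfold vM
  rw [h]
  simp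

/-- the sum of the masses over a window with the value of `v` is `≠ 0` -/
theorem StepDown_ne (b B : ℕ) (e : ℕ → ℤ) (l r r₀ y n K w p M : ℕ) (hE : Env b B e l r r₀ y n K w)
    (hp : p.Prime) (hpb : ¬ p ∣ b) (hM : B*(l+1)*b^l < p^M) (v x x' : ℕ) (hv : Vs b e l v)
    (h1 : y ≤ x) (h2 : x < v) (h3 : v + l ≤ x') (h4 : x' ≤ n) (h5 : v ≤ x + r) (h6 : x' < v + r) :
    ∑ k ∈ Ioc x x', vM b e (p^M) k ≠ 0 := by
  rw [win_sum (vM b e (p^M)) b e l r y n x x' v (StepDown_vM b e (p^M)) hE.iso hv h1 h2 h3 h4 h5 h6]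
  intro h0
  have := (val_iff b B p M l v e hE.hb hp hpb (Icc v (v+l)) (fun k hk => by
    rw [Finset.mem_Icc] at hk; exact hk) (fun k hk => by
    rw [Finset.mem_Icc] at hk; exact hE.bd k (by omega)) hM).1 h0
  exact hv.2.2 this

/-- a short window with nonzero mass has nonzero rational value -/
theorem StepDown_rat (b B : ℕ) (e : ℕ → ℤ) (l r r₀ y n K w p M : ℕ) (hE : Env b B e l r r₀ y n K w)
    (hp : p.Prime) (hpb : ¬ p ∣ b) (hM : B*(l+1)*b^l < p^M) (x x' : ℕ)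
    (h1 : y ≤ x) (h4 : x' ≤ n) (h5 : x' ≤ x + r)
    (hne : ∑ k ∈ Ioc x x', vM b e (p^M) k ≠ 0) :
    ∑ k ∈ Ioc x x', (e k : ℚ)/(b:ℚ)^k ≠ 0 := by
  classical
  set S : Finset ℕ := (Ioc x x').filter (fun k => e k ≠ 0) with hS
  have e1 : ∑ k ∈ Ioc x x', vM b e (p^M) k = ∑ k ∈ S, vM b e (p^M) k := by
    rw [hS, Finset.sum_filter]
    refine Finset.sum_congr rfl ?_
    intro k _
    by_cases hk : e k ≠ 0
    · rw [if_pos hk]
    · rw [if_neg hk]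
      exact StepDown_vM b e _ k (not_not.1 hk)
  have e2 : ∑ k ∈ Ioc x x', (e k : ℚ)/(b:ℚ)^k = ∑ k ∈ S, (e k : ℚ)/(b:ℚ)^k := by
    rw [hS, Finset.sum_filter]
    refine Finset.sum_congr rfl ?_
    intro k _
    by_cases hk : e k ≠ 0
    · rw [if_pos hk]
    · rw [if_neg hk, not_not.1 hk]
      simp
  have hSn : S.Nonempty := by
    rcases S.eq_empty_or_nonempty with h | h
    · exfalso
      apply hne
      rw [e1, h, Finset.sum_empty]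
    · exact h
  set a := S.min' hSn with ha
  have haS : a ∈ S := S.min'_mem hSn
  rw [e2]
  rw [e1] at hne
  intro h0
  apply hne
  refine (val_iff b B p M l a e hE.hb hp hpb S ?_ ?_ hM).2 h0
  · intro k hk
    have hak : a ≤ k := S.min'_le k hk
    refine ⟨hak, ?_⟩
    rcases Nat.eq_or_lt_of_le hak with h | h
    · omega
    · rw [hS, Finset.mem_filter, Finset.mem_Ioc] at hk haS
      rcases hE.iso a k (by omega) h (by omega) haS.2 hk.2 with h' | h'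
      · exact h'
      · omega
  · intro k hk
    rw [hS, Finset.mem_filter, Finset.mem_Ioc] at hk
    exact hE.bd k (by omega)

theorem step_up (b B : ℕ) (e : ℕ → ℤ) (l r r₀ y n K w p M q : ℕ) (hE : Env b B e l r r₀ y n K w)
    (hp : p.Prime) (hpb : ¬ p ∣ b) (hM : B*(l+1)*b^l < p^M) (hq : 1 ≤ q) (hqK : q ≤ K)
    (hqw : q*(l+1) ≤ w) (hD : Dl b e n K w (p^M) q) (hr : q*l + 2*r₀ + 2 ≤ r)
    (v : ℕ) (hv : Vs b e l v) (hy : y + r₀ + 1 ≤ v) (hn : q*v + q*l + r₀ + w + l ≤ n) :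
    ∃ v', Vs b e l v' ∧ |(v':ℤ) - q*v| ≤ q*l + r₀ + 1 := by
  obtain ⟨x₁, ha1, ha2, hg1⟩ := hE.gen (q*v - 1 - r₀)
  obtain ⟨x₂, hb1, hb2, hg2⟩ := hE.gen (q*(v + l))
  have hql : l ≤ q * l := Nat.le_mul_of_pos_left l hq
  have hqv : v ≤ q * v := Nat.le_mul_of_pos_left v hq
  have hqr : r₀ ≤ q * r₀ := Nat.le_mul_of_pos_left r₀ hq
  have hvl : q*(v + l) = q*v + q*l := by ring
  rw [hvl] at hb1 hb2
  have k1 : x₁ / q < v := by
    rw [Nat.div_lt_iff_lt_mul hq, Nat.mul_comm]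
    omega
  have k2 : y ≤ x₁ / q := by
    have h1 : v - 1 - r₀ ≤ x₁ / q := by
      rw [Nat.le_div_iff_mul_le hq, Nat.mul_comm, Nat.mul_sub, Nat.mul_sub]
      omega
    omega
  have k2' : v ≤ x₁ / q + (1 + r₀) := by
    have h1 : v - 1 - r₀ ≤ x₁ / q := by
      rw [Nat.le_div_iff_mul_le hq, Nat.mul_comm, Nat.mul_sub, Nat.mul_sub]
      omega
    omega
  have k3 : v + l ≤ x₂ / q := by
    rw [Nat.le_div_iff_mul_le hq, Nat.mul_comm, hvl]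
    exact hb1
  have k4 : x₂ / q ≤ v + l + r₀ := by
    have h1 : x₂ / q < v + l + r₀ + 1 := by
      rw [Nat.div_lt_iff_lt_mul hq, Nat.mul_comm]
      have h2 : q * (v + l + r₀ + 1) = q*v + q*l + q*r₀ + q := by ring
      rw [h2]
      omega
    omega
  have hx2q : x₂ / q ≤ x₂ := Nat.div_le_self _ _
  have hne1 : ∑ k ∈ Ioc (x₁/q) (x₂/q), vM b e (p^M) k ≠ 0 :=
    StepDown_ne b B e l r r₀ y n K w p M hE hp hpb hM v (x₁/q) (x₂/q) hv k2 k1 k3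
      (by omega) (by omega) (by omega)
  have hd1 := hD x₁ (by omega) hg1
  have hd2 := hD x₂ (by omega) hg2
  have hvz := StepDown_vM b e (p^M)
  have hs1 := pf_sub (vM b e (p^M)) e n x₁ x₂ hvz (by omega) (by omega)
  have hs2 := pf_sub (vM b e (p^M)) e n (x₁/q) (x₂/q) hvz (by omega) (by omega)
  have hne2 : ∑ k ∈ Ioc x₁ x₂, vM b e (p^M) k ≠ 0 := by
    rw [← hs1, ← hd1, ← hd2, hs2]
    exact hne1
  have hne3 := StepDown_rat b B e l r r₀ y n K w p M hE hp hpb hM x₁ x₂ (by omega) (by omega)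
    (by omega) hne2
  obtain ⟨v', hv1, hv2, hv3⟩ := win_vs b e l r y n x₁ x₂ hE.iso (by omega) (by omega) (by omega)
    (by omega)
    (gen_nc e hE.zero l n K w x₁ hE.hK hE.hlw (by omega) hg1)
    (gen_nc e hE.zero l n K w x₂ hE.hK hE.hlw (by omega) hg2) hne3
  refine ⟨v', hv3, ?_⟩
  have c1 : q * v ≤ v' + r₀ + 1 := by omega
  have c2 : v' ≤ q * v + q * l + r₀ := by omega
  have c1' : (q:ℤ) * v ≤ v' + r₀ + 1 := by exact_mod_cast c1
  have c2' : (v':ℤ) ≤ q * v + q * l + r₀ := by exact_mod_cast c2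
  have c3 : (0:ℤ) ≤ (q:ℤ) * l := by positivity
  rw [abs_le]
  constructor <;> linarith

theorem step_down (b B : ℕ) (e : ℕ → ℤ) (l r r₀ y n K w p M q : ℕ) (hE : Env b B e l r r₀ y n K w)
    (hp : p.Prime) (hpb : ¬ p ∣ b) (hM : B*(l+1)*b^l < p^M) (hq : 1 ≤ q) (hqK : q ≤ K)
    (hqw : q*(l+1) ≤ w) (hD : Dl b e n K w (p^M) q) (hr : q*l + 2*r₀ + 2 ≤ r)
    (v : ℕ) (hv : Vs b e l v) (hy : q*y + r₀ + 1 ≤ v) (hn : v + 2*l + r₀ + w ≤ n) :
    ∃ v', Vs b e l v' ∧ |(q:ℤ)*v' - v| ≤ q*l + r₀ + 1 := by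
  obtain ⟨x₁, ha1, ha2, hg1⟩ := hE.gen (v - 1 - r₀)
  obtain ⟨x₂, hb1, hb2, hg2⟩ := hE.gen (v + l)
  have hql : l ≤ q * l := Nat.le_mul_of_pos_left l hq
  have hqy : y ≤ q * y := Nat.le_mul_of_pos_left y hq
  have hne1 : ∑ k ∈ Ioc x₁ x₂, vM b e (p^M) k ≠ 0 :=
    StepDown_ne b B e l r r₀ y n K w p M hE hp hpb hM v x₁ x₂ hv (by omega) (by omega) hb1
      (by omega) (by omega) (by omega)
  have hd1 := hD x₁ (by omega) hg1
  have hd2 := hD x₂ (by omega) hg2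
  have hvz := StepDown_vM b e (p^M)
  have hs1 := pf_sub (vM b e (p^M)) e n x₁ x₂ hvz (by omega) (by omega)
  have hdiv : x₁ / q ≤ x₂ / q := Nat.div_le_div_right (by omega)
  have hx2q : x₂ / q ≤ x₂ := Nat.div_le_self _ _
  have hs2 := pf_sub (vM b e (p^M)) e n (x₁/q) (x₂/q) hvz hdiv (by omega)
  have hne2 : ∑ k ∈ Ioc (x₁/q) (x₂/q), vM b e (p^M) k ≠ 0 := by
    rw [← hs2, hd1, hd2, hs1]
    exact hne1
  have hyq : y ≤ x₁ / q := by
    rw [Nat.le_div_iff_mul_le hq, Nat.mul_comm]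
    omega
  have hlen : x₂ / q ≤ x₁ / q + 1 + (x₂ - x₁) := by
    have h1 := Nat.div_add_mod x₁ q
    have h2 := Nat.mod_lt x₁ hq
    have h3 := Nat.div_mul_le_self x₂ q
    have h4 : x₂ < (x₁ / q + 1 + (x₂ - x₁) + 1) * q := by
      have h5 : x₂ - x₁ ≤ (x₂ - x₁) * q := Nat.le_mul_of_pos_right _ hq
      have h6 : (x₁ / q + 1 + (x₂ - x₁) + 1) * q = q * (x₁ / q) + q + (x₂ - x₁) * q + q := by ring
      rw [h6]
      omega
    have h7 := (Nat.div_lt_iff_lt_mul hq).2 h4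
    omega
  have hne3 := StepDown_rat b B e l r r₀ y n K w p M hE hp hpb hM (x₁/q) (x₂/q) hyq (by omega)
    (by omega) hne2
  have hlt : x₁ / q < x₂ / q := by
    rcases Nat.lt_or_ge (x₁/q) (x₂/q) with h | h
    · exact h
    · exfalso
      apply hne3
      rw [Finset.Ioc_eq_empty (by omega), Finset.sum_empty]
  obtain ⟨v', hv1, hv2, hv3⟩ := win_vs b e l r y n (x₁/q) (x₂/q) hE.iso hyq hlt (by omega) (by omega)
    (gen_nc' e hE.zero l n K w x₁ q hq hqK hqw (by omega) hg1)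
    (gen_nc' e hE.zero l n K w x₂ q hq hqK hqw (by omega) hg2) hne3
  refine ⟨v', hv3, ?_⟩
  have k1 : x₁ < v' * q := (Nat.div_lt_iff_lt_mul hq).1 hv1
  have k2 : v' * q ≤ x₂ := (Nat.le_div_iff_mul_le hq).1 hv2
  have k3 : (x₁ : ℤ) < (q:ℤ) * v' := by rw [mul_comm]; exact_mod_cast k1
  have k4 : (q:ℤ) * v' ≤ x₂ := by rw [mul_comm]; exact_mod_cast k2
  have k5 : (l:ℤ) ≤ (q:ℤ) * l := by exact_mod_cast hql
  rw [abs_le]
  constructor
  · have : (v:ℤ) - 1 - r₀ ≤ x₁ := by omega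
    linarith
  · have : (x₂ : ℤ) ≤ v + l + r₀ := by exact_mod_cast hb2
    linarith

end Pool.Agent.SGP
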