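import Pool.Agent.SGP.Dil
import Pool.Agent.SGP.Cnt
import Pool.Agent.SGP.Step

open Finset Polynomial

namespace Pool.Agent.SGP

/-- two composed approximate multiplications -/
lemma mstep (P : ℕ → Prop) (A A' G v ρ ys y Y : ℕ) (hA : 1 ≤ A) (hA' : 1 ≤ A') (hAG : A ≤ G)
    (hAG' : A' ≤ G) (hy : y ≤ ys) (hv : G*(ys + 3*ρ) ≤ v) (hY : G*(v+ρ) ≤ Y)
    (hU : ∃ v1, P v1 ∧ |(v1:ℤ) - (A:ℤ)*v| ≤ (A:ℤ)*ρ)
    (hD : ∀ v1, P v1 → A'*(ys+ρ) ≤ v1 + ρ → v1 ≤ Y → ∃ v', P v' ∧ |(A':ℤ)*v' - v1| ≤ (A':ℤ)*ρ) :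
    ∃ v', P v' ∧ y ≤ v' ∧ v' ≤ Y + ρ ∧ |(A':ℤ)*v' - (A:ℤ)*v| ≤ 2*(G:ℤ)*ρ := by
  obtain ⟨v1, hv1, h1⟩ := hU
  have hAZ : (1:ℤ) ≤ A := by exact_mod_cast hA
  have hAZ' : (1:ℤ) ≤ A' := by exact_mod_cast hA'
  have hAGZ : (A:ℤ) ≤ G := by exact_mod_cast hAG
  have hAGZ' : (A':ℤ) ≤ G := by exact_mod_cast hAG'
  have hyZ : (y:ℤ) ≤ ys := by exact_mod_cast hy
  have hρ : (0:ℤ) ≤ ρ := Int.natCast_nonneg _
  have hys : (0:ℤ) ≤ ys := Int.natCast_nonneg _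
  have hy0 : (0:ℤ) ≤ y := Int.natCast_nonneg _
  have hv0 : (0:ℤ) ≤ v := Int.natCast_nonneg _
  have hvZ : (G:ℤ)*ys + 3*((G:ℤ)*ρ) ≤ v := by
    have : ((G*(ys+3*ρ) : ℕ):ℤ) ≤ v := by exact_mod_cast hv
    push_cast at this
    linarith
  have hYZ : (G:ℤ)*v + (G:ℤ)*ρ ≤ Y := by
    have : ((G*(v+ρ) : ℕ):ℤ) ≤ Y := by exact_mod_cast hY
    push_cast at this
    linarith
  have a1 : (A:ℤ)*ρ ≤ (G:ℤ)*ρ := mul_le_mul_of_nonneg_right hAGZ hρ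
  have a2 : (A':ℤ)*ρ ≤ (G:ℤ)*ρ := mul_le_mul_of_nonneg_right hAGZ' hρ
  have a3 : (ρ:ℤ) ≤ (A:ℤ)*ρ := le_mul_of_one_le_left hρ hAZ
  have a4 : (ρ:ℤ) ≤ (A':ℤ)*ρ := le_mul_of_one_le_left hρ hAZ'
  have a5 : (A:ℤ)*v ≤ (G:ℤ)*v := mul_le_mul_of_nonneg_right hAGZ hv0
  have a6 : (A':ℤ)*ys ≤ (G:ℤ)*ys := mul_le_mul_of_nonneg_right hAGZ' hys
  have a7 : (0:ℤ) ≤ (G:ℤ)*ys := mul_nonneg (Int.natCast_nonneg _) hys
  have a8 : (v:ℤ) - ρ ≤ (A:ℤ)*((v:ℤ)-ρ) := le_mul_of_one_le_left (by linarith) hAZ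
  have a9 : (A':ℤ)*y ≤ (A':ℤ)*ys := mul_le_mul_of_nonneg_left hyZ (by linarith)
  rw [mul_sub] at a8
  rw [abs_le] at h1
  have hd1 : A'*(ys+ρ) ≤ v1 + ρ := by
    have : (A':ℤ)*(ys+ρ) ≤ v1 + ρ := by
      rw [mul_add]
      linarith [h1.1]
    exact_mod_cast this
  have hd2 : v1 ≤ Y := by
    have : (v1:ℤ) ≤ Y := by linarith [h1.2]
    exact_mod_cast this
  obtain ⟨v', hv', h2⟩ := hD v1 hv1 hd1 hd2
  rw [abs_le] at h2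
  have hd2Z : (v1:ℤ) ≤ Y := by exact_mod_cast hd2
  have hA'0 : (0:ℤ) < A' := by linarith
  refine ⟨v', hv', ?_, ?_, ?_⟩
  · have : (A':ℤ)*y ≤ (A':ℤ)*v' := by linarith [h1.1, h2.1]
    have := le_of_mul_le_mul_left this hA'0
    exact_mod_cast this
  · have hY0 : (Y:ℤ) ≤ (A':ℤ)*Y := le_mul_of_one_le_left (Int.natCast_nonneg _) hAZ'
    have : (A':ℤ)*v' ≤ (A':ℤ)*(Y+ρ) := by
      rw [mul_add]
      linarith [h2.2]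
    have := le_of_mul_le_mul_left this hA'0
    exact_mod_cast this
  · rw [abs_le]
    constructor
    · linarith [h1.1, h2.1]
    · linarith [h1.2, h2.2]

lemma core_card (b : ℕ) (e : ℕ → ℤ) (l r y n L T : ℕ) (c : Fin T → ℕ)
    (hc : ∀ k ≤ n, e k ≠ 0 → ∃ i, c i ≤ k ∧ k < c i + L) (h0 : e 0 ≠ 0)
    (hL : L ≤ r) (hI : Iso e l r y n) (V : Finset ℕ)
    (hV : ∀ v ∈ V, v ≤ n ∧ Vs b e l v ∧ y ≤ v) : #V ≤ T := by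
  classical
  have h1 : ∀ v ∈ V, ∃ i : Fin T, c i ≤ v ∧ v < c i + L := by
    intro v hv
    obtain ⟨h1, h2, _⟩ := hV v hv
    exact hc v h1 h2.1
  have : Nonempty (Fin T) := ⟨(hc 0 (Nat.zero_le _) h0).choose⟩
  choose! g hg using h1
  have key : ∀ a ∈ V, ∀ a' ∈ V, g a = g a' → ¬ a < a' := by
    intro a ha a' ha' hga hlt
    obtain ⟨h1, h2, h3⟩ := hV a ha
    obtain ⟨h1', h2', h3'⟩ := hV a' ha'
    have h4 := hg a ha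
    have h5 := hg a' ha'
    rw [← hga] at h5
    rcases hI a a' h3 hlt h1' h2.1 h2'.1 with h6 | h6
    · exact h2.1 (h2'.2.1 a hlt h6)
    · obtain ⟨h7, h8⟩ := h4
      obtain ⟨h9, h10⟩ := h5
      clear h1 h2 h3 h1' h2' h3' hc hI hV hg h0
      omega
  have h2 := Finset.card_le_card_of_injOn (s := V) (t := (univ : Finset (Fin T))) g
    (fun _ _ => by simp) ?_
  · simpa using h2
  · intro v hv v' hv' hgg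
    rcases lt_trichotomy v v' with h | h | h
    · exact absurd h (key v hv v' hv' hgg)
    · exact h
    · exact absurd h (key v' hv' v hv hgg.symm)

lemma core_env (b : ℕ) (hb : 2 ≤ b) (α : ℝ) (B n l L T K w r₀ r y W : ℕ) (e : ℕ → ℤ)
    (hDig : Dig b B n α e) (hw1 : 1 ≤ w) (hlw : l < w) (c : Fin T → ℕ)
    (hc : ∀ k ≤ n, e k ≠ 0 → ∃ i, c i ≤ k ∧ k < c i + L)
    (hW : T^K*(K*L+2*w) = W) (hr₀ : W ≤ r₀) (hK1 : 1 ≤ K) (hI : Iso e l r y n) :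
    Env b B e l r r₀ y n K w := by
  refine ⟨hb, hDig.zero, hDig.bd, hI, ?_, hK1, hlw.le⟩
  intro x
  obtain ⟨x', h1, h2, h3⟩ := gen_exists (EE e n) T L K w x hw1 c
    (fun a ha => hc a (mem_EE.1 ha).1 (mem_EE.1 ha).2)
  exact ⟨x', h1, h2.trans (Nat.add_le_add_left (hW.le.trans hr₀) _), h3⟩

lemma core_up (b B : ℕ) (e : ℕ → ℤ) (l r r₀ y n K w M N F ρ Y : ℕ) (hE : Env b B e l r r₀ y n K w)
    (hM : B*(l+1)*b^l < 2^M) (hNK : N^F ≤ K) (hNw : N^F*(l+1) ≤ w) (hr : N^F*l + 2*r₀ + 2 ≤ r)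
    (hρ : ρ = N^F*l + r₀ + 1) (hY : Y + (N^F*l + r₀ + w + 2*l) ≤ n)
    (p : ℕ) (hp : p.Prime) (hpN : p ≤ N) (hpb : ¬ p ∣ b) (hD : Dl b e n K w (p^M) (p^F))
    (v : ℕ) (hv : Vs b e l v) (h1 : y + r₀ + 1 ≤ v) (h2 : p^F*v ≤ Y) :
    ∃ v', Vs b e l v' ∧ |(v':ℤ) - (p:ℤ)^F*v| ≤ ρ := by
  have hM' : B*(l+1)*b^l < p^M := lt_of_lt_of_le hM (Nat.pow_le_pow_left hp.two_le M)
  have hq : p^F ≤ N^F := Nat.pow_le_pow_left hpN F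
  have hq1 : 1 ≤ p^F := Nat.one_le_pow _ _ hp.pos
  have hql : p^F*l ≤ N^F*l := Nat.mul_le_mul_right _ hq
  have hql1 : p^F*(l+1) ≤ N^F*(l+1) := Nat.mul_le_mul_right _ hq
  have hn : p^F*v + p^F*l + r₀ + w + l ≤ n := by
    clear hM hM' hNK hNw hr hρ hql1 hq1 hq hpN h1
    omega
  have hr' : p^F*l + 2*r₀ + 2 ≤ r := by
    clear hM hM' hNK hNw hρ hql1 hq1 hq hpN h1 hn hY h2
    omega
  obtain ⟨v', h3, h4⟩ := step_up b B e l r r₀ y n K w p M (p^F) hE hp hpb hM' hq1 (hq.trans hNK)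
    (hql1.trans hNw) hD hr' v hv h1 hn
  refine ⟨v', h3, ?_⟩
  push_cast at h4
  refine h4.trans ?_
  rw [hρ]
  have : ((p:ℤ)^F*l) ≤ (N:ℤ)^F*l := by exact_mod_cast hql
  push_cast
  linarith

lemma core_down (b B : ℕ) (e : ℕ → ℤ) (l r r₀ y n K w M N F ρ Y : ℕ)
    (hE : Env b B e l r r₀ y n K w)
    (hM : B*(l+1)*b^l < 2^M) (hNK : N^F ≤ K) (hNw : N^F*(l+1) ≤ w) (hr : N^F*l + 2*r₀ + 2 ≤ r)
    (hρ : ρ = N^F*l + r₀ + 1) (hY : Y + (N^F*l + r₀ + w + 2*l) ≤ n)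
    (p : ℕ) (hp : p.Prime) (hpN : p ≤ N) (hpb : ¬ p ∣ b) (hD : Dl b e n K w (p^M) (p^F))
    (v : ℕ) (hv : Vs b e l v) (h1 : p^F*(y + r₀ + 1) ≤ v) (h2 : v ≤ Y) :
    ∃ v', Vs b e l v' ∧ |(p:ℤ)^F*v' - v| ≤ ρ := by
  have hM' : B*(l+1)*b^l < p^M := lt_of_lt_of_le hM (Nat.pow_le_pow_left hp.two_le M)
  have hq : p^F ≤ N^F := Nat.pow_le_pow_left hpN F
  have hq1 : 1 ≤ p^F := Nat.one_le_pow _ _ hp.pos
  have hql : p^F*l ≤ N^F*l := Nat.mul_le_mul_right _ hq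
  have hql1 : p^F*(l+1) ≤ N^F*(l+1) := Nat.mul_le_mul_right _ hq
  have h1' : p^F*y + r₀ + 1 ≤ v := by
    have h5 : p^F*(y + r₀ + 1) = p^F*y + p^F*(r₀+1) := by ring
    have h6 : r₀ + 1 ≤ p^F*(r₀+1) := Nat.le_mul_of_pos_left _ hq1
    clear hM hM' hNK hNw hr hρ hql1 hql hq1 hq hpN hY h2
    omega
  have hn : v + 2*l + r₀ + w ≤ n := by
    clear hM hM' hNK hNw hr hρ hql1 hql hq1 hq hpN h1 h1'
    omega
  have hr' : p^F*l + 2*r₀ + 2 ≤ r := by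
    clear hM hM' hNK hNw hρ hql1 hq1 hq hpN h1 h1' hn hY h2
    omega
  obtain ⟨v', h3, h4⟩ := step_down b B e l r r₀ y n K w p M (p^F) hE hp hpb hM' hq1 (hq.trans hNK)
    (hql1.trans hNw) hD hr' v hv h1' hn
  refine ⟨v', h3, ?_⟩
  push_cast at h4
  refine h4.trans ?_
  rw [hρ]
  have : ((p:ℤ)^F*l) ≤ (N:ℤ)^F*l := by exact_mod_cast hql
  push_cast
  linarith

end Pool.Agent.SGP
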