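import Mathlib

/-! # Squad SGP: definitions.
Digits: `e : ℕ → ℤ`, base `b ≥ 2`, `Σ e_k b^(-k) = α`. -/

open Finset Polynomial

namespace Pool.Agent.SGP

/-- `m`-fold sums of elements of `A` -/
def ss (A : Finset ℕ) : ℕ → Finset ℕ
  | 0 => {0}
  | (m+1) => image₂ (· + ·) A (ss A m)

/-- support of the digits up to `n` -/
def EE (e : ℕ → ℤ) (n : ℕ) : Finset ℕ := (range (n+1)).filter (fun k => e k ≠ 0)

/-- a finite digit expansion of `α` in base `b` up to `n`, with precision `B` -/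
structure Dig (b B n : ℕ) (α : ℝ) (e : ℕ → ℤ) : Prop where
  zero : e 0 ≠ 0
  bd : ∀ k ≤ n, |e k| ≤ B
  app : |∑ k ∈ range (n+1), (e k : ℝ) / b^k - α| ≤ B / b^n

/-- cumulative sum of the coefficients -/
noncomputable def cm {R : Type*} [CommRing R] (x : ℕ) (f : R[X]) : R :=
  ∑ s ∈ range (x+1), f.coeff s

/-- generating polynomial -/
noncomputable def gq {R : Type*} [CommRing R] (A : Finset ℕ) (v : ℕ → R) : R[X] :=
  ∑ k ∈ A, C (v k) * X^k

/-- partial sums -/
def pf {R : Type*} [CommRing R] (A : Finset ℕ) (v : ℕ → R) (x : ℕ) : R :=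
  ∑ k ∈ A.filter (fun k => k ≤ x), v k

/-- `x` has distance `≥ w` from all `K`-fold sums of `A` -/
def Gen (A : Finset ℕ) (K w x : ℕ) : Prop := ∀ σ ∈ ss A K, σ + w ≤ x ∨ x + w ≤ σ

/-- the masses modulo `m` -/
noncomputable def vM (b : ℕ) (e : ℕ → ℤ) (m k : ℕ) : ZMod m :=
  (e k : ZMod m) * ((b : ZMod m)⁻¹)^k

/-- visible start: `v` is the start of an `l`-cluster of digits with nonzero value -/
def Vs (b : ℕ) (e : ℕ → ℤ) (l v : ℕ) : Prop :=
  e v ≠ 0 ∧ (∀ k, k < v → v ≤ k + l → e k = 0) ∧ ∑ k ∈ Icc v (v+l), (e k : ℚ) / (b:ℚ)^k ≠ 0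

/-- isolation: two nonzero digits in `[y, n]` have distance `≤ l` or `≥ r` -/
def Iso (e : ℕ → ℤ) (l r y n : ℕ) : Prop :=
  ∀ k k', y ≤ k → k < k' → k' ≤ n → e k ≠ 0 → e k' ≠ 0 → k' ≤ k + l ∨ k + r ≤ k'

/-! ## elementary lemmas -/

lemma ss_le (A : Finset ℕ) (h0 : 0 ∈ A) {m m' : ℕ} (h : m ≤ m') : ss A m ⊆ ss A m' := by
  induction h with
  | refl => exact Finset.Subset.refl _
  | step h ih =>
    refine ih.trans ?_
    intro s hs
    exact Finset.mem_image₂.2 ⟨0, h0, s, hs, by simp⟩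

lemma ss_add (A : Finset ℕ) {m n s s' : ℕ} (h : s ∈ ss A m) (h' : s' ∈ ss A n) :
    s + s' ∈ ss A (m+n) := by
  induction m generalizing s with
  | zero =>
    have h0 : s = 0 := by simpa [ss] using h
    rw [h0, zero_add, zero_add]
    exact h'
  | succ m ih =>
    obtain ⟨e, he, s1, hs1, h1⟩ := Finset.mem_image₂.1 h
    have h2 : m + 1 + n = (m + n) + 1 := by ring
    rw [h2]
    refine Finset.mem_image₂.2 ⟨e, he, s1 + s', ih hs1, ?_⟩
    omega

lemma ss_mul (A : Finset ℕ) {m s : ℕ} (q : ℕ) (h : s ∈ ss A m) : q * s ∈ ss A (q*m) := by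
  induction q with
  | zero => simp [ss]
  | succ q ih =>
    rw [add_mul, add_mul, one_mul, one_mul]
    exact ss_add A ih h

lemma mem_ss_one (A : Finset ℕ) {a : ℕ} (h : a ∈ A) : a ∈ ss A 1 := by
  refine Finset.mem_image₂.2 ⟨a, h, 0, by simp [ss], by simp⟩

lemma zero_mem_ss (A : Finset ℕ) (h0 : 0 ∈ A) (m : ℕ) : 0 ∈ ss A m := by
  apply ss_le A h0 (Nat.zero_le m)
  simp [ss]

lemma mem_EE {e : ℕ → ℤ} {n k : ℕ} : k ∈ EE e n ↔ k ≤ n ∧ e k ≠ 0 := by
  unfold EE
  rw [mem_filter, mem_range]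
  constructor
  · rintro ⟨h1, h2⟩; exact ⟨by omega, h2⟩
  · rintro ⟨h1, h2⟩; exact ⟨by omega, h2⟩

lemma coeff_gq {R : Type*} [CommRing R] (A : Finset ℕ) (v : ℕ → R) (s : ℕ) :
    (gq A v).coeff s = if s ∈ A then v s else 0 := by
  unfold gq
  rw [Polynomial.finsetSum_coeff]
  simp only [Polynomial.coeff_C_mul_X_pow]
  rw [Finset.sum_ite_eq]

lemma cm_add {R : Type*} [CommRing R] (x : ℕ) (f g : R[X]) : cm x (f+g) = cm x f + cm x g := by
  unfold cm
  rw [← Finset.sum_add_distrib]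
  exact Finset.sum_congr rfl fun s _ => Polynomial.coeff_add _ _ _

lemma cm_sub {R : Type*} [CommRing R] (x : ℕ) (f g : R[X]) : cm x (f-g) = cm x f - cm x g := by
  unfold cm
  rw [← Finset.sum_sub_distrib]
  exact Finset.sum_congr rfl fun s _ => Polynomial.coeff_sub _ _ _

lemma cm_C_mul {R : Type*} [CommRing R] (x : ℕ) (a : R) (f : R[X]) :
    cm x (C a * f) = a * cm x f := by
  unfold cm
  rw [Finset.mul_sum]
  exact Finset.sum_congr rfl fun s _ => Polynomial.coeff_C_mul _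

lemma cm_gq {R : Type*} [CommRing R] (A : Finset ℕ) (v : ℕ → R) (x : ℕ) :
    cm x (gq A v) = pf A v x := by
  unfold cm pf
  rw [Finset.sum_filter]
  simp only [coeff_gq]
  rw [← Finset.sum_filter, ← Finset.sum_filter]
  refine Finset.sum_congr ?_ fun _ _ => rfl
  ext s
  simp only [mem_filter, mem_range]
  constructor
  · rintro ⟨h1, h2⟩; exact ⟨h2, by omega⟩
  · rintro ⟨h1, h2⟩; exact ⟨by omega, h1⟩

lemma cm_mul {R : Type*} [CommRing R] (x : ℕ) (f g : R[X]) :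
    cm x (f * g) = ∑ i ∈ range (x+1), f.coeff i * cm (x - i) g := by
  unfold cm
  have h1 : ∀ s, (f * g).coeff s = ∑ i ∈ range (s+1), f.coeff i * g.coeff (s - i) := by
    intro s
    rw [Polynomial.coeff_mul, Finset.Nat.sum_antidiagonal_eq_sum_range_succ_mk]
  simp only [h1, Finset.mul_sum]
  rw [Finset.sum_sigma', Finset.sum_sigma']
  refine Finset.sum_nbij' (fun x => ⟨x.2, x.1 - x.2⟩) (fun x => ⟨x.1 + x.2, x.1⟩) ?_ ?_ ?_ ?_ ?_
  · intro x hx
    simp only [mem_sigma, mem_range] at hx ⊢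
    omega
  · intro x hx
    simp only [mem_sigma, mem_range] at hx ⊢
    omega
  · intro x hx
    simp only [mem_sigma, mem_range] at hx
    rcases x with ⟨s, i⟩
    simp only at hx ⊢
    congr 1
    omega
  · intro x hx
    rcases x with ⟨i, j⟩
    simp
  · intro x hx
    rfl

/-- the support of `u` consists of `j`-fold sums -/
def Su {R : Type*} [CommRing R] (A : Finset ℕ) (j : ℕ) (u : R[X]) : Prop :=
  ∀ i, u.coeff i ≠ 0 → i ∈ ss A j

/-- all `u`-sums at `x - s`, `s` a `j`-fold sum, vanish -/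
def Nu {R : Type*} [CommRing R] (A : Finset ℕ) (x j : ℕ) (u : R[X]) : Prop :=
  ∀ s ∈ ss A j, s ≤ x → cm (x - s) u = 0

section supp
variable {R : Type*} [CommRing R] {A : Finset ℕ} {x i j : ℕ} {u w : R[X]}

lemma Su.mono (h0 : 0 ∈ A) (h : i ≤ j) (hu : Su A i u) : Su A j u :=
  fun k hk => ss_le A h0 h (hu k hk)

lemma Su.add (hu : Su A j u) (hw : Su A j w) : Su A j (u+w) := by
  intro k hk
  rw [coeff_add] at hk
  by_cases h : u.coeff k = 0
  · rw [h, zero_add] at hk; exact hw k hk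
  · exact hu k h

lemma Su.neg (hu : Su A j u) : Su A j (-u) := by
  intro k hk
  rw [coeff_neg] at hk
  exact hu k (fun h => hk (by rw [h, neg_zero]))

lemma Su.sub (hu : Su A j u) (hw : Su A j w) : Su A j (u-w) := by
  rw [sub_eq_add_neg]; exact hu.add hw.neg

lemma Su.mul (hu : Su A i u) (hw : Su A j w) : Su A (i+j) (u*w) := by
  intro k hk
  rw [coeff_mul] at hk
  obtain ⟨y, hy, hy'⟩ := Finset.exists_ne_zero_of_sum_ne_zero hk
  have h1 := ss_add A (hu _ (left_ne_zero_of_mul hy')) (hw _ (right_ne_zero_of_mul hy'))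
  rwa [Finset.HasAntidiagonal.mem_antidiagonal.1 hy] at h1

lemma Su.C (a : R) : Su A 0 (Polynomial.C a) := by
  intro k hk
  rw [coeff_C] at hk
  by_cases h : k = 0
  · subst h; simp [ss]
  · rw [if_neg h] at hk; exact absurd rfl hk

lemma Su.C_mul (a : R) (hu : Su A j u) : Su A j (Polynomial.C a * u) := by
  have := (Su.C (A := A) a).mul hu
  rwa [zero_add] at this

lemma Su.pow (hu : Su A j u) (n : ℕ) : Su A (n*j) (u^n) := by
  induction n with
  | zero => rw [zero_mul, pow_zero]; exact Su.C 1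
  | succ n ih => rw [pow_succ, add_mul, one_mul]; exact ih.mul hu

lemma Su.sum {ι : Type*} (s : Finset ι) (f : ι → R[X]) (h : ∀ k ∈ s, Su A j (f k)) :
    Su A j (∑ k ∈ s, f k) := by
  intro k hk
  rw [finsetSum_coeff] at hk
  obtain ⟨y, hy, hy'⟩ := Finset.exists_ne_zero_of_sum_ne_zero hk
  exact h y hy k hy'

lemma su_gq (v : ℕ → R) : Su A 1 (gq A v) := by
  intro k hk
  rw [coeff_gq] at hk
  by_cases h : k ∈ A
  · exact mem_ss_one A h
  · rw [if_neg h] at hk; exact absurd rfl hk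

lemma su_comp (h0 : 0 ∈ A) (P : R[X]) {n : ℕ} (hn : P.natDegree ≤ n) (hu : Su A j u) :
    Su A (n*j) (P.comp u) := by
  rw [Polynomial.comp, eval₂_eq_sum_range]
  refine Su.sum _ _ fun k hk => ?_
  refine Su.C_mul _ ((hu.pow k).mono h0 ?_)
  have := Finset.mem_range.1 hk
  exact Nat.mul_le_mul_right _ (by omega)

lemma Nu.mono (h0 : 0 ∈ A) (h : i ≤ j) (hu : Nu A x j u) : Nu A x i u :=
  fun s hs => hu s (ss_le A h0 h hs)

lemma Nu.add (hu : Nu A x j u) (hw : Nu A x j w) : Nu A x j (u+w) := by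
  intro s hs hx
  rw [cm_add, hu s hs hx, hw s hs hx, add_zero]

lemma Nu.sub (hu : Nu A x j u) (hw : Nu A x j w) : Nu A x j (u-w) := by
  intro s hs hx
  rw [cm_sub, hu s hs hx, hw s hs hx, sub_zero]

lemma Nu.mul (hw : Su A i w) (hu : Nu A x (i+j) u) : Nu A x j (w*u) := by
  intro s hs hx
  rw [cm_mul]
  refine Finset.sum_eq_zero fun k hk => ?_
  rw [Finset.mem_range] at hk
  by_cases h : w.coeff k = 0
  · rw [h, zero_mul]
  · have h1 := hu (k + s) (ss_add A (hw k h) hs) (by omega)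
    have h2 : x - s - k = x - (k + s) := by omega
    rw [h2, h1, mul_zero]

lemma Nu.C_mul (a : R) (hu : Nu A x j u) : Nu A x j (Polynomial.C a * u) := by
  intro s hs hx
  rw [cm_C_mul, hu s hs hx, mul_zero]

lemma Nu.cm_eq (h0 : 0 ∈ A) (hu : Nu A x j u) : cm x u = 0 := by
  have := hu 0 (zero_mem_ss A h0 j) (Nat.zero_le _)
  rwa [Nat.sub_zero] at this

end supp

end Pool.Agent.SGP
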