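import Pool.Agent.SGP.Defs

/-! # FRB (difficulty 2). Taylor formula with supports.
First for `P = X^k`, by induction on `k`: there is `U` with `Su A (k*κ) U` and
`(g+h)^k = g^k + (k:R) * g^(k-1) * h + h^2 * U`:
`(g+h)^(k+1) = (g+h) (g^k + k g^(k-1) h + h^2 U) = g^(k+1) + (k+1) g^k h + h^2 (k g^(k-1) + (g+h) U)` (for `k = 0` treat
separately). Then `P = Σ_k a_k X^k` (`Polynomial.comp`, `eval₂_eq_sum_range`, or induction `Polynomial.induction_on'` with
existential statements; the constant is `c = P.natDegree`; `Su.mono` needs `0 ∈ A`). -/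

open Finset Polynomial

namespace Pool.Agent.SGP

lemma FrB_pow {R : Type} [CommRing R] (A : Finset ℕ) (κ : ℕ) (g h : R[X]) (h0 : 0 ∈ A) (hg : Su A κ g)
    (hh : Su A κ h) (k : ℕ) : ∃ U : R[X], Su A (k*κ) U ∧
      (g+h)^k = g^k + C (k:R) * g^(k-1) * h + h^2 * U := by
  induction k with
  | zero =>
    refine ⟨0, ?_, by simp⟩
    intro i hi
    simp at hi
  | succ k ih =>
    obtain ⟨U, hU, hU'⟩ := ih
    refine ⟨C (k:R) * g^(k-1) + (g+h)*U, ?_, ?_⟩
    · refine Su.add ?_ ?_
      · refine Su.C_mul _ ((hg.pow (k-1)).mono h0 ?_)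
        exact Nat.mul_le_mul_right _ (by omega)
      · have h1 := (hg.add hh).mul hU
        refine h1.mono h0 (le_of_eq ?_)
        ring
    · rw [pow_succ, hU']
      rcases k with _ | k
      · simp
        ring
      · have h2 : k + 1 - 1 = k := rfl
        have h3 : k + 1 + 1 - 1 = k + 1 := rfl
        rw [h2, h3]
        simp only [Nat.cast_add, Nat.cast_one, C_add, C_1]
        ring

theorem taylor_su (P : ℤ[X]) : ∃ c : ℕ, ∀ (R : Type) [CommRing R] (A : Finset ℕ) (κ : ℕ) (g h : R[X]),
    0 ∈ A → Su A κ g → Su A κ h → ∃ U : R[X], Su A (c*κ) U ∧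
      (P.map (Int.castRingHom R)).comp (g+h) = (P.map (Int.castRingHom R)).comp g +
        ((derivative P).map (Int.castRingHom R)).comp g * h + h^2 * U := by
  induction P using Polynomial.induction_on' with
  | add p q hp hq =>
    obtain ⟨c, hc⟩ := hp
    obtain ⟨d, hd⟩ := hq
    refine ⟨max c d, ?_⟩
    intro R _ A κ g h h0 hg hh
    obtain ⟨U, hU, hU'⟩ := hc R A κ g h h0 hg hh
    obtain ⟨V, hV, hV'⟩ := hd R A κ g h h0 hg hh
    refine ⟨U + V, ?_, ?_⟩
    · exact (hU.mono h0 (Nat.mul_le_mul_right _ (le_max_left _ _))).add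
        (hV.mono h0 (Nat.mul_le_mul_right _ (le_max_right _ _)))
    · rw [Polynomial.map_add, add_comp, add_comp, hU', hV', derivative_add, Polynomial.map_add, add_comp]
      ring
  | monomial k a =>
    refine ⟨k, ?_⟩
    intro R _ A κ g h h0 hg hh
    obtain ⟨U, hU, hU'⟩ := FrB_pow A κ g h h0 hg hh k
    refine ⟨C (a:R) * U, hU.C_mul _, ?_⟩
    have h1 : ∀ q : R[X], (((monomial k) a : ℤ[X]).map (Int.castRingHom R)).comp q = C (a:R) * q^k := by
      intro q
      rw [map_monomial, monomial_comp]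
      simp
    have h2 : ((derivative ((monomial k) a : ℤ[X])).map (Int.castRingHom R)).comp g =
        C (a:R) * (C (k:R) * g^(k-1)) := by
      rw [derivative_monomial, map_monomial, monomial_comp]
      simp
      ring
    rw [h1, h1, h2, hU']
    ring

end Pool.Agent.SGP
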