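import Pool.Agent.SGP.Defs

/-! # FRC (difficulty 2). Newton iteration.
Claim (induction on `i`): there are `N, H` with `h = N + C(π^(2^i)) * H`, `Su A (2^(i+1) κ) N`, `Su A (2^(i+1) κ) H` and
for all `j` with `j + 2^(i+1) κ ≤ k`: `Nu A x j N`.
`i = 0`: `N₀, H₀` (note `2^0 = 1`; `Nu.mono`, `Su.mono`).
Step: `h^2 = N (N + 2 C(π^(2^i)) H) + C(π^(2^(i+1))) H^2`, so with `h = S + Z h^2`:
`N' = S + (Z * (N + 2 C(π^(2^i)) H)) * N`, `H' = Z * H^2`. Supports: `κ + 2 * 2^(i+1) κ`: to make the bounds work use the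
sharper claim `Su A ((2^(i+1)-1) κ)`: `κ + 2 (2^(i+1)-1) κ = (2^(i+2)-1) κ`. `Nu A x j N'` for `j + 2^(i+2) κ ≤ k`: for the
second summand `Nu.mul` with the support `κ + (2^(i+1)-1) κ = 2^(i+1) κ` of `Z*(N+2CH)`: need `Nu A x (2^(i+1) κ + j) N`:
`2^(i+1) κ + j + 2^(i+1) κ ≤ k`. OK.
END: choose `i` with `M ≤ 2^i < 2 M` (e.g. `i = Nat.clog 2 M`), then `π^(2^i) = 0`, `h = N`, and `2^(i+1) κ ≤ 4 M κ ≤ k`, so
`Nu A x 0 N` and `cm x h = 0` (`Nu.cm_eq`). -/

open Finset Polynomial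

namespace Pool.Agent.SGP

theorem newton (R : Type) [CommRing R] (A : Finset ℕ) (h0 : 0 ∈ A) (x k κ M : ℕ) (π : R)
    (hπ : π^M = 0) (hM : 1 ≤ M) (hk : 4*M*κ ≤ k) (h S Z N₀ H₀ : R[X])
    (hS : Nu A x k S) (hSs : Su A κ S) (hZ : Su A κ Z) (e1 : h = S + Z * h^2)
    (hN : Nu A x k N₀) (hNs : Su A κ N₀) (hHs : Su A κ H₀) (e0 : h = N₀ + C π * H₀) :
    cm x h = 0 := by
  have key : ∀ i : ℕ, ∃ N H : R[X], h = N + C (π^(2^i)) * H ∧ Su A ((2^(i+1)-1)*κ) N ∧
      Su A ((2^(i+1)-1)*κ) H ∧ ∀ j, j + 2^(i+1)*κ ≤ k → Nu A x j N := by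
    intro i
    induction i with
    | zero =>
      refine ⟨N₀, H₀, by simpa using e0, by simpa using hNs, by simpa using hHs, ?_⟩
      intro j hj
      exact hN.mono h0 (by omega)
    | succ i ih =>
      obtain ⟨N, H, hN1, hN2, hN3, hN4⟩ := ih
      have hpow : 1 ≤ 2^(i+1) := Nat.one_le_two_pow
      have hpow2 : 2^(i+1+1) = 2 * 2^(i+1) := by rw [pow_succ]; ring
      have hsup1 : κ + (2^(i+1)-1)*κ = 2^(i+1)*κ := by
        obtain ⟨t, ht⟩ := Nat.exists_eq_add_of_le hpow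
        rw [ht]
        simp only [Nat.add_sub_cancel_left]
        ring
      have hsup2 : 2^(i+1)*κ + (2^(i+1)-1)*κ = (2^(i+1+1)-1)*κ := by
        rw [hpow2]
        obtain ⟨t, ht⟩ := Nat.exists_eq_add_of_le hpow
        rw [ht]
        have : 2 * (1 + t) - 1 = 1 + 2 * t := by omega
        rw [this]
        simp only [Nat.add_sub_cancel_left]
        ring
      set W : R[X] := N + (C (π^(2^i)) * H + C (π^(2^i)) * H) with hW
      have hWs : Su A ((2^(i+1)-1)*κ) W := hN2.add ((hN3.C_mul _).add (hN3.C_mul _))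
      have hZW : Su A (2^(i+1)*κ) (Z * W) := by
        rw [← hsup1]
        exact hZ.mul hWs
      refine ⟨S + (Z * W) * N, Z * (H * H), ?_, ?_, ?_, ?_⟩
      · have hp2 : C (π^(2^(i+1))) = C (π^(2^i)) * C (π^(2^i)) := by
          rw [← C_mul, ← pow_add]
          congr 2
          rw [pow_succ]
          ring
        rw [hp2, hW]
        calc h = S + Z * h^2 := e1
          _ = S + Z * (N + C (π^(2^i)) * H)^2 := by rw [← hN1]
          _ = _ := by ring
      · refine (hSs.mono h0 ?_).add ?_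
        · have : κ ≤ 2^(i+1)*κ := Nat.le_mul_of_pos_left _ (by omega)
          omega
        · rw [← hsup2]
          exact hZW.mul hN2
      · have := hZ.mul (hN3.mul hN3)
        rw [← add_assoc, hsup1, hsup2] at this
        exact this
      · intro j hj
        have hj2 : j + (2^(i+1)*κ + 2^(i+1)*κ) ≤ k := by
          have e : 2^(i+1+1)*κ = 2^(i+1)*κ + 2^(i+1)*κ := by rw [hpow2]; ring
          rw [← e]
          exact hj
        refine (hS.mono h0 (by omega)).add ?_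
        exact Nu.mul hZW (hN4 _ (by omega))
  obtain ⟨N, H, hN1, -, -, hN4⟩ := key (Nat.clog 2 M)
  have hM1 : M ≤ 2^(Nat.clog 2 M) := Nat.le_pow_clog (by norm_num) M
  have hM2 : 2^(Nat.clog 2 M) ≤ 2*M := by
    rcases Nat.lt_or_ge 1 M with h1 | h1
    · have h2 := Nat.pow_pred_clog_lt_self (b := 2) (by norm_num) h1
      have h3 : 0 < Nat.clog 2 M := Nat.clog_pos (by norm_num) h1
      have h4 : Nat.clog 2 M = (Nat.clog 2 M).pred + 1 := (Nat.succ_pred_eq_of_pos h3).symm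
      rw [h4, pow_succ]
      omega
    · have h5 : M = 1 := by omega
      subst h5
      simp
  have hz : π^(2^(Nat.clog 2 M)) = 0 := by
    obtain ⟨t, ht⟩ := Nat.exists_eq_add_of_le hM1
    rw [ht, pow_add, hπ, zero_mul]
  rw [hz, C_0, zero_mul, add_zero] at hN1
  rw [hN1]
  refine (hN4 0 ?_).cm_eq h0
  have e : 2^(Nat.clog 2 M + 1)*κ = 2 * (2^(Nat.clog 2 M) * κ) := by rw [pow_succ]; ring
  have e2 : 2^(Nat.clog 2 M) * κ ≤ 2*M*κ := Nat.mul_le_mul_right _ hM2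
  have e3 : 4*M*κ = 2*(2*M*κ) := by ring
  rw [zero_add, e]
  omega

end Pool.Agent.SGP
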