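import Pool.Agent.SGP.FrA
import Pool.Agent.SGP.FrB
import Pool.Agent.SGP.FrC

/-! # FRD (difficulty 3). The dilation relation modulo `p^M`.
`R = ZMod (p^M)`, `q = p^i`, `g = gq A v`, `ψ = expand R q g`, `h = ψ - g`, `P̄ = P.map`. Let `Q, W` be from `dvd_lift`, `c` from
`taylor_su`, `w` from `frob_lift`.
* `cm y (expand R q f) = cm (y/q) f` for every `f` (coefficients of `expand` at multiples of `q` only).
  `P̄.comp ψ = expand R q (P̄.comp g)` (`expand` is the composition with `X^q`, `comp_assoc`).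
  So the hypothesis gives `Nu A x (κ M) (P̄.comp g)` and `Nu A x (κ M) (P̄.comp ψ)`.
* (e0) `g^q - g = P̄.comp g * Q̄.comp g + C p * W̄.comp g` (compose `dvd_lift` with `g`), so
  `h = (g^q - g) - (g^q - ψ) = Q̄.comp g * P̄.comp g + C p * (W̄.comp g - w)`.
* (e1) `P̄.comp ψ = P̄.comp g + P̄'.comp g * h + h^2 U`; multiply by `Ū.comp g` (the `U` of Bezout, call it `G₁`) and use
  `G₁ P̄' + G₂ P̄ = D` (composed with `g`): `D h = G₁ (P̄.comp ψ - P̄.comp g - h^2 U) + G₂ (P̄.comp g) h`; `D` is a unit of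
  `R` (`¬ p ∣ D`), so `h = S + Z h^2`, `Z = -D⁻¹ G₁ U`, `S = D⁻¹ (G₁ (P̄.comp ψ - P̄.comp g) + G₂ h P̄.comp g)`.
* Supports: all of `g, ψ, h, w, ...` have support in `κ₀`-fold sums, `κ₀` a constant depending on `P, p, i, U, V` only
  (`su_gq`, `su_comp`, `Su.mul`, `ss_mul` for `ψ`). Null: `S`, `N₀` are `(κ M - κ₀)`-null (`Nu.mul`). Take `κ = 5 κ₀ + ...`
  so that `4 M κ₀ + κ₀ ≤ κ M`, and apply `newton` with `π = p`, `k = κ M - κ₀`, `p^M = 0` in `ZMod (p^M)`.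
* `cm x h = 0`, `cm x ψ = cm (x/q) g = pf A v (x/q)` (`cm_gq`), `cm x g = pf A v x`. -/

open Finset Polynomial

namespace Pool.Agent.SGP

theorem FrD_cm_expand {R : Type*} [CommRing R] (q : ℕ) (hq : 0 < q) (f : R[X]) (y : ℕ) :
    cm y (expand R q f) = cm (y/q) f := by
  unfold cm
  simp only [coeff_expand hq]
  rw [← Finset.sum_filter]
  refine Finset.sum_nbij' (fun s => s / q) (fun t => q * t) ?_ ?_ ?_ ?_ ?_
  · intro s hs
    rw [mem_filter, mem_range] at hs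
    rw [mem_range]
    have := Nat.div_le_div_right (c := q) (Nat.lt_succ_iff.1 hs.1)
    omega
  · intro t ht
    rw [mem_range] at ht
    rw [mem_filter, mem_range]
    refine ⟨?_, dvd_mul_right _ _⟩
    have h1 : t ≤ y / q := by omega
    have h2 : t * q ≤ y := (Nat.le_div_iff_mul_le hq).1 h1
    rw [mul_comm] at h2
    omega
  · intro s hs
    rw [mem_filter] at hs
    exact Nat.mul_div_cancel' hs.2
  · intro t _
    exact Nat.mul_div_cancel_left t hq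
  · intro s _
    rfl

theorem FrD_comp_expand {R : Type*} [CommRing R] (q : ℕ) (f g : R[X]) :
    f.comp (expand R q g) = expand R q (f.comp g) := by
  rw [expand_eq_comp_X_pow, expand_eq_comp_X_pow, comp_assoc]

theorem FrD_su_expand {R : Type*} [CommRing R] (A : Finset ℕ) (v : ℕ → R) (q : ℕ) (hq : 0 < q) :
    Su A q (expand R q (gq A v)) := by
  intro k hk
  rw [coeff_expand hq] at hk
  by_cases h : q ∣ k
  · rw [if_pos h, coeff_gq] at hk
    by_cases h' : k / q ∈ A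
    · have h1 := ss_mul A q (mem_ss_one A h')
      rw [mul_one, Nat.mul_div_cancel' h] at h1
      exact h1
    · rw [if_neg h'] at hk
      exact absurd rfl hk
  · rw [if_neg h] at hk
    exact absurd rfl hk

theorem FrD_unit (p M : ℕ) [Fact p.Prime] (D : ℤ) (hD : ¬ (p:ℤ) ∣ D) :
    ∃ D' : ZMod (p^M), D' * (D : ZMod (p^M)) = 1 := by
  have h1 : IsCoprime (p : ℤ) D :=
    (Prime.coprime_iff_not_dvd (Nat.prime_iff_prime_int.1 (Fact.out : p.Prime))).2 hD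
  have h2 : IsCoprime ((p^M : ℕ) : ℤ) D := by
    push_cast
    exact h1.pow_left
  have h3 : IsUnit ((D : ℤ) : ZMod (p^M)) := (ZMod.coe_int_isUnit_iff_isCoprime D (p^M)).2 h2
  obtain ⟨u, hu⟩ := h3
  refine ⟨(u⁻¹ : (ZMod (p^M))ˣ), ?_⟩
  rw [← hu]
  exact u.inv_mul

theorem frob_pp (P : ℤ[X]) (p i : ℕ) [Fact p.Prime]
    (hdvd : P.map (Int.castRingHom (ZMod p)) ∣ X^(p^i) - X)
    (U V : ℤ[X]) (D : ℤ) (hbez : U * derivative P + V * P = C D) (hD : ¬ (p:ℤ) ∣ D) :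
    ∃ κ : ℕ, ∀ (M : ℕ) (A : Finset ℕ) (v : ℕ → ZMod (p^M)) (x : ℕ), 1 ≤ M → 0 ∈ A →
      (∀ s ∈ ss A (κ*M), s ≤ x →
        cm (x - s) ((P.map (Int.castRingHom (ZMod (p^M)))).comp (gq A v)) = 0 ∧
        cm ((x - s)/p^i) ((P.map (Int.castRingHom (ZMod (p^M)))).comp (gq A v)) = 0) →
      pf A v (x/p^i) = pf A v x := by
  obtain ⟨Q, W, hQW⟩ := dvd_lift p i P hdvd
  obtain ⟨c, hc⟩ := taylor_su P
  have hq : 0 < p^i := pow_pos (Fact.out : p.Prime).pos i
  obtain ⟨κ₀, hκ₀⟩ : ∃ κ₀ : ℕ, κ₀ = Q.natDegree + P.natDegree + W.natDegree + p^i + U.natDegree +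
      c * p^i + P.natDegree * p^i + V.natDegree + p^i := ⟨_, rfl⟩
  refine ⟨5 * κ₀, fun M A v x hM h0 hx => ?_⟩
  obtain ⟨w, hw, hws⟩ := frob_lift p M i hM A v
  obtain ⟨D', hD'⟩ := FrD_unit p M D hD
  -- abbreviations
  obtain ⟨g, hg⟩ : ∃ g, g = gq A v := ⟨_, rfl⟩
  obtain ⟨ψ, hψ⟩ : ∃ ψ, ψ = expand (ZMod (p^M)) (p^i) g := ⟨_, rfl⟩
  obtain ⟨h, hh⟩ : ∃ h, h = ψ - g := ⟨_, rfl⟩
  rw [← hg] at hx hw
  rw [← hψ] at hw
  have hgs : Su A 1 g := by rw [hg]; exact su_gq v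
  have hgq : Su A (p^i) g := hgs.mono h0 hq
  have hψs : Su A (p^i) ψ := by rw [hψ, hg]; exact FrD_su_expand A v _ hq
  have hhs : Su A (p^i) h := by rw [hh]; exact hψs.sub hgq
  have hghψ : g + h = ψ := by rw [hh]; ring
  obtain ⟨U₁, hU₁s, hU₁⟩ := hc (ZMod (p^M)) A (p^i) g h h0 hgq hhs
  rw [hghψ] at hU₁
  obtain ⟨Pg, hPg⟩ : ∃ F, F = (P.map (Int.castRingHom (ZMod (p^M)))).comp g := ⟨_, rfl⟩
  obtain ⟨Pψ, hPψ⟩ : ∃ F, F = (P.map (Int.castRingHom (ZMod (p^M)))).comp ψ := ⟨_, rfl⟩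
  obtain ⟨P'g, hP'g⟩ : ∃ F, F = ((derivative P).map (Int.castRingHom (ZMod (p^M)))).comp g :=
    ⟨_, rfl⟩
  obtain ⟨Qg, hQg⟩ : ∃ F, F = (Q.map (Int.castRingHom (ZMod (p^M)))).comp g := ⟨_, rfl⟩
  obtain ⟨Wg, hWg⟩ : ∃ F, F = (W.map (Int.castRingHom (ZMod (p^M)))).comp g := ⟨_, rfl⟩
  obtain ⟨Ug, hUg⟩ : ∃ F, F = (U.map (Int.castRingHom (ZMod (p^M)))).comp g := ⟨_, rfl⟩
  obtain ⟨Vg, hVg⟩ : ∃ F, F = (V.map (Int.castRingHom (ZMod (p^M)))).comp g := ⟨_, rfl⟩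
  rw [← hPg, ← hP'g, ← hPψ] at hU₁
  -- supports
  have hsup : ∀ (F : ℤ[X]) (u : (ZMod (p^M))[X]) (j : ℕ), Su A j u →
      Su A (F.natDegree * j) ((F.map (Int.castRingHom (ZMod (p^M)))).comp u) := fun F u j hu =>
    su_comp h0 _ natDegree_map_le hu
  have sPg : Su A P.natDegree Pg := by
    rw [hPg]; have := hsup P g 1 hgs; rwa [mul_one] at this
  have sPψ : Su A (P.natDegree * p^i) Pψ := by rw [hPψ]; exact hsup P ψ _ hψs
  have sQg : Su A Q.natDegree Qg := by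
    rw [hQg]; have := hsup Q g 1 hgs; rwa [mul_one] at this
  have sWg : Su A W.natDegree Wg := by
    rw [hWg]; have := hsup W g 1 hgs; rwa [mul_one] at this
  have sUg : Su A U.natDegree Ug := by
    rw [hUg]; have := hsup U g 1 hgs; rwa [mul_one] at this
  have sVg : Su A V.natDegree Vg := by
    rw [hVg]; have := hsup V g 1 hgs; rwa [mul_one] at this
  -- null
  have nPg : Nu A x (5 * κ₀ * M) Pg := by
    intro s hs hsx
    rw [hPg]
    exact (hx s hs hsx).1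
  have nPψ : Nu A x (5 * κ₀ * M) Pψ := by
    intro s hs hsx
    rw [hPψ, hψ, FrD_comp_expand, FrD_cm_expand _ hq]
    exact (hx s hs hsx).2
  -- `e0`
  have e0' : g^(p^i) - g = Pg * Qg + C (p : ZMod (p^M)) * Wg := by
    have h1 := congrArg (fun F : ℤ[X] => (F.map (Int.castRingHom (ZMod (p^M)))).comp g) hQW
    simp only [Polynomial.map_sub, Polynomial.map_pow, map_X, Polynomial.map_mul,
      Polynomial.map_add, map_C, sub_comp, pow_comp, X_comp, mul_comp, add_comp, C_comp] at h1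
    rw [← hPg, ← hQg, ← hWg] at h1
    rw [h1]
    simp
  have e0 : h = Qg * Pg + C (p : ZMod (p^M)) * (Wg - w) := by
    have h1 : h = (g^(p^i) - g) - (g^(p^i) - ψ) := by rw [hh]; ring
    rw [h1, e0', hw]
    ring
  have hbez' : Ug * P'g + Vg * Pg = C (D : ZMod (p^M)) := by
    have h1 := congrArg (fun F : ℤ[X] => (F.map (Int.castRingHom (ZMod (p^M)))).comp g) hbez
    simp only [Polynomial.map_mul, Polynomial.map_add, map_C, mul_comp, add_comp, C_comp] at h1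
    rw [← hPg, ← hP'g, ← hUg, ← hVg] at h1
    rw [h1]
    simp
  have e1 : h = (C D' * (Ug * (Pψ - Pg) + (Vg * h) * Pg)) + (-(C D' * (Ug * U₁))) * h^2 := by
    have h1 : C D' * C (D : ZMod (p^M)) = 1 := by
      rw [← C_mul, hD', C_1]
    have h2 : h = C D' * C (D : ZMod (p^M)) * h := by rw [h1, one_mul]
    have h3 : Pψ - Pg = P'g * h + h^2 * U₁ := by rw [hU₁]; ring
    rw [h3]
    calc h = C D' * C (D : ZMod (p^M)) * h := h2
      _ = C D' * (Ug * P'g + Vg * Pg) * h := by rw [hbez']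
      _ = _ := by ring
  have hκM : 4 * M * κ₀ + κ₀ ≤ 5 * κ₀ * M := by nlinarith
  have hpc : c * p^i ≤ κ₀ := by omega
  have key := newton (ZMod (p^M)) A h0 x (4*M*κ₀) κ₀ M (p : ZMod (p^M)) (by
      rw [← Nat.cast_pow]
      exact ZMod.natCast_self _) hM le_rfl h
    (C D' * (Ug * (Pψ - Pg) + (Vg * h) * Pg)) (-(C D' * (Ug * U₁))) (Qg * Pg) (Wg - w)
    (by
      refine Nu.C_mul _ (Nu.add ?_ ?_)
      · refine Nu.mul (sUg.mono (j := κ₀) h0 (by omega)) ?_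
        exact (nPψ.sub nPg).mono h0 (by omega)
      · refine Nu.mul ((sVg.mul hhs).mono (j := κ₀) h0 (by omega)) ?_
        exact nPg.mono h0 (by omega))
    (by
      refine Su.C_mul _ (Su.add ?_ ?_)
      · refine (sUg.mul ((sPψ.mono (j := P.natDegree * p^i + P.natDegree) h0 (by omega)).sub
          (sPg.mono h0 (by omega)))).mono h0 ?_
        omega
      · refine ((sVg.mul hhs).mul sPg).mono h0 ?_
        omega)
    (by
      refine Su.neg (Su.C_mul _ ((sUg.mul hU₁s).mono h0 ?_))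
      omega)
    e1
    (by
      refine Nu.mul (sQg.mono (j := κ₀) h0 (by omega)) ?_
      exact nPg.mono h0 (by omega))
    (by
      refine (sQg.mul sPg).mono h0 ?_
      omega)
    (by
      refine Su.sub (sWg.mono h0 ?_) (hws.mono h0 ?_)
      · omega
      · omega)
    e0
  rw [hh, cm_sub, hψ, FrD_cm_expand _ hq, hg, cm_gq, cm_gq, sub_eq_zero] at key
  exact key

end Pool.Agent.SGP
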