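import Pool.Agent.SGP.ExMod
import Pool.Agent.SGP.FrD

/-! # DIL (difficulty 2). The dilation relation at generic points. `q = p^i`, `d = natDegree P`, `A = EE e n`.
Let `κ₁` be from `frob_pp`, `C` from `exact_mod`. Take `κ = κ₁ + q d + d + q + C + 1` (or larger).
For `s ∈ ss A (κ₁ M)`, `s ≤ x`:
* `cm (x-s) = 0` by `exact_mod` with `R = x - s`: if `s' ∈ ss A d`, `x - s < s' ≤ x - s + Λ`, then
  `σ = s + s' ∈ ss A (κ₁ M + d) ⊆ ss A K` and `x < σ ≤ x + Λ < x + w`: contradiction to `Gen`.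
* `cm ((x-s)/q) = 0` with `R = (x-s)/q`: if `s' ∈ ss A d`, `R < s' ≤ R + Λ`, then `q s' ≥ q (R+1) > x - s` and
  `q s' ≤ q R + q Λ ≤ x - s + q Λ`, so `σ = s + q s' ∈ ss A (κ₁ M + q d) ⊆ ss A K` (`ss_mul`, `ss_add`) has
  `x < σ ≤ x + q Λ < x + w`, contradiction.
(`κ ((n+1) B)^κ < b^Λ` gives `C ((n+1) B)^d < b^Λ` since `(n+1) B ≥ 1`: `B ≥ 1` as `e 0 ≠ 0`.) `b` is prime to `p^M`. -/

open Finset Polynomial

namespace Pool.Agent.SGP

theorem dil (b : ℕ) (hb : 2 ≤ b) (P : ℤ[X]) (hP : 1 ≤ P.natDegree) (α : ℝ) (hα : aeval α P = 0)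
    (p i : ℕ) (hp : p.Prime) (hpb : ¬ p ∣ b)
    (hdvd : P.map (Int.castRingHom (ZMod p)) ∣ X^(p^i) - X)
    (U V : ℤ[X]) (D : ℤ) (hbez : U * derivative P + V * P = C D) (hD : ¬ (p:ℤ) ∣ D) :
    ∃ κ : ℕ, ∀ (M B n Λ K w x : ℕ) (e : ℕ → ℤ), 1 ≤ M → Dig b B n α e →
      κ * ((n+1)*B)^κ < b^Λ → κ*M ≤ K → κ*(Λ+1) ≤ w → x + w ≤ n → Gen (EE e n) K w x →
      pf (EE e n) (vM b e (p^M)) (x/p^i) = pf (EE e n) (vM b e (p^M)) x := by
  have : Fact p.Prime := ⟨hp⟩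
  obtain ⟨κ₁, hκ₁⟩ := frob_pp P p i hdvd U V D hbez hD
  obtain ⟨Cc, hCc⟩ := exact_mod b hb P hP α hα
  set d := P.natDegree with hd
  set q := p^i with hq
  have hq1 : 1 ≤ q := Nat.one_le_pow _ _ hp.pos
  refine ⟨κ₁ + q*d + d + q + Cc + 1, ?_⟩
  intro M B n Λ K w x e hM hD' hpow hK hw hxn hGen
  set κ := κ₁ + q*d + d + q + Cc + 1 with hκ
  have hcop : Nat.Coprime b (p^M) := by
    apply Nat.Coprime.pow_right
    exact ((Nat.Prime.coprime_iff_not_dvd hp).2 hpb).symm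
  have h0A : 0 ∈ EE e n := mem_EE.2 ⟨Nat.zero_le _, hD'.zero⟩
  have hB : 1 ≤ B := by
    have h1 := hD'.bd 0 (Nat.zero_le _)
    have h2 : 1 ≤ |e 0| := Int.one_le_abs hD'.zero
    have h3 : (1 : ℤ) ≤ (B : ℤ) := le_trans h2 h1
    exact_mod_cast h3
  have hnB : 1 ≤ (n+1)*B := Nat.one_le_iff_ne_zero.2 (by positivity)
  have hΛ : Cc * ((n+1)*B)^d < b^Λ := by
    refine lt_of_le_of_lt ?_ hpow
    apply Nat.mul_le_mul (by omega)
    exact Nat.pow_le_pow_right hnB (by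
      have : d ≤ κ := by omega
      exact this)
  have hK1 : κ₁*M + d ≤ K := by
    refine le_trans ?_ hK
    have h5 : κ*M = κ₁*M + (q*d + d + q + Cc + 1)*M := by rw [hκ]; ring
    rw [h5]
    have h6 : (q*d + d + q + Cc + 1) ≤ (q*d + d + q + Cc + 1)*M := Nat.le_mul_of_pos_right _ hM
    omega
  have hK2 : κ₁*M + q*d ≤ K := by
    refine le_trans ?_ hK
    have h5 : κ*M = κ₁*M + (q*d + d + q + Cc + 1)*M := by rw [hκ]; ring
    rw [h5]
    have h6 : (q*d + d + q + Cc + 1) ≤ (q*d + d + q + Cc + 1)*M := Nat.le_mul_of_pos_right _ hM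
    omega
  have hw1 : q*Λ < w := by
    have h7 : q*(Λ+1) ≤ κ*(Λ+1) := Nat.mul_le_mul_right _ (by omega)
    have h8 : q*(Λ+1) = q*Λ + q := by ring
    omega
  have hΛw : Λ ≤ q*Λ := Nat.le_mul_of_pos_left _ hq1
  apply hκ₁ M (EE e n) (vM b e (p^M)) x hM h0A
  intro s hs hsx
  constructor
  · apply hCc (p^M) hcop B n Λ (x-s) e hD' (by omega) hΛ
    rintro s' hs' ⟨h9, h10⟩
    have h11 := ss_le (EE e n) h0A hK1 (ss_add (EE e n) hs hs')
    rcases hGen _ h11 with h12 | h12 <;> omega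
  · have hdiv : (x-s)/q ≤ x - s := Nat.div_le_self _ _
    apply hCc (p^M) hcop B n Λ ((x-s)/q) e hD' (by omega) hΛ
    rintro s' hs' ⟨h9, h10⟩
    have h11 := ss_le (EE e n) h0A hK2 (ss_add (EE e n) hs (ss_mul (EE e n) q hs'))
    have h13 : x - s < q * s' := by
      have h14 : x - s < q * ((x-s)/q + 1) := Nat.lt_mul_div_succ _ (by omega)
      exact lt_of_lt_of_le h14 (Nat.mul_le_mul_left _ h9)
    have h15 : q * s' ≤ x - s + q*Λ := by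
      calc q * s' ≤ q * ((x-s)/q + Λ) := Nat.mul_le_mul_left _ h10
        _ = q * ((x-s)/q) + q*Λ := by ring
        _ ≤ x - s + q*Λ := Nat.add_le_add_right (Nat.mul_div_le _ _) _
    rcases hGen _ h11 with h12 | h12 <;> omega

end Pool.Agent.SGP
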