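import Pool.Agent.SGP.Exact

/-! # EXMOD (difficulty 1). Exactness modulo `m`, `b` prime to `m`. Adapt the following proof (same statement for
`m = p` prime, from `AlgD/ExDig.lean`); the only changes: `vM b e m` instead of `vb`, `ZMod.coe_mul_inv_eq_one`
(`(b : ZMod m) * (b : ZMod m)⁻¹ = 1` as `Nat.Coprime b m`) instead of `inv_mul_cancel₀ hb0`.
```
lemma ExDig_gp (b : ℕ) (p : ℕ) [Fact p.Prime] (N : ℕ) (e : ℕ → ℤ) :
    gp (EE e N) (vb b e p) =
      ((∑ k ∈ range (N+1), Polynomial.C (e k) * X^k : ℤ[X]).map (Int.castRingHom (ZMod p))).comp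
        (Polynomial.C ((b : ZMod p)⁻¹) * X) := by
  ext s
  rw [coeff_gp, Polynomial.comp_C_mul_X_coeff, Polynomial.coeff_map, Polynomial.finsetSum_coeff]
  have h1 : ∑ k ∈ range (N+1), (Polynomial.C (e k) * X^k : ℤ[X]).coeff s
      = if s ∈ range (N+1) then e s else 0 := by
    simp only [Polynomial.coeff_C_mul_X_pow]
    rw [Finset.sum_ite_eq]
  rw [h1]
  unfold vb EE
  by_cases hs : s ∈ range (N+1)
  · rw [if_pos hs]
    by_cases he : e s = 0
    · rw [if_neg (by simp [he]), he]; simp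
    · rw [if_pos (Finset.mem_filter.2 ⟨hs, he⟩)]; simp
  · rw [if_neg hs, if_neg (fun h => hs (Finset.mem_filter.1 h).1)]; simp
-- main part:
    rw [ExDig_gp, ← Polynomial.comp_assoc, ← Polynomial.map_comp]
    set c := P.comp (∑ k ∈ range (N+1), Polynomial.C (e k) * X^k) with hc
    unfold cum
    have h2 : ∑ s ∈ range (R+1), ((c.map (Int.castRingHom (ZMod p))).comp
        (Polynomial.C ((b : ZMod p)⁻¹) * X)).coeff s
        = ((b : ZMod p)⁻¹)^R * (((∑ s ∈ range (R+1), c.coeff s * (b:ℤ)^(R-s) : ℤ)) : ZMod p) := by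
      push_cast
      rw [Finset.mul_sum]
      refine Finset.sum_congr rfl fun s hs => ?_
      have hle : s ≤ R := by
        have := Finset.mem_range.1 hs
        omega
      rw [Polynomial.comp_C_mul_X_coeff, Polynomial.coeff_map]
      have h3 : ((b : ZMod p)⁻¹)^R = ((b : ZMod p)⁻¹)^(R-s) * ((b : ZMod p)⁻¹)^s := by
        rw [← pow_add]; congr 1; omega
      have h4 : ((b : ZMod p)⁻¹)^(R-s) * (b : ZMod p)^(R-s) = 1 := by
        rw [← mul_pow, inv_mul_cancel₀ hb0, one_pow]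
      rw [h3]
      simp only [eq_intCast]
      linear_combination (-((c.coeff s : ℤ) : ZMod p) * ((b : ZMod p)⁻¹)^s) * h4
    rw [h2, h1]   -- h1 = exactB (here `exactB` of `Exact.lean`)
    simp
``` -/

open Finset Polynomial

namespace Pool.Agent.SGP

lemma ExMod_gq (b m N : ℕ) (e : ℕ → ℤ) :
    gq (EE e N) (vM b e m) =
      ((∑ k ∈ range (N+1), Polynomial.C (e k) * X^k : ℤ[X]).map (Int.castRingHom (ZMod m))).comp
        (Polynomial.C ((b : ZMod m)⁻¹) * X) := by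
  ext s
  rw [coeff_gq, Polynomial.comp_C_mul_X_coeff, Polynomial.coeff_map, Polynomial.finsetSum_coeff]
  have h1 : ∑ k ∈ range (N+1), (Polynomial.C (e k) * X^k : ℤ[X]).coeff s
      = if s ∈ range (N+1) then e s else 0 := by
    simp only [Polynomial.coeff_C_mul_X_pow]
    rw [Finset.sum_ite_eq]
  rw [h1]
  unfold vM EE
  by_cases hs : s ∈ range (N+1)
  · rw [if_pos hs]
    by_cases he : e s = 0
    · rw [if_neg (by simp [he]), he]; simp
    · rw [if_pos (Finset.mem_filter.2 ⟨hs, he⟩)]; simp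
  · rw [if_neg hs, if_neg (fun h => hs (Finset.mem_filter.1 h).1)]; simp

theorem exact_mod (b : ℕ) (hb : 2 ≤ b) (P : ℤ[X]) (hP : 1 ≤ P.natDegree) (α : ℝ)
    (hα : aeval α P = 0) :
    ∃ C : ℕ, ∀ (m : ℕ), Nat.Coprime b m → ∀ (B n Λ R : ℕ) (e : ℕ → ℤ), Dig b B n α e →
      R + Λ ≤ n → C * ((n+1) * B)^P.natDegree < b^Λ →
      (∀ s ∈ ss (EE e n) P.natDegree, ¬ (R < s ∧ s ≤ R + Λ)) →
      cm R ((P.map (Int.castRingHom (ZMod m))).comp (gq (EE e n) (vM b e m))) = 0 := by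
  obtain ⟨C, hC⟩ := exactB b hb P hP α hα
  refine ⟨C, ?_⟩
  intro m hm B n Λ R e hd hR hL hs
  have h1 := hC B n Λ R e hd hR hL hs
  have hb0 : (b : ZMod m) * ((b : ZMod m)⁻¹) = 1 := ZMod.coe_mul_inv_eq_one b hm
  rw [ExMod_gq, ← Polynomial.comp_assoc, ← Polynomial.map_comp]
  set c := P.comp (∑ k ∈ range (n+1), Polynomial.C (e k) * X^k) with hc
  unfold cm
  have h2 : ∑ s ∈ range (R+1), ((c.map (Int.castRingHom (ZMod m))).comp
      (Polynomial.C ((b : ZMod m)⁻¹) * X)).coeff s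
      = ((b : ZMod m)⁻¹)^R * (((∑ s ∈ range (R+1), c.coeff s * (b:ℤ)^(R-s) : ℤ)) : ZMod m) := by
    push_cast
    rw [Finset.mul_sum]
    refine Finset.sum_congr rfl fun s hs => ?_
    have hle : s ≤ R := by
      have := Finset.mem_range.1 hs
      omega
    rw [Polynomial.comp_C_mul_X_coeff, Polynomial.coeff_map]
    have h3 : ((b : ZMod m)⁻¹)^R = ((b : ZMod m)⁻¹)^(R-s) * ((b : ZMod m)⁻¹)^s := by
      rw [← pow_add]; congr 1; omega
    have h4 : ((b : ZMod m)⁻¹)^(R-s) * (b : ZMod m)^(R-s) = 1 := by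
      rw [← mul_pow, mul_comm, hb0, one_pow]
    rw [h3]
    simp only [eq_intCast]
    linear_combination (-((c.coeff s : ℤ) : ZMod m) * ((b : ZMod m)⁻¹)^s) * h4
  rw [h2, h1]
  simp

end Pool.Agent.SGP
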