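import Pool.Agent.SGP.Defs

/-! # EXACTB. Exactness over the integers, base `b`.
Let `g = Σ_{k ≤ N} e_k X^k ∈ ℤ[X]`, `c_s = (P.comp g).coeff s`, `α_N = g(1/b) = Σ_{k ≤ N} e_k b^(-k)`,
`|α_N - α| ≤ Bn / b^N`. Then `P(α_N) = Σ_s c_s b^(-s)` (finite sum, `s ≤ d N`).
* `|P(α_N)| = |P(α_N) - P(α)| ≤ C₁ Bn / b^N` as `Bn ≤ b^Λ ≤ b^N` (`|α_N - α| ≤ 1`; `P` is Lipschitz on
  `[α-1, α+1]`).
* `|c_s| ≤ C₂ ((N+1) Bn)^d` (the coefficients of `g^i` are `≤ (Σ |e_k|)^i ≤ ((N+1) Bn)^i`; `Bn ≥ 1`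
  because `e_0 ≠ 0`).
* `c_s = 0` for `R < s ≤ R+Λ` (no `d`-fold sums: `(g^i).coeff s ≠ 0 → s ∈ ss (EE e N) i ⊆ ss (EE e N) d`,
  `i ≤ d`, as in `coeff_gp_pow`, `0 ∈ EE e N`).
* `|Σ_{s ≤ R} c_s b^(R-s)| ≤ b^R (C₁ Bn b^(-N) + Σ_{s > R+Λ} C₂ ((N+1)Bn)^d b^(-s)) ≤
  (C₁ Bn + C₂ ((N+1)Bn)^d) b^(-Λ) < 1`, and the left side is an integer. -/

open Finset Polynomial

namespace Pool.Agent.SGP


theorem exb_coeff_mul (e : ℕ → ℤ) (Bn N : ℕ) (he : ∀ k ≤ N, |e k| ≤ Bn) (f : ℤ[X]) (L : ℤ)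
    (hf : ∀ t, |f.coeff t| ≤ L) (s : ℕ) :
    |((∑ k ∈ range (N+1), Polynomial.C (e k) * X^k) * f).coeff s| ≤ ((N+1) * Bn : ℕ) * L := by
  have hL : 0 ≤ L := (abs_nonneg _).trans (hf 0)
  rw [Finset.sum_mul, finsetSum_coeff]
  refine (Finset.abs_sum_le_sum_abs _ _).trans ?_
  have h1 : ∀ k ∈ range (N+1), |(Polynomial.C (e k) * X^k * f).coeff s| ≤ (Bn : ℤ) * L := by
    intro k hk
    rw [mul_assoc, coeff_C_mul, coeff_X_pow_mul', abs_mul]
    have hk' : k ≤ N := by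
      have := Finset.mem_range.1 hk
      omega
    refine mul_le_mul (he k hk') ?_ (abs_nonneg _) (by positivity)
    split_ifs
    · exact hf _
    · rw [abs_zero]; exact hL
  refine (Finset.sum_le_sum h1).trans (le_of_eq ?_)
  rw [Finset.sum_const, Finset.card_range, nsmul_eq_mul]
  push_cast
  ring

theorem exb_coeff_pow (e : ℕ → ℤ) (Bn N : ℕ) (he : ∀ k ≤ N, |e k| ≤ Bn) (i : ℕ) :
    ∀ s, |((∑ k ∈ range (N+1), Polynomial.C (e k) * X^k) ^ i).coeff s| ≤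
      (((N+1) * Bn : ℕ) : ℤ) ^ i := by
  induction i with
  | zero =>
    intro s
    rw [pow_zero, pow_zero, coeff_one]
    split_ifs <;> simp
  | succ i ih =>
    intro s
    rw [pow_succ', pow_succ']
    exact exb_coeff_mul e Bn N he _ _ ih s

theorem exb_comp_coeff (P g : ℤ[X]) (s : ℕ) :
    (P.comp g).coeff s = ∑ i ∈ range (P.natDegree + 1), P.coeff i * (g ^ i).coeff s := by
  rw [Polynomial.comp, eval₂_eq_sum_range, finsetSum_coeff]
  exact Finset.sum_congr rfl (fun i _ => coeff_C_mul _)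

theorem exb_map (e : ℕ → ℤ) (N : ℕ) :
    (∑ k ∈ range (N+1), Polynomial.C (e k) * X^k : ℤ[X]).map (Int.castRingHom ℝ) =
      gq (EE e N) (fun k => (e k : ℝ)) := by
  unfold gq EE
  rw [Polynomial.map_sum, Finset.sum_filter]
  refine Finset.sum_congr rfl (fun k _ => ?_)
  rw [Polynomial.map_mul, map_C, Polynomial.map_pow, map_X]
  split_ifs with h
  · rfl
  · push Not at h
    rw [h]
    simp

theorem exb_pow_mem (e : ℕ → ℤ) (N i s : ℕ)
    (h : ((∑ k ∈ range (N+1), Polynomial.C (e k) * X^k : ℤ[X]) ^ i).coeff s ≠ 0) :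
    s ∈ ss (EE e N) i := by
  have hs0 : Su (EE e N) (i*1) ((gq (EE e N) (fun k => (e k : ℝ)))^i) := (su_gq _).pow i
  rw [mul_one] at hs0
  apply hs0
  rw [← exb_map, ← Polynomial.map_pow, coeff_map]
  intro h0
  apply h
  rw [eq_intCast] at h0
  exact_mod_cast h0

theorem exb_geom (b : ℕ) (hb : 2 ≤ b) (m n : ℕ) :
    ∑ s ∈ Ico (m + 1) n, ((b : ℝ)⁻¹) ^ s ≤ ((b : ℝ)⁻¹) ^ m := by
  have hb' : (2 : ℝ) ≤ b := by exact_mod_cast hb
  have hx0 : (0 : ℝ) < (b : ℝ)⁻¹ := by positivity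
  have hx : (b : ℝ)⁻¹ ≤ 2⁻¹ := inv_anti₀ (by norm_num) hb'
  have key : ∀ n, ∑ s ∈ Ico (m + 1) (m + 1 + n), ((b : ℝ)⁻¹) ^ s ≤
      ((b : ℝ)⁻¹) ^ m - ((b : ℝ)⁻¹) ^ (m + n) := by
    intro n
    induction n with
    | zero => simp
    | succ n ih =>
      rw [← add_assoc, Finset.sum_Ico_succ_top (by omega)]
      have e1 : ((b : ℝ)⁻¹) ^ (m + 1 + n) = (b : ℝ)⁻¹ * ((b : ℝ)⁻¹) ^ (m + n) := by
        rw [← pow_succ']; congr 1; omega
      have e2 : ((b : ℝ)⁻¹) ^ (m + (n + 1)) = (b : ℝ)⁻¹ * ((b : ℝ)⁻¹) ^ (m + n) := by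
        rw [← pow_succ']; congr 1
      have e3 : 0 ≤ ((b : ℝ)⁻¹) ^ (m + n) := by positivity
      rw [e1, e2]
      nlinarith
  by_cases h : m + 1 ≤ n
  · obtain ⟨k, rfl⟩ := Nat.exists_eq_add_of_le h
    have h1 := key k
    have h2 : 0 ≤ ((b : ℝ)⁻¹) ^ (m + k) := by positivity
    linarith
  · rw [Finset.Ico_eq_empty (by omega), Finset.sum_empty]
    positivity

theorem exactB (b : ℕ) (hb : 2 ≤ b) (P : ℤ[X]) (hP : 1 ≤ P.natDegree) (α : ℝ)
    (hα : aeval α P = 0) :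
    ∃ C : ℕ, ∀ (Bn N Λ R : ℕ) (e : ℕ → ℤ), Dig b Bn N α e → R + Λ ≤ N →
      C * ((N+1) * Bn)^P.natDegree < b^Λ →
      (∀ s ∈ ss (EE e N) P.natDegree, ¬ (R < s ∧ s ≤ R + Λ)) →
      ∑ s ∈ range (R+1), (P.comp (∑ k ∈ range (N+1), Polynomial.C (e k) * X^k)).coeff s * (b:ℤ)^(R-s) = 0 := by
  classical
  -- Lipschitz constant
  have haev : ∀ x : ℝ, aeval x P = (P.map (Int.castRingHom ℝ)).eval x := by
    intro x
    rw [← algebraMap_int_eq, eval_map_algebraMap]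
  obtain ⟨Q, hQ⟩ : (X - C α) ∣ P.map (Int.castRingHom ℝ) := by
    rw [dvd_iff_isRoot]
    change (P.map (Int.castRingHom ℝ)).eval α = 0
    rw [← haev, hα]
  obtain ⟨C1, hC1⟩ := (isCompact_Icc (a := α - 1) (b := α + 1)).exists_bound_of_continuousOn
    (f := fun x => Q.eval x) Q.continuous.continuousOn
  have hLip : ∀ x, |x - α| ≤ 1 → |aeval x P| ≤ (⌈|C1|⌉₊ : ℝ) * |x - α| := by
    intro x hx
    rw [haev, hQ, eval_mul, eval_sub, eval_X, eval_C, abs_mul, mul_comm]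
    refine mul_le_mul_of_nonneg_right ?_ (abs_nonneg _)
    rw [abs_le] at hx
    have h1 := hC1 x ⟨by linarith [hx.1], by linarith [hx.2]⟩
    rw [Real.norm_eq_abs] at h1
    exact h1.trans ((le_abs_self C1).trans (Nat.le_ceil _))
  set d := P.natDegree with hd
  let C2 : ℕ := ∑ i ∈ range (d+1), (P.coeff i).natAbs
  refine ⟨⌈|C1|⌉₊ + C2 + 1, ?_⟩
  intro Bn N Λ R e hD hRN hC hss
  set g : ℤ[X] := ∑ k ∈ range (N+1), Polynomial.C (e k) * X^k with hg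
  have hBn : 1 ≤ Bn := by
    have h1 := hD.bd 0 (Nat.zero_le _)
    have h2 : 0 < |e 0| := abs_pos.2 hD.zero
    omega
  set M := (N+1) * Bn with hM
  have hM1 : 1 ≤ M := Nat.mul_pos (by omega) hBn
  have hMB : Bn ≤ M := by
    rw [hM]
    exact Nat.le_mul_of_pos_left _ (by omega)
  have hMd : M ≤ M ^ d := by
    calc M = M ^ 1 := (pow_one M).symm
      _ ≤ M ^ d := Nat.pow_le_pow_right hM1 hP
  -- coefficient bound
  have hcs : ∀ s, |((P.comp g).coeff s : ℤ)| ≤ (C2 : ℤ) * (M : ℤ) ^ d := by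
    intro s
    rw [exb_comp_coeff]
    refine (Finset.abs_sum_le_sum_abs _ _).trans ?_
    have h1 : ∀ i ∈ range (d + 1), |P.coeff i * (g ^ i).coeff s| ≤
        ((P.coeff i).natAbs : ℤ) * (M : ℤ) ^ d := by
      intro i hi
      rw [abs_mul, Int.abs_eq_natAbs (P.coeff i)]
      refine mul_le_mul_of_nonneg_left ?_ (by positivity)
      refine (exb_coeff_pow e Bn N hD.bd i s).trans ?_
      have hi' : i ≤ d := by
        have := Finset.mem_range.1 hi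
        omega
      exact pow_le_pow_right₀ (by exact_mod_cast hM1) hi'
    refine (Finset.sum_le_sum h1).trans (le_of_eq ?_)
    rw [← Finset.sum_mul]
    simp only [C2]
    push_cast
    rfl
  -- vanishing
  have h0E : 0 ∈ EE e N := by
    unfold EE
    rw [Finset.mem_filter, Finset.mem_range]
    exact ⟨by omega, hD.zero⟩
  have hz : ∀ s, R < s → s ≤ R + Λ → (P.comp g).coeff s = 0 := by
    intro s h1 h2
    rw [exb_comp_coeff]
    refine Finset.sum_eq_zero (fun i hi => ?_)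
    by_contra hne
    have h3 : (g ^ i).coeff s ≠ 0 := fun h => hne (by rw [h, mul_zero])
    have h4 := exb_pow_mem e N i s h3
    have hi' : i ≤ d := by
      have := Finset.mem_range.1 hi
      omega
    exact hss s (ss_le _ h0E hi' h4) ⟨h1, h2⟩
  -- real evaluation
  have hb0 : (0 : ℝ) < b := by
    have : (2 : ℝ) ≤ b := by exact_mod_cast hb
    linarith
  set y : ℝ := (b : ℝ)⁻¹ with hy
  have hy0 : 0 < y := by positivity
  set x : ℝ := ∑ k ∈ range (N+1), (e k : ℝ) / (b : ℝ)^k with hx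
  have hgx : aeval y g = x := by
    rw [hg, hx, map_sum]
    refine Finset.sum_congr rfl (fun k _ => ?_)
    rw [map_mul, aeval_C, map_pow, aeval_X, hy, inv_pow, div_eq_mul_inv]
    rfl
  have hPx : aeval x P = ((P.comp g).map (Int.castRingHom ℝ)).eval y := by
    rw [← hgx, ← aeval_comp, ← algebraMap_int_eq, eval_map_algebraMap]
  set W : ℕ := max ((P.comp g).natDegree + 1) (R + Λ + 1) with hW
  have hWd : ((P.comp g).map (Int.castRingHom ℝ)).natDegree < W := by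
    have h1 := natDegree_map_le (f := Int.castRingHom ℝ) (p := P.comp g)
    have h2 : (P.comp g).natDegree + 1 ≤ W := le_max_left _ _
    omega
  have hWR : R + Λ + 1 ≤ W := le_max_right _ _
  have hsum : aeval x P = ∑ s ∈ range W, ((P.comp g).coeff s : ℝ) * y ^ s := by
    rw [hPx, eval_eq_sum_range' hWd]
    refine Finset.sum_congr rfl (fun s _ => ?_)
    rw [coeff_map]
    rfl
  have hsplit : ∑ s ∈ range W, ((P.comp g).coeff s : ℝ) * y ^ s =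
      ∑ s ∈ range (R+1), ((P.comp g).coeff s : ℝ) * y ^ s +
      ∑ s ∈ Ico (R + Λ + 1) W, ((P.comp g).coeff s : ℝ) * y ^ s := by
    rw [← Finset.sum_range_add_sum_Ico _ hWR, ← Finset.sum_range_add_sum_Ico (m := R + 1)
      (n := R + Λ + 1) _ (by omega)]
    have h1 : ∑ s ∈ Ico (R + 1) (R + Λ + 1), ((P.comp g).coeff s : ℝ) * y ^ s = 0 := by
      refine Finset.sum_eq_zero (fun s hs => ?_)
      rw [Finset.mem_Ico] at hs
      rw [hz s (by omega) (by omega)]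
      simp
    rw [h1, add_zero]
  -- the tail
  have htail : |∑ s ∈ Ico (R + Λ + 1) W, ((P.comp g).coeff s : ℝ) * y ^ s| ≤
      (C2 : ℝ) * (M : ℝ) ^ d * y ^ (R + Λ) := by
    refine (Finset.abs_sum_le_sum_abs _ _).trans ?_
    have h1 : ∀ s ∈ Ico (R + Λ + 1) W, |((P.comp g).coeff s : ℝ) * y ^ s| ≤
        (C2 : ℝ) * (M : ℝ) ^ d * y ^ s := by
      intro s _
      rw [abs_mul, abs_of_pos (pow_pos hy0 s)]
      refine mul_le_mul_of_nonneg_right ?_ (by positivity)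
      have := hcs s
      exact_mod_cast this
    refine (Finset.sum_le_sum h1).trans ?_
    rw [← Finset.mul_sum]
    exact mul_le_mul_of_nonneg_left (exb_geom b hb (R + Λ) W) (by positivity)
  -- the value
  have hbN : (b : ℝ) ^ Λ ≤ (b : ℝ) ^ N :=
    pow_le_pow_right₀ (by exact_mod_cast (by omega : 1 ≤ b)) (by omega)
  have hC' : (⌈|C1|⌉₊ + C2 + 1 : ℝ) * (M : ℝ) ^ d < (b : ℝ) ^ Λ := by exact_mod_cast hC
  have hMd' : (Bn : ℝ) ≤ (M : ℝ) ^ d := by exact_mod_cast hMB.trans hMd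
  have hMd0 : (0 : ℝ) < (M : ℝ) ^ d := by
    have : (0 : ℝ) < M := by exact_mod_cast hM1
    positivity
  have hceil : (0 : ℝ) ≤ ⌈|C1|⌉₊ := by positivity
  have hC20 : (0 : ℝ) ≤ C2 := by positivity
  have hBnN : (Bn : ℝ) ≤ (b : ℝ) ^ N := by nlinarith
  have hbN0 : (0 : ℝ) < (b : ℝ) ^ N := by positivity
  have happ : |x - α| ≤ Bn / (b : ℝ) ^ N := hD.app
  have happ1 : |x - α| ≤ 1 := happ.trans ((div_le_one hbN0).2 hBnN)
  have hval : |aeval x P| ≤ (⌈|C1|⌉₊ : ℝ) * (Bn / (b : ℝ) ^ N) :=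
    (hLip x happ1).trans (mul_le_mul_of_nonneg_left happ hceil)
  -- the integer
  set T : ℤ := ∑ s ∈ range (R+1), (P.comp g).coeff s * (b:ℤ)^(R-s) with hT
  have hTr : (T : ℝ) = (b : ℝ) ^ R * ∑ s ∈ range (R+1), ((P.comp g).coeff s : ℝ) * y ^ s := by
    rw [hT, Finset.mul_sum]
    push_cast
    refine Finset.sum_congr rfl (fun s hs => ?_)
    have hs' : s ≤ R := by
      have := Finset.mem_range.1 hs
      omega
    rw [hy, inv_pow, pow_sub₀ _ hb0.ne' hs']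
    ring
  have hTabs : |(T : ℝ)| < 1 := by
    have h1 : ∑ s ∈ range (R+1), ((P.comp g).coeff s : ℝ) * y ^ s =
        aeval x P - ∑ s ∈ Ico (R + Λ + 1) W, ((P.comp g).coeff s : ℝ) * y ^ s := by
      rw [hsum, hsplit]
      ring
    have hbR : (0 : ℝ) < (b : ℝ) ^ R := by positivity
    rw [hTr, h1, abs_mul, abs_of_pos hbR]
    have h2 : |aeval x P - ∑ s ∈ Ico (R + Λ + 1) W, ((P.comp g).coeff s : ℝ) * y ^ s| ≤
        (⌈|C1|⌉₊ : ℝ) * (Bn / (b : ℝ) ^ N) + (C2 : ℝ) * (M : ℝ) ^ d * y ^ (R + Λ) :=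
      (abs_sub _ _).trans (add_le_add hval htail)
    refine (mul_le_mul_of_nonneg_left h2 hbR.le).trans_lt ?_
    have h3 : (b : ℝ) ^ R * (Bn / (b : ℝ) ^ N) ≤ Bn / (b : ℝ) ^ Λ := by
      rw [mul_div_assoc', div_le_div_iff₀ hbN0 (by positivity)]
      have h4 : (b : ℝ) ^ R * (b : ℝ) ^ Λ ≤ (b : ℝ) ^ N := by
        rw [← pow_add]
        exact pow_le_pow_right₀ (by exact_mod_cast (by omega : 1 ≤ b)) hRN
      have h5 : (0 : ℝ) ≤ Bn := by positivity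
      nlinarith
    have h6 : (b : ℝ) ^ R * ((C2 : ℝ) * (M : ℝ) ^ d * y ^ (R + Λ)) =
        (C2 : ℝ) * (M : ℝ) ^ d / (b : ℝ) ^ Λ := by
      rw [hy, inv_pow, pow_add]
      field_simp
    rw [mul_add, h6]
    have h7 : (b : ℝ) ^ R * ((⌈|C1|⌉₊ : ℝ) * (Bn / (b : ℝ) ^ N)) ≤
        (⌈|C1|⌉₊ : ℝ) * (M : ℝ) ^ d / (b : ℝ) ^ Λ := by
      have h8 : (b : ℝ) ^ R * ((⌈|C1|⌉₊ : ℝ) * (Bn / (b : ℝ) ^ N)) =
          (⌈|C1|⌉₊ : ℝ) * ((b : ℝ) ^ R * (Bn / (b : ℝ) ^ N)) := by ring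
      rw [h8, mul_div_assoc]
      refine mul_le_mul_of_nonneg_left (h3.trans ?_) hceil
      exact div_le_div_of_nonneg_right hMd' (by positivity)
    have hbΛ : (0 : ℝ) < (b : ℝ) ^ Λ := by positivity
    have h9 : (⌈|C1|⌉₊ : ℝ) * (M : ℝ) ^ d / (b : ℝ) ^ Λ + (C2 : ℝ) * (M : ℝ) ^ d / (b : ℝ) ^ Λ < 1 := by
      rw [← add_div, div_lt_one hbΛ]
      nlinarith
    linarith
  have hT1 : |T| < 1 := by exact_mod_cast hTabs
  exact Int.abs_lt_one_iff.1 hT1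

end Pool.Agent.SGP
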