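import Pool.Agent.SGP.Defs

/-! # FRA (difficulty 2). Two lifts of congruences modulo `p`.
* `frob_lift`: let `R = ZMod (p^M)`, `u = g^(p^i) - expand R (p^i) g`, `g = gq A v`. The ring homomorphism
  `φ = ZMod.castHom (dvd_pow_self p (by omega)) (ZMod p)` maps `u` to `0` (`Polynomial.map_pow, map_expand` and
  `ZMod.expand_card` iterated: in `(ZMod p)[X]`, `f^(p^i) = expand (p^i) f`). An element of `ZMod (p^M)` which
  `φ` maps to `0` is `p * c` (e.g. `ZMod.natCast_zmod_val`, `ZMod.natCast_eq_zero_iff`). So `u.coeff k = p * c_k`, with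
  `c_k = 0` where `u.coeff k = 0`; `w = Σ_{k ∈ u.support} C c_k X^k`. Support: `Su A (p^i) u` (`(su_gq v).pow`; for
  `expand`: the coefficient at `k` is `≠ 0` only if `k = p^i * a`, `a ∈ A`: `ss_mul A (p^i) (mem_ss_one A ha)`).
* `dvd_lift`: `(X^(p^i)-X).map φ = P.map φ * Q̄`; lift `Q̄` to `Q ∈ ℤ[X]` (`Polynomial.map_surjective`,
  `ZMod.intCast_surjective`); all coefficients of `X^(p^i) - X - P Q` are divisible by `p`
  (`Polynomial.C_dvd_iff_dvd_coeff`). -/

open Finset Polynomial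

namespace Pool.Agent.SGP

theorem FrA_pow (p i : ℕ) [Fact p.Prime] (f : (ZMod p)[X]) :
    f^(p^i) = expand (ZMod p) (p^i) f := by
  induction i with
  | zero => simp
  | succ i ih =>
    rw [pow_succ, pow_mul, ih, ← ZMod.expand_card, expand_expand, mul_comm]

theorem FrA_dvd (p M : ℕ) [Fact p.Prime] (hM : 1 ≤ M) (a : ZMod (p^M))
    (h : ZMod.castHom (dvd_pow_self p (by omega : M ≠ 0)) (ZMod p) a = 0) :
    ∃ c : ZMod (p^M), a = (p : ZMod (p^M)) * c := by
  have hp : p.Prime := Fact.out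
  haveI : NeZero (p^M) := ⟨pow_ne_zero _ hp.ne_zero⟩
  have h1 : ((a.val : ℕ) : ZMod (p^M)) = a := ZMod.natCast_zmod_val a
  rw [← h1, map_natCast, ZMod.natCast_eq_zero_iff] at h
  obtain ⟨c, hc⟩ := h
  refine ⟨(c : ZMod (p^M)), ?_⟩
  rw [← h1, hc]
  push_cast
  rfl

theorem frob_lift (p M i : ℕ) [Fact p.Prime] (hM : 1 ≤ M) (A : Finset ℕ) (v : ℕ → ZMod (p^M)) :
    ∃ w : (ZMod (p^M))[X], (gq A v)^(p^i) - expand (ZMod (p^M)) (p^i) (gq A v) =
      C (p : ZMod (p^M)) * w ∧ Su A (p^i) w := by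
  classical
  have hp : p.Prime := Fact.out
  set u := (gq A v)^(p^i) - expand (ZMod (p^M)) (p^i) (gq A v) with hu
  have hmap : u.map (ZMod.castHom (dvd_pow_self p (by omega : M ≠ 0)) (ZMod p)) = 0 := by
    rw [hu, Polynomial.map_sub, Polynomial.map_pow, Polynomial.map_expand, FrA_pow, sub_self]
  have hex : ∀ k, ∃ c : ZMod (p^M), u.coeff k = (p : ZMod (p^M)) * c := by
    intro k
    apply FrA_dvd p M hM
    rw [← Polynomial.coeff_map, hmap, coeff_zero]
  choose c hc using hex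
  have hsu : Su A (p^i) u := by
    apply Su.sub
    · have := (su_gq (A := A) v).pow (p^i)
      rwa [mul_one] at this
    · intro k hk
      rw [coeff_expand (pow_pos hp.pos i)] at hk
      split_ifs at hk with hd
      · rw [coeff_gq] at hk
        split_ifs at hk with ha
        · have h1 := ss_mul A (p^i) (mem_ss_one A ha)
          rw [mul_one, Nat.mul_div_cancel' hd] at h1
          exact h1
        · exact absurd rfl hk
      · exact absurd rfl hk
  refine ⟨∑ k ∈ u.support, Polynomial.C (c k) * X^k, ?_, ?_⟩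
  · ext k
    rw [coeff_C_mul, finsetSum_coeff]
    simp only [coeff_C_mul_X_pow]
    rw [Finset.sum_ite_eq]
    split_ifs with h
    · exact hc k
    · rw [mul_zero]
      exact notMem_support_iff.1 h
  · intro k hk
    rw [finsetSum_coeff] at hk
    simp only [coeff_C_mul_X_pow] at hk
    rw [Finset.sum_ite_eq] at hk
    split_ifs at hk with h
    · exact hsu k (mem_support_iff.1 h)
    · exact absurd rfl hk

theorem dvd_lift (p i : ℕ) [Fact p.Prime] (P : ℤ[X])
    (h : P.map (Int.castRingHom (ZMod p)) ∣ X^(p^i) - X) :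
    ∃ Q W : ℤ[X], X^(p^i) - X = P * Q + C (p:ℤ) * W := by
  obtain ⟨Qb, hQ⟩ := h
  obtain ⟨Q, rfl⟩ := Polynomial.map_surjective (Int.castRingHom (ZMod p)) ZMod.intCast_surjective Qb
  have hd : Polynomial.C (p : ℤ) ∣ X^(p^i) - X - P * Q := by
    rw [Polynomial.C_dvd_iff_dvd_coeff]
    intro k
    have h1 : ((X^(p^i) - X - P * Q : ℤ[X]).map (Int.castRingHom (ZMod p))).coeff k = 0 := by
      rw [Polynomial.map_sub, Polynomial.map_mul, Polynomial.map_sub, Polynomial.map_pow, map_X, hQ,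
        sub_self, coeff_zero]
    rw [coeff_map, eq_intCast, ZMod.intCast_zmod_eq_zero_iff_dvd] at h1
    exact h1
  obtain ⟨W, hW⟩ := hd
  exact ⟨Q, W, by rw [← hW]; ring⟩

end Pool.Agent.SGP
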