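import Pool.Agent.SGP.Step

/-! # START (difficulty 3). A visible start in `[z, C z]`.
Let `Φ(x) = Σ_{k ≤ x} e_k/b^k`. Mathlib: `Liouville.exists_pos_real_of_irrational_root` (Liouville's inequality): for
a nonzero `f ∈ ℤ[X]` with `f(α) = 0`, `D = natDegree f`: `∃ A₀ > 0, ∀ a : ℤ, c : ℕ, 1 ≤ (c+1)^D (|α - a/(c+1)| A₀)`.
`Φ(x) = a / b^x`, so `|α - Φ(x)| ≥ 1/(A₀ b^(D x))`. From `Dig`: for `x ≤ n`: `|Φ(x) - α| ≤ Σ_{x<k≤n} B b^(-k) + B b^(-n) ≤ 2B b^(-x)`.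
Take generic `g₀ ∈ [z, z + r₀]`, `g₁ ∈ [X, X + r₀]`, `X = (2D+2) z`, `r₀ ≤ z`. If `Φ(g₁) = Φ(g₀)`, then
`1/(A₀ b^(D g₀)) ≤ 2B b^(-g₁)`, `b^(g₁ - D g₀) ≤ 2 B A₀`, but `g₁ - D g₀ ≥ (2D+2) z - 2 D z = 2 z` and `C B ≤ b^z`: contradiction. So
`Φ(g₀) ≠ Φ(g₁)`. Let `g` be the largest generic point `≤ g₁` with `Φ(g) = Φ(g₀)` (`Finset.exists_maximal`/`Nat.findGreatest`), `g < g₁`,
and `g'` the generic point in `[g+1, g+1+r₀]` given by `hE.gen (g+1)`; take `g'' = min g' g₁` (generic): `Φ(g'') ≠ Φ(g₀)`,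
`g < g'' ≤ g + 1 + r₀ ≤ g + r`. The rational sum over `(g, g'']` is `Φ(g'') - Φ(g) ≠ 0`; `win_vs` with `gen_nc` gives the
visible start `v ∈ (g, g'']`, `z ≤ g₀ ≤ g < v ≤ g₁ ≤ (2D+3) z`. Take `C ≥ 2D+3`, `C ≥ 2A₀ + 1`. -/

open Finset Polynomial

namespace Pool.Agent.SGP

/-- partial sums of the expansion -/
noncomputable def StartPhi (b : ℕ) (e : ℕ → ℤ) (x : ℕ) : ℝ := ∑ k ∈ range (x+1), (e k : ℝ) / b^k

lemma Start_rat (b : ℕ) (hb : 2 ≤ b) (e : ℕ → ℤ) (x : ℕ) : ∃ a : ℤ, StartPhi b e x = a / (b:ℝ)^x := by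
  have hb0 : (b:ℝ) ≠ 0 := by
    have : b ≠ 0 := by omega
    exact_mod_cast this
  induction x with
  | zero => exact ⟨e 0, by simp [StartPhi]⟩
  | succ x ih =>
    obtain ⟨a, ha⟩ := ih
    refine ⟨a*b + e (x+1), ?_⟩
    unfold StartPhi at ha ⊢
    rw [Finset.sum_range_succ, ha, pow_succ]
    push_cast
    field_simp

lemma Start_upper {α : ℝ} {b B n : ℕ} {e : ℕ → ℤ} (hb : 2 ≤ b) (hD : Dig b B n α e) (d : ℕ) :
    d ≤ n → |StartPhi b e (n-d) - α| ≤ B / (b:ℝ)^(n-d) := by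
  have hb0 : (0:ℝ) < b := by
    have : 0 < b := by omega
    exact_mod_cast this
  have hb2 : (2:ℝ) ≤ b := by exact_mod_cast hb
  induction d with
  | zero => intro _; rw [Nat.sub_zero]; exact hD.app
  | succ d ih =>
    intro hd
    have h1 := ih (by omega)
    obtain ⟨x, hx⟩ : ∃ x, n - (d+1) = x := ⟨_, rfl⟩
    have hx' : n - d = x + 1 := by omega
    rw [hx] at *
    rw [hx'] at h1
    have h2 : StartPhi b e (x+1) = StartPhi b e x + (e (x+1) : ℝ)/b^(x+1) := by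
      unfold StartPhi
      rw [Finset.sum_range_succ]
    have h3 : |(e (x+1) : ℝ)/b^(x+1)| ≤ B/(b:ℝ)^(x+1) := by
      rw [abs_div, abs_of_pos (by positivity : (0:ℝ) < b^(x+1))]
      have h4 : |(e (x+1) : ℝ)| ≤ B := by
        have := hD.bd (x+1) (by omega)
        exact_mod_cast this
      gcongr
    have h5 : StartPhi b e x - α = (StartPhi b e (x+1) - α) - (e (x+1) : ℝ)/b^(x+1) := by rw [h2]; ring
    rw [h5]
    refine (abs_sub _ _).trans ?_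
    refine (add_le_add h1 h3).trans ?_
    rw [pow_succ, ← add_div, div_le_div_iff₀ (by positivity) (by positivity)]
    have hB0 : (0:ℝ) ≤ B := by positivity
    have hbx : (0:ℝ) < (b:ℝ)^x := by positivity
    have h6 : (0:ℝ) ≤ B * (b:ℝ)^x := by positivity
    nlinarith

lemma Start_lower {α : ℝ} {A₀ : ℝ} {D : ℕ} (b : ℕ) (hb : 2 ≤ b) (e : ℕ → ℤ)
    (h : ∀ a : ℤ, ∀ c : ℕ, (1 : ℝ) ≤ ((c : ℝ) + 1) ^ D * (|α - a / (c + 1)| * A₀)) (x : ℕ) :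
    1 ≤ ((b:ℝ)^x)^D * (|StartPhi b e x - α| * A₀) := by
  obtain ⟨a, ha⟩ := Start_rat b hb e x
  have h1 : 1 ≤ b^x := Nat.one_le_pow _ _ (by omega)
  have h2 := h a (b^x - 1)
  have h3 : (((b^x - 1 : ℕ) : ℝ) + 1) = (b:ℝ)^x := by
    rw [Nat.cast_sub h1]; push_cast; ring
  rw [h3] at h2
  rw [ha, abs_sub_comm]
  exact h2

lemma Start_diff (b : ℕ) (e : ℕ → ℤ) {g g' : ℕ} (h : g ≤ g') :
    StartPhi b e g' - StartPhi b e g = ((∑ k ∈ Ioc g g', (e k : ℚ)/(b:ℚ)^k : ℚ) : ℝ) := by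
  have e1 : Ioc g g' = Ico (g+1) (g'+1) := by
    ext k
    simp only [mem_Ioc, mem_Ico]
    omega
  have e2 := Finset.sum_range_add_sum_Ico (fun k => (e k : ℝ) / (b:ℝ)^k) (show g+1 ≤ g'+1 by omega)
  rw [e1]
  push_cast
  unfold StartPhi
  rw [← e2]
  ring

theorem start (α : ℝ) (hα : IsAlgebraic ℚ α) (hirr : Irrational α) (b : ℕ) (hb : 2 ≤ b) :
    ∃ C : ℕ, ∀ (B n l r r₀ y K w z : ℕ) (e : ℕ → ℤ), Dig b B n α e →
      Env b B e l r r₀ y n K w → y ≤ z → 1 ≤ z → r₀ ≤ z → r₀ + 1 ≤ r → C*B ≤ b^z → C*z + l ≤ n →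
      ∃ v, Vs b e l v ∧ z ≤ v ∧ v ≤ C*z := by
  classical
  obtain ⟨f, hf0, hf⟩ := (IsFractionRing.isAlgebraic_iff ℤ ℚ ℝ).2 hα
  have hf' : (f.map (algebraMap ℤ ℝ)).eval α = 0 := by
    rwa [← eval_map_algebraMap] at hf
  obtain ⟨A₀, hA₀, hL⟩ := Liouville.exists_pos_real_of_irrational_root hirr hf0 hf'
  set D := f.natDegree with hDdef
  refine ⟨⌈A₀⌉₊ + 2*D + 3, ?_⟩
  set C := ⌈A₀⌉₊ + 2*D + 3 with hC
  have hCA : A₀ ≤ C := by
    refine (Nat.le_ceil A₀).trans ?_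
    have : ⌈A₀⌉₊ ≤ C := by omega
    exact_mod_cast this
  have hC2 : 2*D + 3 ≤ C := by omega
  intro B n l r r₀ y K w z e hDig hE hyz hz hr₀ hr hCB hCn
  have hCz : (2*D+3)*z ≤ C*z := Nat.mul_le_mul_right _ hC2
  have hXz : (2*D+3)*z = (2*D+2)*z + z := by ring
  obtain ⟨g₀, hg01, hg02, hg0⟩ := hE.gen z
  obtain ⟨g₁, hg11, hg12, hg1⟩ := hE.gen ((2*D+2)*z)
  have hzX : 2*z ≤ (2*D+2)*z := Nat.mul_le_mul_right _ (by omega)
  have hg01' : g₀ ≤ g₁ := by omega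
  have hg1n : g₁ + l ≤ n := by omega
  have hbR : (2:ℝ) ≤ b := by exact_mod_cast hb
  have hb0 : (0:ℝ) < b := by linarith
  have hb1 : (1:ℝ) ≤ b := by linarith
  -- different values at the ends
  have hne : StartPhi b e g₁ ≠ StartPhi b e g₀ := by
    intro heq
    have h1 := Start_lower b hb e hL g₀
    rw [← heq] at h1
    have h2 : |StartPhi b e g₁ - α| ≤ B/(b:ℝ)^g₁ := by
      have := Start_upper hb hDig (n - g₁) (by omega)
      have e1 : n - (n - g₁) = g₁ := by omega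
      rwa [e1] at this
    have h3 : (1:ℝ) ≤ ((b:ℝ)^g₀)^D * (B/(b:ℝ)^g₁ * A₀) := by
      refine h1.trans ?_
      gcongr
    have h4 : (b:ℝ)^g₁ ≤ (b:ℝ)^(g₀*D) * (B*A₀) := by
      have e2 : ((b:ℝ)^g₀)^D * (B/(b:ℝ)^g₁ * A₀) = ((b:ℝ)^(g₀*D) * (B*A₀))/(b:ℝ)^g₁ := by
        rw [← pow_mul]; ring
      rw [e2, le_div_iff₀ (by positivity), one_mul] at h3
      exact h3
    have h5 : g₀*D ≤ 2*z*D := Nat.mul_le_mul_right _ (by omega)
    have h6 : (b:ℝ)^(g₀*D) ≤ (b:ℝ)^(2*z*D) := pow_le_pow_right₀ hb1 h5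
    have h7 : (b:ℝ)^((2*D+2)*z) ≤ (b:ℝ)^g₁ := pow_le_pow_right₀ hb1 hg11
    have h8 : (b:ℝ)^((2*D+2)*z) = (b:ℝ)^(2*z*D) * (b:ℝ)^(2*z) := by rw [← pow_add]; congr 1; ring
    have h9 : (b:ℝ)^(2*z*D) * (b:ℝ)^(2*z) ≤ (b:ℝ)^(2*z*D) * (B*A₀) := by
      rw [← h8]
      refine (h7.trans h4).trans ?_
      gcongr
    have h10 : (b:ℝ)^(2*z) ≤ B*A₀ := le_of_mul_le_mul_left h9 (by positivity)
    have h11 : (B:ℝ)*A₀ ≤ (b:ℝ)^z := by
      have h12 : (C:ℝ)*B ≤ (b:ℝ)^z := by exact_mod_cast hCB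
      have h13 : (B:ℝ)*A₀ ≤ B*C := mul_le_mul_of_nonneg_left hCA (by positivity)
      linarith
    have h14 : (b:ℝ)^z < (b:ℝ)^(2*z) := pow_lt_pow_right₀ (by linarith) (by omega)
    linarith
  -- the last generic point with the same value
  set P : ℕ → Prop := fun x => Gen (EE e n) K w x ∧ StartPhi b e x = StartPhi b e g₀ with hP
  set g := Nat.findGreatest P g₁ with hg
  have hPg₀ : P g₀ := ⟨hg0, rfl⟩
  have hPg : P g := Nat.findGreatest_spec hg01' hPg₀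
  have hg₀g : g₀ ≤ g := Nat.le_findGreatest hg01' hPg₀
  have hgle : g ≤ g₁ := Nat.findGreatest_le g₁
  have hglt : g < g₁ := by
    rcases Nat.lt_or_ge g g₁ with h | h
    · exact h
    · exfalso
      have : g = g₁ := le_antisymm hgle h
      rw [this] at hPg
      exact hne hPg.2
  obtain ⟨g', hg'1, hg'2, hg'⟩ := hE.gen (g+1)
  obtain ⟨g'', h1, h2, h3, h4⟩ : ∃ g'', g < g'' ∧ g'' ≤ g₁ ∧ g'' ≤ g + 1 + r₀ ∧ Gen (EE e n) K w g'' := by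
    rcases Nat.le_total g' g₁ with h | h
    · exact ⟨g', by omega, h, hg'2, hg'⟩
    · exact ⟨g₁, hglt, le_rfl, by omega, hg1⟩
  have h5 : StartPhi b e g'' ≠ StartPhi b e g₀ := fun h =>
    Nat.findGreatest_is_greatest h1 h2 ⟨h4, h⟩
  have h6 : ∑ k ∈ Ioc g g'', (e k : ℚ)/(b:ℚ)^k ≠ 0 := by
    intro h
    have h7 := Start_diff b e h1.le
    rw [h, Rat.cast_zero, hPg.2] at h7
    exact h5 (sub_eq_zero.1 h7)
  obtain ⟨v, hv1, hv2, hv⟩ := win_vs b e l r y n g g'' hE.iso (by omega) h1 (by omega) (by omega)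
    (gen_nc e hE.zero l n K w g hE.hK hE.hlw (by omega) hPg.1)
    (gen_nc e hE.zero l n K w g'' hE.hK hE.hlw (by omega) h4) h6
  exact ⟨v, hv, by omega, by omega⟩

end Pool.Agent.SGP
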