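import Pool.Agent.SGP.PadeEnd

/-! # WALK (difficulty 3). The walk. `L₁ = log(N/(N-m)) < L₂ = log(N/(N-2m))`, both `> 0`.
Let `η = 2 ρ' / v₀ · C₂` (see below; `ρ' = ρ + 1`). Let `t_i = i L₁ - ⌊i L₁/L₂⌋ L₂ ∈ [0, L₂)`.
CLAIM: for all `i ≤ K` there is `v_i ∈ V` with `|log v_i - log v₀ - F t_i| ≤ 2 i η`. Here `2 K η ≤ 1` (hypothesis), so
 `v_i` stays in `[v₀/3, 3 e^(F(L₁+L₂)) v₀]`, which is inside the range of the two hypotheses for `C` large.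
 Step `i → i+1`: the first hypothesis: `|(N-m)^F v' - N^F v| ≤ ρ` gives `v'/v = (N/(N-m))^F (1 + δ)`, `|δ| ≤ ρ/(N^F v) ≤ 3ρ'/v₀`,
 so `|log v' - log v - F L₁| ≤ 2|δ| ≤ η` (`|log(1+δ)| ≤ 2|δ|` for `|δ| ≤ 1/2`). If `⌊(i+1)L₁/L₂⌋ = ⌊i L₁/L₂⌋ + 1` apply the second
 hypothesis: `|N^F v'' - (N-2m)^F v'| ≤ ρ`: `|log v'' - log v' + F L₂| ≤ 2ρ/((N-2m)^F v') ≤ η`. (`L₁ < L₂`, so the floor
 increases by 0 or 1.)
DISTINCT: for `i' < i ≤ K`, `v_i = v_i'` gives `F |t_i - t_i'| ≤ 4 K η`; `t_i - t_i' = u L₁ - w L₂`, `u = i - i' ≥ 1`,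
 `0 ≤ w ≤ K` (monotone floor), so by `log_lower`: `|t_i - t_i'| ≥ 1/(C₀ (2K)^(C₀))`. Contradiction if `4 K η C₀ (2K)^C₀ < 1`, which
 follows from `C K^C (ρ+1) ≤ v₀` for `C` large. So `i ↦ v_i` is injective on `{0..K}`, `K + 1 ≤ #V`. (`K = 0` trivial.) -/

open Finset Polynomial

namespace Pool.Agent.SGP

lemma Walk_log {x δ : ℝ} (h : |x - 1| ≤ δ) (hδ : δ ≤ 1/2) : |Real.log x| ≤ 2*δ := by
  have h0 := abs_le.1 h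
  have hx : 1/2 ≤ x := by linarith [h0.1]
  have hx0 : 0 < x := by linarith
  have h1 := Real.log_le_sub_one_of_pos hx0
  have h2 := Real.one_sub_inv_le_log_of_pos hx0
  have hδ0 : 0 ≤ δ := (abs_nonneg _).trans h
  rw [abs_le]
  constructor
  · refine le_trans ?_ h2
    have h3 : 1 - x⁻¹ = (x-1)/x := by field_simp
    rw [h3, le_div_iff₀ hx0]
    nlinarith [h0.1]
  · linarith [h0.2]

/-- one step -/
lemma Walk_step {a b v v' ρ : ℝ} (ha : 0 < a) (hb : 1 ≤ b) (hv : 0 < v) (h : |a * v' - b * v| ≤ ρ)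
    (hρ : 2 * ρ ≤ v) : 0 < v' ∧ |Real.log v' - Real.log v - (Real.log b - Real.log a)| ≤ 2*(ρ/v) := by
  have hb0 : 0 < b := by linarith
  have hbv : 0 < b*v := mul_pos hb0 hv
  have hρ0 : 0 ≤ ρ := (abs_nonneg _).trans h
  have h1 : |a*v'/(b*v) - 1| ≤ ρ/v := by
    have e : a*v'/(b*v) - 1 = (a*v' - b*v)/(b*v) := by field_simp
    rw [e, abs_div, abs_of_pos hbv]
    refine div_le_div₀ hρ0 h hv ?_
    nlinarith
  have h2 : ρ/v ≤ 1/2 := by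
    rw [div_le_iff₀ hv]; linarith
  have h3 := Walk_log h1 h2
  have h4 : 0 < a*v'/(b*v) := by
    have := (abs_le.1 h1).1
    linarith
  have h5 : 0 < v' := by
    have h6 : 0 < a*v' := by
      have := mul_pos h4 hbv
      rwa [div_mul_cancel₀ _ hbv.ne'] at this
    exact (mul_pos_iff_of_pos_left ha).1 h6
  refine ⟨h5, ?_⟩
  have e : Real.log (a*v'/(b*v)) = Real.log v' - Real.log v - (Real.log b - Real.log a) := by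
    rw [Real.log_div (mul_pos ha h5).ne' hbv.ne', Real.log_mul ha.ne' h5.ne', Real.log_mul hb0.ne' hv.ne']
    ring
  rwa [e] at h3

/-- the range -/
lemma Walk_range {x v₀ S : ℝ} (hx : 0 < x) (hv : 0 < v₀) (h1 : -1 ≤ Real.log x - Real.log v₀)
    (h2 : Real.log x - Real.log v₀ ≤ 1 + S) : v₀ ≤ 3*x ∧ x ≤ Real.exp (1 + S) * v₀ := by
  constructor
  · have h3 : Real.log v₀ ≤ Real.log (3*x) := by
      rw [Real.log_mul (by norm_num) hx.ne']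
      have h4 : (1:ℝ) ≤ Real.log 3 := by
        rw [Real.le_log_iff_exp_le (by norm_num)]
        have := Real.exp_one_lt_d9
        linarith
      linarith
    exact (Real.log_le_log_iff hv (by positivity)).1 h3
  · have h3 : Real.log x ≤ Real.log (Real.exp (1+S) * v₀) := by
      rw [Real.log_mul (Real.exp_pos _).ne' hv.ne', Real.log_exp]
      linarith
    exact (Real.log_le_log_iff hx (by positivity)).1 h3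

/-- one step, logarithmically -/
lemma Walk_st {a b v v' v₀ ρ η : ℝ} (ha : 0 < a) (hb : 1 ≤ b) (hv0 : 0 < v₀) (hρ : 0 ≤ ρ)
    (h12 : 12*(ρ+1) ≤ v₀) (hη : η = 6*(ρ+1)/v₀) (hv : v₀ ≤ 3*v) (h : |a*v' - b*v| ≤ ρ) :
    0 < v' ∧ |Real.log v' - Real.log v - (Real.log b - Real.log a)| ≤ η := by
  have hvpos : 0 < v := by linarith
  have h2ρ : 2*ρ ≤ v := by linarith
  obtain ⟨h3, h4⟩ := Walk_step ha hb hvpos h h2ρ
  refine ⟨h3, h4.trans ?_⟩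
  rw [hη, mul_div_assoc', div_le_div_iff₀ hvpos hv0]
  have e1 : 2*ρ*v₀ ≤ 2*ρ*(3*v) := mul_le_mul_of_nonneg_left hv (by linarith)
  have e2 : 6*(ρ+1)*v = 2*ρ*(3*v) + 6*v := by ring
  linarith

lemma Walk_floor (A B : ℝ) (hA : 0 < A) (hAB : A < B) : ∃ w : ℕ → ℕ, w 0 = 0 ∧
    (∀ i : ℕ, (w i:ℝ)*B ≤ i*A) ∧ (∀ i : ℕ, (i:ℝ)*A ≤ ((w i:ℝ)+1)*B) ∧
    (∀ i j, i ≤ j → w i ≤ w j) ∧ (∀ i, w i ≤ i) ∧
    (∀ i, w (i+1) = w i ∨ w (i+1) = w i + 1) := by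
  have hB : 0 < B := hA.trans hAB
  have hwle : ∀ i : ℕ, ((⌊(i:ℝ)*A/B⌋₊ : ℕ):ℝ)*B ≤ i*A := by
    intro i
    have h := Nat.floor_le (show (0:ℝ) ≤ (i:ℝ)*A/B by positivity)
    rw [le_div_iff₀ hB] at h
    exact h
  have hwlt : ∀ i : ℕ, (i:ℝ)*A < (((⌊(i:ℝ)*A/B⌋₊ : ℕ):ℝ)+1)*B := by
    intro i
    have h := Nat.lt_floor_add_one ((i:ℝ)*A/B)
    rw [div_lt_iff₀ hB] at h
    exact h
  have hwmono : ∀ i j : ℕ, i ≤ j → ⌊(i:ℝ)*A/B⌋₊ ≤ ⌊(j:ℝ)*A/B⌋₊ := by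
    intro i j hij
    refine Nat.floor_le_floor ?_
    have : (i:ℝ) ≤ j := by exact_mod_cast hij
    gcongr
  refine ⟨fun i => ⌊(i:ℝ)*A/B⌋₊, by simp, hwle, fun i => (hwlt i).le, hwmono, ?_, ?_⟩
  · intro i
    have h1 := hwle i
    have h2 : ((⌊(i:ℝ)*A/B⌋₊ : ℕ):ℝ)*B ≤ i*B := h1.trans (mul_le_mul_of_nonneg_left hAB.le (by positivity))
    have h3 : ((⌊(i:ℝ)*A/B⌋₊ : ℕ):ℝ) ≤ i := le_of_mul_le_mul_right h2 hB
    exact_mod_cast h3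
  · intro i
    have h1 := hwmono i (i+1) (Nat.le_succ i)
    have h4 := hwle (i+1)
    have h5 := hwlt i
    obtain ⟨a, ha⟩ : ∃ a : ℕ, a = ⌊(i:ℝ)*A/B⌋₊ := ⟨_, rfl⟩
    obtain ⟨c, hc⟩ : ∃ c : ℕ, c = ⌊((i+1:ℕ):ℝ)*A/B⌋₊ := ⟨_, rfl⟩
    rw [← ha] at h1 h5
    rw [← hc] at h1 h4
    have h2 : c ≤ a + 1 := by
      by_contra hcon
      have h3 : (a:ℝ) + 2 ≤ c := by exact_mod_cast (by omega : a + 2 ≤ c)
      have h6 := mul_le_mul_of_nonneg_right h3 hB.le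
      push_cast at h4
      linarith
    show ⌊((i+1:ℕ):ℝ)*A/B⌋₊ = ⌊(i:ℝ)*A/B⌋₊ ∨ ⌊((i+1:ℕ):ℝ)*A/B⌋₊ = ⌊(i:ℝ)*A/B⌋₊ + 1
    rw [← hc, ← ha]
    clear h4 h5
    omega

/-- the walk, abstractly -/
lemma Walk_ind (P : ℕ → Prop) (g : ℕ → ℝ) (A B η : ℝ) (K : ℕ) (w : ℕ → ℕ) (hA : 0 < A)
    (hη : 0 ≤ η) (hK : 2*K*η ≤ 1) (hw0 : w 0 = 0) (hwle : ∀ i : ℕ, (w i:ℝ)*B ≤ i*A)
    (hwlt : ∀ i : ℕ, (i:ℝ)*A ≤ ((w i:ℝ)+1)*B)
    (hws : ∀ i, w (i+1) = w i ∨ w (i+1) = w i + 1) (v₀ : ℕ) (hP : P v₀) (hg : g v₀ = 0)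
    (H1 : ∀ v, P v → -1 ≤ g v → g v ≤ 1 + (A+B) → ∃ v', P v' ∧ |g v' - g v - A| ≤ η)
    (H2 : ∀ v, P v → -1 ≤ g v → g v ≤ 1 + (A+B) → ∃ v', P v' ∧ |g v' - g v + B| ≤ η) :
    ∀ i : ℕ, i ≤ K → ∃ v, P v ∧ |g v - (i*A - w i*B)| ≤ 2*i*η := by
  intro i
  induction i with
  | zero =>
    intro _
    refine ⟨v₀, hP, ?_⟩
    rw [hg, hw0]
    simp
  | succ i ih =>
    intro hi
    obtain ⟨v, hv, hgv⟩ := ih (by omega)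
    have hiK : ((i:ℝ)+1) ≤ K := by exact_mod_cast hi
    have herr0 : 2*((i:ℝ)+1)*η ≤ 2*K*η := by
      have := mul_le_mul_of_nonneg_right hiK hη
      linarith
    have herr : 2*((i:ℝ)*η) + 2*η ≤ 1 := by linarith
    have hi0 : 0 ≤ (i:ℝ)*η := by positivity
    have hav := abs_le.1 hgv
    have ht0 := hwle i
    have ht1 := hwlt i
    obtain ⟨v', hv', hgv'⟩ := H1 v hv (by linarith [hav.1]) (by linarith [hav.2])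
    have hal := abs_le.1 hgv'
    rcases hws i with hc | hc
    · refine ⟨v', hv', ?_⟩
      rw [hc]
      push_cast
      rw [abs_le]
      constructor
      · linarith [hal.1, hav.1]
      · linarith [hal.2, hav.2]
    · obtain ⟨v'', hv'', hgv''⟩ := H2 v' hv' (by linarith [hav.1, hal.1]) (by linarith [hav.2, hal.2])
      have hal2 := abs_le.1 hgv''
      refine ⟨v'', hv'', ?_⟩
      rw [hc]
      push_cast
      rw [abs_le]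
      constructor
      · linarith [hal.1, hav.1, hal2.1]
      · linarith [hal.2, hav.2, hal2.2]

/-- range in terms of `C` -/
lemma Walk_rc {v v₀ C : ℕ} {S E : ℝ} (hv : 0 < (v:ℝ)) (hv0 : (0:ℝ) < v₀) (hC3 : 3 ≤ C)
    (hE : E = Real.exp (1 + S)) (hCE : E ≤ C) (h1 : -1 ≤ Real.log v - Real.log v₀)
    (h2 : Real.log v - Real.log v₀ ≤ 1 + S) : (v₀:ℝ) ≤ 3*v ∧ v₀ ≤ C*v ∧ v ≤ C*v₀ := by
  obtain ⟨r1, r2⟩ := Walk_range hv hv0 h1 h2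
  have h3 : (3:ℝ) ≤ C := by exact_mod_cast hC3
  refine ⟨r1, ?_, ?_⟩
  · have : (v₀:ℝ) ≤ C*v := r1.trans (mul_le_mul_of_nonneg_right h3 hv.le)
    exact_mod_cast this
  · rw [← hE] at r2
    have : (v:ℝ) ≤ C*v₀ := r2.trans (mul_le_mul_of_nonneg_right hCE hv0.le)
    exact_mod_cast this

/-- separation of the visited points -/
lemma Walk_sep (L₁ L₂ F η : ℝ) (C₀ K u z : ℕ) (hF : 1 ≤ F) (hη : 0 ≤ η)
    (h : 1 ≤ C₀*((u:ℝ)+z)^C₀*|u*L₁ - z*L₂|) (hu : u ≤ K) (hz : z ≤ K)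
    (h4 : |u*(F*L₁) - z*(F*L₂)| ≤ 4*K*η) : 1 ≤ C₀*(2*(K:ℝ))^C₀*(4*K*η) := by
  have e : |u*(F*L₁) - z*(F*L₂)| = F*|u*L₁ - z*L₂| := by
    have : u*(F*L₁) - z*(F*L₂) = F*(u*L₁ - z*L₂) := by ring
    rw [this, abs_mul, abs_of_nonneg (by linarith : (0:ℝ) ≤ F)]
  rw [e] at h4
  have h5 : |u*L₁ - z*L₂| ≤ 4*K*η := (le_mul_of_one_le_left (abs_nonneg _) hF).trans h4
  have h6 : ((u:ℝ)+z)^C₀ ≤ (2*K)^C₀ := by
    refine pow_le_pow_left₀ (by positivity) ?_ _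
    have a1 : (u:ℝ) ≤ K := by exact_mod_cast hu
    have a2 : (z:ℝ) ≤ K := by exact_mod_cast hz
    linarith
  refine h.trans ?_
  exact mul_le_mul (mul_le_mul_of_nonneg_left h6 (by positivity)) h5 (abs_nonneg _) (by positivity)

lemma Walk_num (C₀ C K v₀ ρ : ℕ) (hK0 : 0 < K) (hv0 : (0:ℝ) < v₀) (hCC : C₀+1 ≤ C)
    (hC24 : 24*C₀*2^C₀+1 ≤ C) (h7 : 1 ≤ C₀*(2*(K:ℝ))^C₀*(4*K*(6*(ρ+1)/v₀)))
    (hK : C*K^C*(ρ+1) ≤ v₀) : False := by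
  have h8 : (v₀:ℝ) ≤ 24*C₀*2^C₀*K^(C₀+1)*(ρ+1) := by
    have e : (C₀:ℝ)*(2*K)^C₀*(4*K*(6*(ρ+1)/v₀)) = (24*C₀*2^C₀*K^(C₀+1)*(ρ+1))/v₀ := by
      rw [mul_pow, pow_succ]; ring
    rw [e, le_div_iff₀ hv0, one_mul] at h7
    exact h7
  have h9 : v₀ ≤ 24*C₀*2^C₀*K^(C₀+1)*(ρ+1) := by exact_mod_cast h8
  have h10 : K^(C₀+1) ≤ K^C := Nat.pow_le_pow_right hK0 hCC
  have h11 : 24*C₀*2^C₀*K^(C₀+1)*(ρ+1) ≤ 24*C₀*2^C₀*(K^C*(ρ+1)) := by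
    rw [mul_assoc]
    exact Nat.mul_le_mul_left _ (Nat.mul_le_mul_right _ h10)
  have h12 : C*K^C*(ρ+1) = C*(K^C*(ρ+1)) := mul_assoc _ _ _
  have h13 : (24*C₀*2^C₀ + 1)*(K^C*(ρ+1)) ≤ C*(K^C*(ρ+1)) := Nat.mul_le_mul_right _ hC24
  have h14 : 0 < K^C*(ρ+1) := by positivity
  have h15 : (24*C₀*2^C₀ + 1)*(K^C*(ρ+1)) = 24*C₀*2^C₀*(K^C*(ρ+1)) + K^C*(ρ+1) := by
    rw [Nat.add_mul, Nat.one_mul]
  rw [h15] at h13
  rw [h12] at hK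
  have h16 := (h9.trans h11).trans_lt (Nat.lt_add_of_pos_right (n := 24*C₀*2^C₀*(K^C*(ρ+1))) h14)
  exact absurd ((h13.trans hK).trans_lt h16) (lt_irrefl _)

/-- counting along an injective walk -/
lemma Walk_card (V : Finset ℕ) (K : ℕ) (f : ℕ → ℕ) (hf : ∀ i ≤ K, f i ∈ V)
    (hinj : ∀ i' i : ℕ, i' < i → i ≤ K → f i' ≠ f i) : K ≤ #V := by
  have hcard : (range K).card ≤ V.card := by
    refine Finset.card_le_card_of_injOn f ?_ ?_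
    · intro i hi
      have hi' : i < K := by simpa using hi
      exact hf i hi'.le
    · intro i hi j hj hij
      have hi' : i < K := by simpa using hi
      have hj' : j < K := by simpa using hj
      rcases lt_trichotomy i j with h | h | h
      · exact absurd hij (hinj i j h hj'.le)
      · exact h
      · exact absurd hij.symm (hinj j i h hi'.le)
  rwa [card_range] at hcard

/-- the geometric part of the walk -/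
lemma Walk_main (m N F C₀ C : ℕ) (L₁ L₂ E : ℝ) (hF : 1 ≤ F) (hN0 : (1:ℝ) ≤ N)
    (hN1 : (0:ℝ) < (N:ℝ) - m) (hN2 : (1:ℝ) ≤ (N:ℝ) - 2*m)
    (eL₁ : L₁ = Real.log N - Real.log ((N:ℝ)-m)) (eL₂ : L₂ = Real.log N - Real.log ((N:ℝ)-2*m))
    (hL1 : 0 < L₁) (hL12 : L₁ < L₂) (hE : E = Real.exp (1 + (F*L₁+F*L₂))) (hCE : E ≤ C) (hC12 : 13 ≤ C)
    (hC24 : 24*C₀*2^C₀ + 1 ≤ C) (hCC : C₀ + 1 ≤ C)
    (hC₀ : ∀ u z : ℕ, 1 ≤ u → 1 ≤ C₀*((u:ℝ)+z)^C₀*|u*L₁ - z*L₂|)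
    (V : Finset ℕ) (v₀ ρ K : ℕ) (hv₀ : v₀ ∈ V)
    (H1 : ∀ v ∈ V, v₀ ≤ C*v → v ≤ C*v₀ → ∃ v' ∈ V, |((N:ℤ)-m)^F*v' - (N:ℤ)^F*v| ≤ ρ)
    (H2 : ∀ v ∈ V, v₀ ≤ C*v → v ≤ C*v₀ → ∃ v' ∈ V, |(N:ℤ)^F*v' - ((N:ℤ)-2*m)^F*v| ≤ ρ)
    (hK : C * K^C * (ρ+1) ≤ v₀) (hK0 : 0 < K) : K ≤ #V := by
  have hKR : (1:ℝ) ≤ K := by exact_mod_cast hK0
  have hKC : K ≤ K^C := Nat.le_self_pow (by omega) K
  have hbig : 12*K*(ρ+1) ≤ v₀ := by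
    refine le_trans ?_ hK
    exact Nat.mul_le_mul_right _ (Nat.mul_le_mul (by omega) hKC)
  have hv0 : 0 < v₀ := lt_of_lt_of_le (by positivity) hbig
  have hv0R : (0:ℝ) < v₀ := by exact_mod_cast hv0
  have hbigR : 12*(K:ℝ)*(ρ+1) ≤ v₀ := by exact_mod_cast hbig
  have hρ0 : (0:ℝ) ≤ ρ := by positivity
  obtain ⟨η, hη⟩ : ∃ η : ℝ, η = 6*(ρ+1)/v₀ := ⟨_, rfl⟩
  have hη0 : 0 ≤ η := by rw [hη]; positivity
  have hKη : 2*K*η ≤ 1 := by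
    rw [hη]
    have : 2*(K:ℝ)*(6*(ρ+1)/v₀) = (12*K*(ρ+1))/v₀ := by ring
    rw [this, div_le_one hv0R]
    exact hbigR
  have h12 : 12*((ρ:ℝ)+1) ≤ v₀ := by
    refine le_trans ?_ hbigR
    have h1 : (12:ℝ)*1 ≤ 12*K := mul_le_mul_of_nonneg_left hKR (by norm_num)
    rw [mul_one] at h1
    exact mul_le_mul_of_nonneg_right h1 (by linarith)
  have hFR : (1:ℝ) ≤ F := by exact_mod_cast hF
  have hFL1 : 0 < F*L₁ := by positivity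
  have hFL12 : F*L₁ < F*L₂ := mul_lt_mul_of_pos_left hL12 (by linarith)
  obtain ⟨w, hw0, hwle, hwlt, hwmono, hwi, hws⟩ := Walk_floor (F*L₁) (F*L₂) hFL1 hFL12
  have hind := Walk_ind (fun v => v ∈ V ∧ 0 < (v:ℝ)) (fun v => Real.log v - Real.log v₀) (F*L₁) (F*L₂) η K w
    hFL1 hη0 hKη hw0 hwle hwlt hws v₀ ⟨hv₀, hv0R⟩ (sub_self _) ?_ ?_
  · choose! f hfV hf using hind
    refine Walk_card V K f (fun i hi => (hfV i hi).1) ?_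
    intro i' i hlt hi heq
    have hi' : i' ≤ K := hlt.le.trans hi
    have h1 := abs_le.1 (hf i' hi')
    have h2 := abs_le.1 (hf i hi)
    rw [heq] at h1
    obtain ⟨x, hx⟩ : ∃ x : ℝ, x = Real.log (f i) - Real.log v₀ := ⟨_, rfl⟩
    simp only [← hx] at h1 h2
    obtain ⟨u, hu⟩ : ∃ u, i = i' + u := ⟨i - i', by omega⟩
    have hm1 := hwmono i' i hlt.le
    obtain ⟨z, hz⟩ : ∃ z, w i = w i' + z := ⟨w i - w i', by omega⟩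
    have hu1 : 1 ≤ u := by omega
    have huK : u ≤ K := by omega
    have hzK : z ≤ K := by have := hwi i; omega
    have hiR : (i:ℝ) ≤ K := by exact_mod_cast hi
    have hi'R : (i':ℝ) ≤ K := by exact_mod_cast hi'
    have hi1 := mul_le_mul_of_nonneg_right hiR hη0
    have hi2 := mul_le_mul_of_nonneg_right hi'R hη0
    have h4 : |u*(F*L₁) - z*(F*L₂)| ≤ 4*K*η := by
      have huR : (i:ℝ) = i' + u := by rw [hu]; push_cast; ring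
      have hzR : ((w i:ℕ):ℝ) = w i' + z := by rw [hz]; push_cast; ring
      have e : u*(F*L₁) - z*(F*L₂) = ((i:ℝ)*(F*L₁) - w i*(F*L₂)) - ((i':ℝ)*(F*L₁) - w i'*(F*L₂)) := by
        rw [huR, hzR]; ring
      obtain ⟨t, ht⟩ : ∃ t : ℝ, t = (i:ℝ)*(F*L₁) - w i*(F*L₂) := ⟨_, rfl⟩
      obtain ⟨t', ht'⟩ : ∃ t' : ℝ, t' = (i':ℝ)*(F*L₁) - w i'*(F*L₂) := ⟨_, rfl⟩
      rw [e, ← ht, ← ht', abs_le]
      rw [← ht] at h2
      rw [← ht'] at h1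
      constructor
      · linarith [h1.1, h1.2, h2.1, h2.2]
      · linarith [h1.1, h1.2, h2.1, h2.2]
    have h7 := Walk_sep L₁ L₂ F η C₀ K u z hFR hη0 (hC₀ u z hu1) huK hzK h4
    rw [hη] at h7
    exact Walk_num C₀ C K v₀ ρ hK0 hv0R hCC hC24 h7 hK
  · rintro v ⟨hvV, hvpos⟩ q1 q2
    obtain ⟨r1, r3, r4⟩ := Walk_rc (S := F*L₁+F*L₂) hvpos hv0R (by omega : 3 ≤ C) hE hCE q1 q2
    obtain ⟨v', hv'V, hv'⟩ := H1 v hvV r3 r4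
    have hv'R : |((N:ℝ)-m)^F*v' - (N:ℝ)^F*v| ≤ ρ := by exact_mod_cast hv'
    obtain ⟨hp', hl'⟩ := Walk_st (pow_pos hN1 F) (one_le_pow₀ hN0) hv0R hρ0 h12 hη r1 hv'R
    refine ⟨v', ⟨hv'V, hp'⟩, ?_⟩
    have e1 : Real.log ((N:ℝ)^F) - Real.log (((N:ℝ)-m)^F) = F*L₁ := by
      rw [Real.log_pow, Real.log_pow, eL₁]; ring
    rw [e1] at hl'
    have e2 : Real.log v' - Real.log v₀ - (Real.log v - Real.log v₀) - F*L₁ =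
        Real.log v' - Real.log v - F*L₁ := by ring
    show |Real.log v' - Real.log v₀ - (Real.log v - Real.log v₀) - F*L₁| ≤ η
    rw [e2]
    exact hl'
  · rintro v ⟨hvV, hvpos⟩ q1 q2
    obtain ⟨r1, r3, r4⟩ := Walk_rc (S := F*L₁+F*L₂) hvpos hv0R (by omega : 3 ≤ C) hE hCE q1 q2
    obtain ⟨v', hv'V, hv'⟩ := H2 v hvV r3 r4
    have hv'R : |(N:ℝ)^F*v' - ((N:ℝ)-2*m)^F*v| ≤ ρ := by exact_mod_cast hv'
    obtain ⟨hp', hl'⟩ := Walk_st (pow_pos (by linarith : (0:ℝ) < N) F) (one_le_pow₀ hN2) hv0R hρ0 h12 hη r1 hv'R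
    refine ⟨v', ⟨hv'V, hp'⟩, ?_⟩
    have e1 : Real.log (((N:ℝ)-2*m)^F) - Real.log ((N:ℝ)^F) = -(F*L₂) := by
      rw [Real.log_pow, Real.log_pow, eL₂]; ring
    rw [e1] at hl'
    have e2 : Real.log v' - Real.log v₀ - (Real.log v - Real.log v₀) + F*L₂ =
        Real.log v' - Real.log v - -(F*L₂) := by ring
    show |Real.log v' - Real.log v₀ - (Real.log v - Real.log v₀) + F*L₂| ≤ η
    rw [e2]
    exact hl'

theorem walk (m N F : ℕ) (hm : 1 ≤ m) (hN : 10^9*m^3 ≤ N) (hF : 1 ≤ F) :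
    ∃ C : ℕ, ∀ (V : Finset ℕ) (v₀ ρ K : ℕ), v₀ ∈ V →
      (∀ v ∈ V, v₀ ≤ C*v → v ≤ C*v₀ →
        ∃ v' ∈ V, |((N:ℤ)-m)^F*v' - (N:ℤ)^F*v| ≤ ρ) →
      (∀ v ∈ V, v₀ ≤ C*v → v ≤ C*v₀ →
        ∃ v' ∈ V, |(N:ℤ)^F*v' - ((N:ℤ)-2*m)^F*v| ≤ ρ) →
      C * K^C * (ρ+1) ≤ v₀ → K ≤ #V := by
  classical
  obtain ⟨C₀, hC₀⟩ := log_lower m N hm hN
  -- numbers
  have hm3 : m ≤ m^3 := Nat.le_self_pow (by norm_num) m
  have hNm : 2*m + 1 ≤ N := by omega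
  have hmR : (1:ℝ) ≤ m := by exact_mod_cast hm
  have hNR : 2*(m:ℝ) + 1 ≤ N := by exact_mod_cast hNm
  have hN0 : (0:ℝ) < N := by linarith
  have hN1 : (0:ℝ) < N - m := by linarith
  have hN2 : (1:ℝ) ≤ N - 2*m := by linarith
  have hN20 : (0:ℝ) < N - 2*m := by linarith
  obtain ⟨L₁, hL₁⟩ : ∃ L₁ : ℝ, L₁ = Real.log ((N:ℝ)/((N:ℝ)-m)) := ⟨_, rfl⟩
  obtain ⟨L₂, hL₂⟩ : ∃ L₂ : ℝ, L₂ = Real.log ((N:ℝ)/((N:ℝ)-2*m)) := ⟨_, rfl⟩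
  have eL₁ : L₁ = Real.log N - Real.log ((N:ℝ)-m) := by rw [hL₁, Real.log_div hN0.ne' hN1.ne']
  have eL₂ : L₂ = Real.log N - Real.log ((N:ℝ)-2*m) := by rw [hL₂, Real.log_div hN0.ne' hN20.ne']
  have hl1 : Real.log ((N:ℝ)-m) < Real.log N := Real.log_lt_log hN1 (by linarith)
  have hl2 : Real.log ((N:ℝ)-2*m) < Real.log ((N:ℝ)-m) := Real.log_lt_log hN20 (by linarith)
  have hL1 : 0 < L₁ := by rw [eL₁]; linarith
  have hL12 : L₁ < L₂ := by rw [eL₁, eL₂]; linarith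
  obtain ⟨E, hE⟩ : ∃ E : ℝ, E = Real.exp (1 + (F*L₁+F*L₂)) := ⟨_, rfl⟩
  obtain ⟨C, hC⟩ : ∃ C : ℕ, C = ⌈E⌉₊ + 24*C₀*2^C₀ + C₀ + 13 := ⟨_, rfl⟩
  have hCE : E ≤ C := by
    have h1 := Nat.le_ceil E
    have h2 : (⌈E⌉₊:ℝ) ≤ C := by
      have : ⌈E⌉₊ ≤ C := by omega
      exact_mod_cast this
    linarith
  refine ⟨C, ?_⟩
  intro V v₀ ρ K hv₀ H1 H2 hK
  rcases Nat.eq_zero_or_pos K with hK0 | hK0
  · rw [hK0]; exact Nat.zero_le _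
  refine Walk_main m N F C₀ C L₁ L₂ E hF (by linarith) hN1 hN2 eL₁ eL₂ hL1 hL12 hE hCE (by omega)
    (by omega) (by omega) ?_ V v₀ ρ K hv₀ H1 H2 hK hK0
  intro u z hu
  have h3 := hC₀ u z (by omega)
  rw [← hL₁, ← hL₂] at h3
  exact h3

end Pool.Agent.SGP
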