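import Pool.Agent.SGP.PadeId

/-! Part of PADEBD: the value of the polynomial and the least common multiple. -/

open Finset Polynomial

namespace Pool.Agent.SGP

/-- nonnegative coefficients -/
def PadeBd_nn (p : ℤ[X]) : Prop := ∀ k, 0 ≤ p.coeff k

theorem PadeBd_mul {p q : ℤ[X]} (hp : PadeBd_nn p) (hq : PadeBd_nn q) : PadeBd_nn (p * q) := by
  intro k
  rw [coeff_mul]
  exact Finset.sum_nonneg fun x _ => mul_nonneg (hp _) (hq _)

theorem PadeBd_pow {p : ℤ[X]} (hp : PadeBd_nn p) (n : ℕ) : PadeBd_nn (p ^ n) := by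
  induction n with
  | zero =>
    intro k
    rw [pow_zero, coeff_one]
    split_ifs <;> norm_num
  | succ n ih =>
    rw [pow_succ]
    exact PadeBd_mul ih hp

theorem PadeBd_lin {a : ℤ} (ha : 0 ≤ a) : PadeBd_nn (X + C a) := by
  intro k
  rw [coeff_add, coeff_X, coeff_C]
  split_ifs <;> omega

theorem PadeBd_coeff {p : ℤ[X]} (hp : PadeBd_nn p) (n : ℕ) {r : ℤ} (hr : 0 ≤ r) :
    p.coeff n * r ^ n ≤ p.eval r := by
  rw [eval_eq_sum_range]
  by_cases h : n ≤ p.natDegree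
  · exact Finset.single_le_sum (f := fun i => p.coeff i * r ^ i)
      (fun i _ => mul_nonneg (hp i) (pow_nonneg hr i)) (Finset.mem_range.2 (by omega))
  · rw [coeff_eq_zero_of_natDegree_lt (by omega), zero_mul]
    exact Finset.sum_nonneg fun i _ => mul_nonneg (hp i) (pow_nonneg hr i)

theorem PadeBd_V (m n N : ℕ) (h : 2 * m ≤ N) (hN : 1 ≤ N) :
    0 ≤ (Vp m n).eval (N : ℤ) ∧ (Vp m n).eval (N : ℤ) ≤ (8 * (N : ℤ) ^ 2) ^ n := by
  have h' : 2 * (m : ℤ) ≤ N := by exact_mod_cast h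
  have hN' : (1 : ℤ) ≤ N := by exact_mod_cast hN
  have hm' : (0 : ℤ) ≤ m := by positivity
  have e0 : taylor (N : ℤ) (Wp m) = (X + C (N : ℤ)) * (X + C ((N : ℤ) - m)) *
      (X + C ((N : ℤ) - 2 * m)) := by
    unfold Wp
    rw [taylor_mul, taylor_mul, map_sub, map_sub, taylor_X, taylor_C, taylor_C]
    have e1 : X + C (N : ℤ) - C (m : ℤ) = X + C ((N : ℤ) - m) := by
      rw [C_sub]
      ring
    have e2 : X + C (N : ℤ) - C (2 * m : ℤ) = X + C ((N : ℤ) - 2 * m) := by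
      rw [C_sub]
      ring
    rw [e1, e2]
  have e1 : (Vp m n).eval (N : ℤ) = ((taylor (N : ℤ) (Wp m)) ^ n).coeff n := by
    unfold Vp
    rw [← taylor_coeff, taylor_pow]
  have hnn : PadeBd_nn ((taylor (N : ℤ) (Wp m)) ^ n) := by
    refine PadeBd_pow ?_ n
    rw [e0]
    exact PadeBd_mul (PadeBd_mul (PadeBd_lin (by positivity)) (PadeBd_lin (by linarith)))
      (PadeBd_lin (by linarith))
  rw [e1]
  refine ⟨hnn n, ?_⟩
  have h1 := PadeBd_coeff hnn n (r := (N : ℤ)) (by positivity)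
  have h2 : ((taylor (N : ℤ) (Wp m)) ^ n).eval (N : ℤ) ≤ (8 * (N : ℤ) ^ 2) ^ n * (N : ℤ) ^ n := by
    rw [e0, eval_pow, ← mul_pow]
    simp only [eval_mul, eval_add, eval_X, eval_C]
    have a1 : (0 : ℤ) ≤ N + N := by linarith
    have a2 : (0 : ℤ) ≤ N + (N - m) := by linarith
    have a3 : (0 : ℤ) ≤ N + (N - 2 * m) := by linarith
    refine pow_le_pow_left₀ (mul_nonneg (mul_nonneg a1 a2) a3) ?_ n
    have b2 : (N : ℤ) + (N - m) ≤ 2 * N := by linarith
    have b3 : (N : ℤ) + (N - 2 * m) ≤ 2 * N := by linarith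
    calc ((N : ℤ) + N) * (N + (N - m)) * (N + (N - 2 * m))
        ≤ (N + N) * (2 * N) * (2 * N) :=
          mul_le_mul (mul_le_mul_of_nonneg_left b2 a1) b3 a3 (by positivity)
      _ = 8 * (N : ℤ) ^ 2 * N := by ring
  exact le_of_mul_le_mul_right (h1.trans h2) (by positivity)

theorem PadeBd_lcm (n : ℕ) : 1 ≤ (Nat.lcmUpto (2 * n) : ℝ) ∧
    (Nat.lcmUpto (2 * n) : ℝ) ≤ 48000 ^ n := by
  have h1 : 0 < Nat.lcmUpto (2 * n) := by
    refine Nat.pos_of_ne_zero ?_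
    unfold Nat.lcmUpto
    rw [Ne, Finset.lcm_eq_zero_iff]
    simp
  have h1' : (1 : ℝ) ≤ (Nat.lcmUpto (2 * n) : ℝ) := by exact_mod_cast h1
  refine ⟨h1', ?_⟩
  have h2 := Chebyshev.psi_le_const_mul_self (x := ((2 * n : ℕ) : ℝ)) (by positivity)
  rw [Chebyshev.psi_eq_log_lcmUpto] at h2
  have h3 : (Nat.lcmUpto (2 * n) : ℝ) ≤ Real.exp ((Real.log 4 + 4) * ((2 * n : ℕ) : ℝ)) := by
    rw [← Real.log_le_iff_le_exp (by linarith)]
    exact h2
  refine h3.trans ?_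
  have h4 : (Real.log 4 + 4) * ((2 * n : ℕ) : ℝ) = n * (Real.log 4 * 2 + 8) := by
    push_cast
    ring
  rw [h4, Real.exp_nat_mul]
  refine pow_le_pow_left₀ (Real.exp_pos _).le ?_ n
  have h5 : Real.exp (Real.log 4 * 2) = 16 := by
    rw [show Real.log 4 * 2 = Real.log 4 + Real.log 4 by ring, Real.exp_add,
      Real.exp_log (by norm_num)]
    norm_num
  have h6 : Real.exp 8 ≤ 2.7182818286 ^ 8 := by
    have : (8 : ℝ) = ((8 : ℕ) : ℝ) * 1 := by norm_num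
    rw [this, Real.exp_nat_mul]
    exact pow_le_pow_left₀ (Real.exp_pos _).le Real.exp_one_lt_d9.le 8
  rw [Real.exp_add, h5]
  calc (16 : ℝ) * Real.exp 8 ≤ 16 * 2.7182818286 ^ 8 := by linarith
    _ ≤ 48000 := by norm_num

end Pool.Agent.SGP
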