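import Pool.Agent.SGP.PadeInt
import Pool.Agent.SGP.PadeV

/-! # PADEBD (difficulty 3). The approximations. `n` odd, `N ≥ 10^9 m^3`, `d = lcmUpto (2n)`,
`A = d V(N)`, `R_a = ∫_0^a W^n/(N-s)^(n+1)` (`a = m, 2m`). By `pade_id`, `pade_int` (`(-1)^n = -1`):
`A L₁ - Q₁ = -d R_m`, `A L₂ - Q₂ = -d R_(2m)`, `L₁ = log (N/(N-m))`, `L₂ = log (N/(N-2m))`.
`W(s) = s(s-m)(s-2m)` is `≥ 0` on `[0,m]`, `≤ 0` on `[m,2m]`, `|W| ≤ 2m^3` on `[0,2m]`.
So with `t = d R_m ≥ 0`, `J = - d ∫_m^(2m) W^n/(N-s)^(n+1) ≥ 0` (`n` odd): `A L₁ = Q₁ - t`, `A L₂ = Q₂ - t + J`.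
* `d = exp(ψ(2n)) ≤ exp((log 4 + 4) 2n) ≤ 48000^n` (`Chebyshev.psi_eq_log_lcmUpto`,
  `Chebyshev.psi_le_const_mul_self`; `4 e^4 < 219`, `219^2 = 47961`).
* `t, J ≤ d m (2m^3)^n/(N-2m)^(n+1) ≤ (48000 * 2 m^3/(N-2m))^n ≤ (1/2)^n` (`m ≤ N - 2m`; `N - 2m ≥ 10^8 m^3`).
* `t ≥ ∫_{m/4}^{m/2} W^n/N^(n+1) ≥ (m/4) (m^3/16)^n / N^(n+1) ≥ (1/4) (1/16)^n / N^(n+1) ≥ (1/(64 N^2))^n`
  (`d ≥ 1`; on `[m/4, m/2]`: `s ≥ m/4, m-s ≥ m/2, 2m-s ≥ m`, so `W ≥ m^3/8`; `n ≥ 1`).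
* `|V(N)| ≤ (48 N^2)^n`: `V = Σ_k w_k binom(k,n) X^(k-n)` (`hasseDeriv_coeff`), `binom(k,n) ≤ 2^k ≤ 8^n`,
  `Σ_k |w_k| N^k ≤ (N (N+m) (N+2m))^n ≤ (6 N^3)^n` (`w_k` = coefficients of `W^n`; the sum of `|coefficient| N^k` is
  submultiplicative).  So `|A| ≤ (48000*48 N^2)^n ≤ (10^7 N^2)^n`. -/

open Finset Polynomial

namespace Pool.Agent.SGP

theorem pade_seq (m N : ℕ) (hm : 1 ≤ m) (hN : 10^9*m^3 ≤ N) (n : ℕ) (hn : Odd n) :
    ∃ (A Q₁ Q₂ : ℤ) (t J : ℝ), (A:ℝ) * Real.log (N/(N-m)) = Q₁ - t ∧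
      (A:ℝ) * Real.log (N/(N-2*m)) = Q₂ - t + J ∧ (1/(64*(N:ℝ)^2))^n ≤ t ∧ t ≤ (1/2)^n ∧
      0 ≤ J ∧ J ≤ (1/2)^n ∧ |(A:ℝ)| ≤ (10^7*(N:ℝ)^2)^n := by
  have hm3 : m ≤ m ^ 3 := Nat.le_self_pow (by norm_num) m
  have h2m : 2 * m < N := by omega
  have hmR : (1 : ℝ) ≤ m := by exact_mod_cast hm
  have hm3R : (m : ℝ) ≤ (m : ℝ) ^ 3 := by exact_mod_cast hm3
  have hNR : 10 ^ 9 * (m : ℝ) ^ 3 ≤ N := by exact_mod_cast hN
  have hN2 : 10 ^ 8 * (m : ℝ) ^ 3 ≤ N - 2 * m := by linarith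
  have hNpos : (0 : ℝ) < N - 2 * m := lt_of_lt_of_le (by positivity) hN2
  have hN1 : (1 : ℝ) ≤ N := by linarith
  obtain ⟨d1, d2⟩ := PadeBd_lcm n
  set d : ℝ := (Nat.lcmUpto (2 * n) : ℝ) with hd
  set F : ℝ → ℝ := fun s => (s*(s-m)*(s-2*m))^n / ((N:ℝ)-s)^(n+1) with hF
  obtain ⟨Q₁, hQ₁⟩ := pade_int m n N m (by omega)
  obtain ⟨Q₂, hQ₂⟩ := pade_int m n N (2 * m) h2m
  rw [pade_id m n N m (Or.inl rfl) (by omega), hn.neg_one_pow] at hQ₁
  rw [pade_id m n N (2 * m) (Or.inr rfl) h2m, hn.neg_one_pow] at hQ₂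
  have hcast : ((2 * m : ℕ) : ℝ) = 2 * m := by push_cast; ring
  rw [hcast] at hQ₂
  -- integrability
  have hcont : ∀ a b : ℝ, 0 ≤ a → a ≤ b → b ≤ 2 * m → ContinuousOn F (Set.uIcc a b) := by
    intro a b ha hab hb
    rw [Set.uIcc_of_le hab]
    refine ContinuousOn.div ?_ ?_ ?_
    · fun_prop
    · fun_prop
    · intro s hs
      have : 0 < (N : ℝ) - s := by linarith [hs.2]
      positivity
  have hint : ∀ a b : ℝ, 0 ≤ a → a ≤ b → b ≤ 2 * m → IntervalIntegrable F MeasureTheory.volume a b :=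
    fun a b ha hab hb => (hcont a b ha hab hb).intervalIntegrable
  have hsplit : ∫ s in (0 : ℝ)..(2 * m : ℝ), F s = (∫ s in (0 : ℝ)..(m : ℝ), F s) +
      ∫ s in (m : ℝ)..(2 * m : ℝ), F s :=
    (intervalIntegral.integral_add_adjacent_intervals (hint 0 m le_rfl (by linarith) (by linarith))
      (hint m (2 * m) (by linarith) (by linarith) le_rfl)).symm
  -- the upper bound
  have hW : ∀ s : ℝ, 0 ≤ s → s ≤ 2 * m → |s*(s-m)*(s-2*m)| ≤ (m : ℝ) ^ 3 := by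
    intro s h0 h1
    have e1 : |s * (s - 2 * m)| ≤ (m : ℝ) ^ 2 := by
      rw [abs_le]
      constructor <;> nlinarith [sq_nonneg (s - m)]
    have e2 : |s - m| ≤ m := by
      rw [abs_le]
      constructor <;> linarith
    calc |s*(s-m)*(s-2*m)| = |s * (s - 2 * m)| * |s - m| := by
          rw [← abs_mul]
          congr 1
          ring
      _ ≤ (m : ℝ) ^ 2 * m := mul_le_mul e1 e2 (abs_nonneg _) (by positivity)
      _ = (m : ℝ) ^ 3 := by ring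
  have hFb : ∀ s : ℝ, 0 ≤ s → s ≤ 2 * m → ‖F s‖ ≤ ((m : ℝ) ^ 3) ^ n / (N - 2 * m) ^ (n + 1) := by
    intro s h0 h1
    have e1 : 0 < (N : ℝ) - s := by linarith
    rw [hF]
    simp only
    rw [norm_div, norm_pow, norm_pow, Real.norm_eq_abs, Real.norm_eq_abs, abs_of_pos e1]
    exact div_le_div₀ (by positivity) (pow_le_pow_left₀ (abs_nonneg _) (hW s h0 h1) n)
      (by positivity) (pow_le_pow_left₀ hNpos.le (by linarith) _)
  have hup : ∀ a : ℝ, 0 ≤ a → a ≤ m → d * |∫ s in a..(a + m), F s| ≤ (1 / 2) ^ n := by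
    intro a h0 h1
    have e1 : ‖∫ s in a..(a + m), F s‖ ≤ ((m : ℝ) ^ 3) ^ n / (N - 2 * m) ^ (n + 1) * |a + m - a| := by
      refine intervalIntegral.norm_integral_le_of_norm_le_const fun s hs => ?_
      rw [Set.uIoc_of_le (by linarith)] at hs
      exact hFb s (by linarith [hs.1]) (by linarith [hs.2])
    rw [Real.norm_eq_abs, add_sub_cancel_left, abs_of_pos (show (0 : ℝ) < m by linarith)] at e1
    have e2 : ((m : ℝ) ^ 3) ^ n / (N - 2 * m) ^ (n + 1) * m ≤ (1 / 10 ^ 8) ^ n := by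
      have u1 : ((m : ℝ) ^ 3) ^ n / (N - 2 * m) ^ (n + 1) * m =
          ((m : ℝ) ^ 3 / (N - 2 * m)) ^ n * (m / (N - 2 * m)) := by
        rw [div_pow, pow_succ ((N : ℝ) - 2 * m) n, div_mul_div_comm, div_mul_eq_mul_div]
      have u2 : (m : ℝ) ^ 3 / (N - 2 * m) ≤ 1 / 10 ^ 8 := by
        rw [div_le_iff₀ hNpos]
        linarith
      have u3 : (m : ℝ) / (N - 2 * m) ≤ 1 := by
        rw [div_le_one hNpos]
        linarith
      rw [u1]
      calc ((m : ℝ) ^ 3 / (N - 2 * m)) ^ n * (m / (N - 2 * m)) ≤ (1 / 10 ^ 8) ^ n * 1 :=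
            mul_le_mul (pow_le_pow_left₀ (by positivity) u2 n) u3 (by positivity) (by positivity)
        _ = _ := mul_one _
    calc d * |∫ s in a..(a + m), F s| ≤ 48000 ^ n * (1 / 10 ^ 8) ^ n :=
          mul_le_mul d2 (e1.trans e2) (abs_nonneg _) (by positivity)
      _ = (48000 * (1 / 10 ^ 8)) ^ n := (mul_pow _ _ _).symm
      _ ≤ (1 / 2) ^ n := pow_le_pow_left₀ (by norm_num) (by norm_num) n
  have hup0 := hup 0 le_rfl (by linarith)
  have hupm := hup m (by linarith) le_rfl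
  rw [zero_add] at hup0
  rw [← two_mul] at hupm
  -- signs
  have hs0 : ∀ s : ℝ, 0 ≤ s → s ≤ m → 0 ≤ F s := by
    intro s h0 h1
    have e1 : 0 < (N : ℝ) - s := by linarith
    have e2 : 0 ≤ s*(s-m)*(s-2*m) := by
      have : s*(s-m)*(s-2*m) = s * ((m - s) * (2 * m - s)) := by ring
      rw [this]
      exact mul_nonneg h0 (mul_nonneg (by linarith) (by linarith))
    rw [hF]
    simp only
    positivity
  have hs1 : ∀ s : ℝ, (m : ℝ) ≤ s → s ≤ 2 * m → F s ≤ 0 := by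
    intro s h0 h1
    have e1 : 0 < (N : ℝ) - s := by linarith
    have e2 : s*(s-m)*(s-2*m) ≤ 0 := by
      have : s*(s-m)*(s-2*m) = -(s * ((s - m) * (2 * m - s))) := by ring
      rw [this]
      have := mul_nonneg (by linarith : (0 : ℝ) ≤ s) (mul_nonneg (by linarith : 0 ≤ s - m)
        (by linarith : 0 ≤ 2 * m - s))
      linarith
    rw [hF]
    simp only
    exact div_nonpos_of_nonpos_of_nonneg (hn.pow_nonpos e2) (by positivity)
  have hRm : 0 ≤ ∫ s in (0 : ℝ)..(m : ℝ), F s :=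
    intervalIntegral.integral_nonneg (by linarith) fun s hs => hs0 s hs.1 hs.2
  have hJm : ∫ s in (m : ℝ)..(2 * m : ℝ), F s ≤ 0 := by
    have : 0 ≤ ∫ s in (m : ℝ)..(2 * m : ℝ), -F s :=
      intervalIntegral.integral_nonneg (by linarith) fun s hs => by linarith [hs1 s hs.1 hs.2]
    rw [intervalIntegral.integral_neg] at this
    linarith
  -- lower bound
  have hlow : (1/(64*(N:ℝ)^2))^n ≤ ∫ s in (0 : ℝ)..(m : ℝ), F s := by
    have e1 : ∫ s in (m / 4 : ℝ)..(m / 2 : ℝ), F s ≤ ∫ s in (0 : ℝ)..(m : ℝ), F s := by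
      refine intervalIntegral.integral_mono_interval (by linarith) (by linarith) (by linarith) ?_
        (hint 0 m le_rfl (by linarith) (by linarith))
      refine (MeasureTheory.ae_restrict_iff' measurableSet_Ioc).2 (Filter.Eventually.of_forall ?_)
      intro s hs
      exact hs0 s hs.1.le hs.2
    have e2 : ∫ s in (m / 4 : ℝ)..(m / 2 : ℝ), ((1 / 16) ^ n / (N : ℝ) ^ (n + 1)) ≤
        ∫ s in (m / 4 : ℝ)..(m / 2 : ℝ), F s := by
      refine intervalIntegral.integral_mono_on (by linarith) intervalIntegrable_const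
        (hint _ _ (by linarith) (by linarith) (by linarith)) fun s hs => ?_
      obtain ⟨h0, h1⟩ := hs
      have e3 : 0 < (N : ℝ) - s := by linarith
      have e4 : 1 / 16 ≤ s*(s-m)*(s-2*m) := by
        have u1 : s*(s-m)*(s-2*m) = s * ((m - s) * (2 * m - s)) := by ring
        rw [u1]
        have u2 : (m : ℝ) / 2 * m ≤ (m - s) * (2 * m - s) :=
          mul_le_mul (by linarith) (by linarith) (by linarith) (by linarith)
        have u3 : (m : ℝ) / 4 * (m / 2 * m) ≤ s * ((m - s) * (2 * m - s)) :=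
          mul_le_mul h0 u2 (by positivity) (by linarith)
        have u4 : (1 : ℝ) ≤ m * m * m := by nlinarith [mul_pos (show (0 : ℝ) < m by linarith) (show (0 : ℝ) < m by linarith)]
        nlinarith
      show (1 / 16) ^ n / (N : ℝ) ^ (n + 1) ≤ (s*(s-m)*(s-2*m))^n / ((N:ℝ)-s)^(n+1)
      exact div_le_div₀ (by positivity) (pow_le_pow_left₀ (by norm_num) e4 n) (by positivity)
        (pow_le_pow_left₀ e3.le (by linarith) _)
    rw [intervalIntegral.integral_const, smul_eq_mul] at e2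
    refine le_trans ?_ (e2.trans e1)
    have hn1 : 1 ≤ n := hn.pos
    have e5 : (1 / 4 : ℝ) * ((1 / 16) ^ n / (N : ℝ) ^ (n + 1)) ≤
        (m / 2 - m / 4) * ((1 / 16) ^ n / (N : ℝ) ^ (n + 1)) :=
      mul_le_mul_of_nonneg_right (by linarith) (by positivity)
    refine le_trans ?_ e5
    have e6 : ((1 : ℝ) / 4) ^ n ≤ 1 / 4 := by
      calc ((1 : ℝ) / 4) ^ n ≤ (1 / 4) ^ 1 := pow_le_pow_of_le_one (by norm_num) (by norm_num) hn1
        _ = 1 / 4 := pow_one _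
    have e7 : (N : ℝ) ^ (n + 1) ≤ ((N : ℝ) ^ 2) ^ n := by
      rw [← pow_mul]
      exact pow_le_pow_right₀ hN1 (by omega)
    calc (1/(64*(N:ℝ)^2))^n = (1 / 4) ^ n * ((1 / 16) ^ n / ((N : ℝ) ^ 2) ^ n) := by
          rw [← div_pow, ← mul_pow]
          congr 1
          field_simp
          norm_num
      _ ≤ 1 / 4 * ((1 / 16) ^ n / (N : ℝ) ^ (n + 1)) :=
          mul_le_mul e6 (div_le_div_of_nonneg_left (by positivity) (by positivity) e7)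
            (by positivity) (by norm_num)
  -- `A`
  obtain ⟨v1, v2⟩ := PadeBd_V m n N h2m.le (by omega)
  refine ⟨(Nat.lcmUpto (2 * n) : ℤ) * (Vp m n).eval (N : ℤ), Q₁, Q₂,
    d * ∫ s in (0 : ℝ)..(m : ℝ), F s, -(d * ∫ s in (m : ℝ)..(2 * m : ℝ), F s), ?_, ?_, ?_, ?_, ?_, ?_, ?_⟩
  · push_cast
    have : d * (-1 * ∫ s in (0 : ℝ)..(m : ℝ), F s) =
        d * ((eval (N : ℤ) (Vp m n) : ℤ) : ℝ) * Real.log (N / (N - m)) - Q₁ := hQ₁
    linarith
  · push_cast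
    have : d * (-1 * ∫ s in (0 : ℝ)..(2 * m : ℝ), F s) =
        d * ((eval (N : ℤ) (Vp m n) : ℤ) : ℝ) * Real.log (N / (N - 2 * m)) - Q₂ := hQ₂
    rw [hsplit] at this
    linarith
  · calc (1/(64*(N:ℝ)^2))^n ≤ ∫ s in (0 : ℝ)..(m : ℝ), F s := hlow
      _ = 1 * ∫ s in (0 : ℝ)..(m : ℝ), F s := (one_mul _).symm
      _ ≤ d * ∫ s in (0 : ℝ)..(m : ℝ), F s := mul_le_mul_of_nonneg_right d1 hRm
  · rw [abs_of_nonneg hRm] at hup0
    exact hup0
  · have := mul_nonneg (by linarith : 0 ≤ d) (neg_nonneg.2 hJm)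
    linarith
  · rw [abs_of_nonpos hJm] at hupm
    linarith
  · have w1 : (0 : ℝ) ≤ ((eval (N : ℤ) (Vp m n) : ℤ) : ℝ) := by exact_mod_cast v1
    have w2 : ((eval (N : ℤ) (Vp m n) : ℤ) : ℝ) ≤ (8 * (N : ℝ) ^ 2) ^ n := by exact_mod_cast v2
    push_cast
    rw [abs_of_nonneg (mul_nonneg (by positivity) w1)]
    calc d * ((eval (N : ℤ) (Vp m n) : ℤ) : ℝ) ≤ 48000 ^ n * (8 * (N : ℝ) ^ 2) ^ n :=
          mul_le_mul d2 w2 w1 (by positivity)
      _ = (48000 * (8 * (N : ℝ) ^ 2)) ^ n := (mul_pow _ _ _).symm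
      _ ≤ (10^7*(N:ℝ)^2)^n := by
          refine pow_le_pow_left₀ (by positivity) ?_ n
          nlinarith [sq_nonneg (N : ℝ)]

end Pool.Agent.SGP
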