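import Pool.Agent.SGP.PadeBd

/-! # PADEEND (difficulty 2). `|u log(N/(N-m)) - w log(N/(N-2m))| ≥ 1/(C (u+w)^C)`.
Let `L₁ < L₂` be the logarithms, `Λ = u L₁ - w L₂`.
Case `u ≤ w` (then `w ≥ 1`): `-Λ = w L₂ - u L₁ ≥ w (L₂ - L₁) ≥ L₂ - L₁ > 0`, a constant.
Case `u > w`: let `n` be the least odd number with `2 (u+w) ≤ 2^n` (so `2^n ≤ 8 (u+w)`), `A, Q₁, Q₂, t, J` from
`pade_seq`. `A Λ = (u Q₁ - w Q₂) - ((u-w) t + w J)`. If the integer `u Q₁ - w Q₂` is `0` then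
`|A Λ| = (u-w) t + w J ≥ t ≥ (1/(64 N^2))^n`; otherwise `|A Λ| ≥ 1 - (u+w) (1/2)^n ≥ 1/2`. (`A ≠ 0` follows.)
So `|Λ| ≥ (1/(64N^2))^n / (10^7 N^2)^n /2 ≥ (10^9 N^4)^(-n) / 2` (`64*10^7 ≤ 10^9`), and
`(10^9 N^4)^n ≤ (2^n)^c ≤ (8(u+w))^c` if `10^9 N^4 ≤ 2^c`. -/

open Finset Polynomial

namespace Pool.Agent.SGP

theorem PadeEnd_pow (M : ℕ) (hM : 1 ≤ M) : ∃ n : ℕ, Odd n ∧ (2:ℝ) * M ≤ 2^n ∧ (2:ℝ)^n ≤ 8 * M := by
  have hM' : (1:ℝ) ≤ M := by exact_mod_cast hM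
  obtain ⟨j, h1, h2⟩ := exists_nat_pow_near (R := ℝ) hM' (by norm_num : (1:ℝ) < 4)
  refine ⟨2*(j+1)+1, ⟨j+1, rfl⟩, ?_, ?_⟩
  · have : (2:ℝ)^(2*(j+1)+1) = 2 * 4^(j+1) := by
      rw [pow_succ, pow_mul]
      norm_num
      ring
    rw [this]
    linarith
  · have : (2:ℝ)^(2*(j+1)+1) = 8 * 4^j := by
      rw [pow_succ, pow_mul, pow_succ]
      norm_num
      ring
    rw [this]
    linarith

theorem log_lower (m N : ℕ) (hm : 1 ≤ m) (hN : 10^9*m^3 ≤ N) :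
    ∃ C : ℕ, ∀ u w : ℕ, 0 < u + w → 1 ≤ (C:ℝ) * ((u:ℝ)+w)^C *
      |(u:ℝ) * Real.log (N/(N-m)) - w * Real.log (N/(N-2*m))| := by
  have hm3 : m ≤ m^3 := Nat.le_self_pow (by norm_num) m
  have hN' : 10^9 * m ≤ N := le_trans (Nat.mul_le_mul_left _ hm3) hN
  have hmR : (1:ℝ) ≤ m := by exact_mod_cast hm
  have hNR : (10^9:ℝ) * m ≤ N := by exact_mod_cast hN'
  have hN0 : (10^9 : ℝ) ≤ N := by nlinarith
  have h1 : (0:ℝ) < N - m := by nlinarith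
  have h2 : (0:ℝ) < N - 2*m := by nlinarith
  set L₁ := Real.log ((N:ℝ)/(N-m)) with hL₁
  set L₂ := Real.log ((N:ℝ)/(N-2*m)) with hL₂
  have hL0 : 0 ≤ L₁ := Real.log_nonneg (by rw [le_div_iff₀ h1]; linarith)
  have hNpos : (0:ℝ) < N := by linarith
  have hL : L₁ < L₂ := Real.log_lt_log (div_pos hNpos h1) (by
    apply div_lt_div_of_pos_left hNpos h2
    linarith)
  obtain ⟨c, hc⟩ := pow_unbounded_of_one_lt (10^9 * (N:ℝ)^4) (one_lt_two)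
  refine ⟨8^c + ⌈1/(L₂ - L₁)⌉₊, ?_⟩
  intro u w huw
  have hM1 : 1 ≤ u + w := huw
  have hM1' : (1:ℝ) ≤ (u:ℝ) + w := by exact_mod_cast hM1
  have hu0 : (0:ℝ) ≤ u := Nat.cast_nonneg u
  have hw0 : (0:ℝ) ≤ w := Nat.cast_nonneg w
  have hceil : 1/(L₂ - L₁) ≤ (⌈1/(L₂ - L₁)⌉₊ : ℝ) := Nat.le_ceil _
  have hδ : 0 < L₂ - L₁ := by linarith
  push_cast
  by_cases huw' : u ≤ w
  · have huw'' : (u:ℝ) ≤ w := by exact_mod_cast huw'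
    have hw1 : 1 ≤ w := by omega
    have hw1' : (1:ℝ) ≤ w := by exact_mod_cast hw1
    have e1 : L₂ - L₁ ≤ |(u:ℝ) * L₁ - w * L₂| := by
      rw [abs_sub_comm]
      refine le_trans ?_ (le_abs_self _)
      nlinarith
    have e2 : (1:ℝ) ≤ ((u:ℝ)+w)^(8^c + ⌈1/(L₂ - L₁)⌉₊) := one_le_pow₀ hM1'
    have e3 : 1/(L₂ - L₁) ≤ (8:ℝ)^c + (⌈1/(L₂ - L₁)⌉₊ : ℝ) := by
      have : (0:ℝ) ≤ 8^c := by positivity
      linarith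
    have e4 : 1 ≤ ((8:ℝ)^c + (⌈1/(L₂ - L₁)⌉₊ : ℝ)) * (L₂ - L₁) := by
      rw [div_le_iff₀ hδ] at e3
      exact e3
    have e5 : (0:ℝ) ≤ (8:ℝ)^c + (⌈1/(L₂ - L₁)⌉₊ : ℝ) := by positivity
    calc (1:ℝ) ≤ ((8:ℝ)^c + (⌈1/(L₂ - L₁)⌉₊ : ℝ)) * (L₂ - L₁) := e4
      _ ≤ ((8:ℝ)^c + (⌈1/(L₂ - L₁)⌉₊ : ℝ)) * |(u:ℝ) * L₁ - w * L₂| :=
          mul_le_mul_of_nonneg_left e1 e5
      _ = ((8:ℝ)^c + (⌈1/(L₂ - L₁)⌉₊ : ℝ)) * 1 * |(u:ℝ) * L₁ - w * L₂| := by rw [mul_one]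
      _ ≤ _ := by
          apply mul_le_mul_of_nonneg_right _ (abs_nonneg _)
          exact mul_le_mul_of_nonneg_left e2 e5
  · push Not at huw'
    have huw'' : (w:ℝ) + 1 ≤ u := by exact_mod_cast huw'
    obtain ⟨n, hn, hn1, hn2⟩ := PadeEnd_pow (u+w) hM1
    push_cast at hn1 hn2
    obtain ⟨A, Q₁, Q₂, t, J, hA1, hA2, ht1, ht2, hJ1, hJ2, hA⟩ := pade_seq m N hm hN n hn
    rw [← hL₁] at hA1
    rw [← hL₂] at hA2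
    have hn0 : n ≠ 0 := by
      rintro rfl
      simp at hn
    have hsm : (1/(64*(N:ℝ)^2))^n ≤ 1/2 := by
      have f1 : (0:ℝ) ≤ 1/(64*(N:ℝ)^2) := by positivity
      have f2 : 1/(64*(N:ℝ)^2) ≤ 1/2 := by
        apply one_div_le_one_div_of_le (by norm_num)
        nlinarith
      calc (1/(64*(N:ℝ)^2))^n ≤ 1/(64*(N:ℝ)^2) := pow_le_of_le_one f1 (by linarith) hn0
        _ ≤ 1/2 := f2
    have ht0 : 0 ≤ t := le_trans (by positivity) ht1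
    have hhalf : ((1:ℝ)/2)^n * ((u:ℝ) + w) ≤ 1/2 := by
      rw [div_pow, one_pow, one_div, inv_mul_le_iff₀ (by positivity)]
      linarith
    have hT : ((u:ℝ) - w) * t + w * J ≤ 1/2 := by
      have g1 : ((u:ℝ) - w) * t ≤ ((u:ℝ) - w) * (1/2)^n := mul_le_mul_of_nonneg_left ht2 (by linarith)
      have g2 : (w:ℝ) * J ≤ w * (1/2)^n := mul_le_mul_of_nonneg_left hJ2 hw0
      have g3 : (0:ℝ) ≤ w * (1/2)^n := by positivity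
      nlinarith
    have hT1 : t ≤ ((u:ℝ) - w) * t + w * J := by
      have g1 : 0 ≤ (w:ℝ) * J := mul_nonneg hw0 hJ1
      nlinarith
    have hAL : (A:ℝ) * ((u:ℝ) * L₁ - w * L₂) =
        (((u:ℤ) * Q₁ - w * Q₂ : ℤ) : ℝ) - (((u:ℝ) - w) * t + w * J) := by
      push_cast
      linear_combination (u:ℝ) * hA1 - (w:ℝ) * hA2
    have hlow : (1/(64*(N:ℝ)^2))^n ≤ |(A:ℝ) * ((u:ℝ) * L₁ - w * L₂)| := by
      rw [hAL]
      by_cases hz : ((u:ℤ) * Q₁ - w * Q₂ : ℤ) = 0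
      · rw [hz]
        push_cast
        rw [zero_sub, abs_neg]
        exact le_trans (le_trans ht1 hT1) (le_abs_self _)
      · have hz1 : (1:ℝ) ≤ |(((u:ℤ) * Q₁ - w * Q₂ : ℤ) : ℝ)| := by
          have := Int.one_le_abs hz
          exact_mod_cast this
        have hz2 := abs_sub_abs_le_abs_sub (((u:ℤ) * Q₁ - w * Q₂ : ℤ) : ℝ) (((u:ℝ) - w) * t + w * J)
        have hz3 : |((u:ℝ) - w) * t + w * J| ≤ 1/2 := by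
          rw [abs_of_nonneg (le_trans ht0 hT1)]
          exact hT
        linarith
    rw [abs_mul] at hlow
    have hX := abs_nonneg ((u:ℝ) * L₁ - w * L₂)
    have hlow2 : (1/(64*(N:ℝ)^2))^n ≤ (10^7*(N:ℝ)^2)^n * |(u:ℝ) * L₁ - w * L₂| :=
      le_trans hlow (mul_le_mul_of_nonneg_right hA hX)
    have hlow3 : 1 ≤ (10^9*(N:ℝ)^4)^n * |(u:ℝ) * L₁ - w * L₂| := by
      have k1 : (0:ℝ) < (64*(N:ℝ)^2)^n := by positivity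
      have k2 : (64*(N:ℝ)^2)^n * (1/(64*(N:ℝ)^2))^n = 1 := by
        rw [← mul_pow, mul_one_div, div_self (by positivity), one_pow]
      have k3 : (64*(N:ℝ)^2)^n * (10^7*(N:ℝ)^2)^n ≤ (10^9*(N:ℝ)^4)^n := by
        rw [← mul_pow]
        apply pow_le_pow_left₀ (by positivity)
        nlinarith [pow_nonneg hNpos.le 4]
      calc (1:ℝ) = (64*(N:ℝ)^2)^n * (1/(64*(N:ℝ)^2))^n := k2.symm
        _ ≤ (64*(N:ℝ)^2)^n * ((10^7*(N:ℝ)^2)^n * |(u:ℝ) * L₁ - w * L₂|) :=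
            mul_le_mul_of_nonneg_left hlow2 k1.le
        _ = (64*(N:ℝ)^2)^n * (10^7*(N:ℝ)^2)^n * |(u:ℝ) * L₁ - w * L₂| := by ring
        _ ≤ _ := mul_le_mul_of_nonneg_right k3 hX
    have hpw : (10^9*(N:ℝ)^4)^n ≤ 8^c * ((u:ℝ)+w)^c := by
      calc (10^9*(N:ℝ)^4)^n ≤ ((2:ℝ)^c)^n := pow_le_pow_left₀ (by positivity) hc.le n
        _ = ((2:ℝ)^n)^c := by rw [← pow_mul, ← pow_mul, mul_comm]
        _ ≤ (8 * ((u:ℝ)+w))^c := pow_le_pow_left₀ (by positivity) hn2 c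
        _ = 8^c * ((u:ℝ)+w)^c := by rw [mul_pow]
    have hC1 : (8:ℝ)^c ≤ (8:ℝ)^c + (⌈1/(L₂ - L₁)⌉₊ : ℝ) := by
      have : (0:ℝ) ≤ (⌈1/(L₂ - L₁)⌉₊ : ℝ) := Nat.cast_nonneg _
      linarith
    have hcc : c ≤ 8^c + ⌈1/(L₂ - L₁)⌉₊ := by
      have : c < 8^c := Nat.lt_pow_self (by norm_num)
      omega
    have hC2 : ((u:ℝ)+w)^c ≤ ((u:ℝ)+w)^(8^c + ⌈1/(L₂ - L₁)⌉₊) := pow_le_pow_right₀ hM1' hcc
    calc (1:ℝ) ≤ (10^9*(N:ℝ)^4)^n * |(u:ℝ) * L₁ - w * L₂| := hlow3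
      _ ≤ 8^c * ((u:ℝ)+w)^c * |(u:ℝ) * L₁ - w * L₂| := mul_le_mul_of_nonneg_right hpw hX
      _ ≤ _ := by
          apply mul_le_mul_of_nonneg_right _ hX
          exact mul_le_mul hC1 hC2 (by positivity) (by positivity)

end Pool.Agent.SGP
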