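import Pool.Agent.SGP.Defs

/-! # PADEID (difficulty 2-3, calculus). Rodrigues formula.
`W = X (X-m) (X-2m)`, `V = hasseDeriv n (W^n)` (integer polynomial, `n! V = D^n (W^n)`).
For `a = m` and `a = 2m`, `a < N`:  `∫_0^a V(s)/(N-s) ds = (-1)^n ∫_0^a W(s)^n/(N-s)^(n+1) ds`.
PROOF. Let `G_j = D^j (W^n)` (real polynomial, `derivative^[j]`). For `j < n`: `G_j(0) = G_j(m) = G_j(2m) = 0`,
because `X^n`, `(X-m)^n`, `(X-2m)^n` divide `W^n`, so the `(n-j)`-th powers divide `G_j`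
(Mathlib: `Polynomial.pow_sub_dvd_iterate_derivative_of_pow_dvd` or similar; or `dvd_iterate_derivative`...).
Integration by parts (`intervalIntegral.integral_mul_deriv_eq_deriv_mul` / `integral_deriv_mul_eq_sub`), for
`i < n`:  `∫_0^a G_(n-i)(s) i! (N-s)^(-(i+1)) ds = [G_(n-i-1) i! (N-s)^(-(i+1))]_0^a
  - ∫_0^a G_(n-i-1)(s) (i+1)! (N-s)^(-(i+2)) ds`, the bracket is `0`. Induction on `i`:
`∫_0^a G_n(s)/(N-s) ds = (-1)^i ∫_0^a G_(n-i)(s) i! (N-s)^(-(i+1)) ds`; take `i = n`, `G_0 = W^n`,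
and `G_n = n! V` (`Polynomial.factorial_smul_hasseDeriv`), divide by `n!`. -/

open Finset Polynomial

namespace Pool.Agent.SGP

/-- `X (X-m) (X-2m)` -/
noncomputable def Wp (m : ℕ) : ℤ[X] := X * (X - C (m:ℤ)) * (X - C (2*m:ℤ))

/-- `(1/n!) D^n (W^n)` -/
noncomputable def Vp (m n : ℕ) : ℤ[X] := hasseDeriv n ((Wp m)^n)

/-- the real polynomial -/
noncomputable def PadeId_W (m : ℕ) : ℝ[X] := X * (X - C (m:ℝ)) * (X - C (2*m:ℝ))

theorem PadeId_map (m : ℕ) : (Wp m).map (Int.castRingHom ℝ) = PadeId_W m := by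
  unfold Wp PadeId_W
  rw [Polynomial.map_mul, Polynomial.map_mul, Polynomial.map_sub, Polynomial.map_sub, Polynomial.map_X,
    Polynomial.map_C, Polynomial.map_C]
  simp only [eq_intCast, Int.cast_natCast, Int.cast_mul, Int.cast_ofNat]

theorem PadeId_eval (m : ℕ) (s : ℝ) : (PadeId_W m).eval s = s*(s-m)*(s-2*m) := by
  unfold PadeId_W
  simp

theorem PadeId_root {m n j : ℕ} (hj : j < n) {c : ℝ} (hc : (X - C c) ∣ PadeId_W m) :
    (derivative^[j] (PadeId_W m ^ n)).eval c = 0 := by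
  have h1 : (X - C c) ^ (n - j) ∣ derivative^[j] (PadeId_W m ^ n) :=
    Polynomial.pow_sub_dvd_iterate_derivative_of_pow_dvd j (pow_dvd_pow_of_dvd hc n)
  have h2 : (X - C c) ∣ (X - C c) ^ (n - j) := dvd_pow_self _ (by omega)
  exact dvd_iff_isRoot.1 (h2.trans h1)

theorem PadeId_step (P : ℝ[X]) (i N a : ℕ) (haN : a < N) (h0 : P.eval 0 = 0) (ha : P.eval (a:ℝ) = 0) :
    ∫ s in (0:ℝ)..(a:ℝ), (derivative P).eval s / ((N:ℝ) - s)^(i+1) =
      -((i:ℝ)+1) * ∫ s in (0:ℝ)..(a:ℝ), P.eval s / ((N:ℝ)-s)^(i+2) := by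
  have haN' : (a:ℝ) < N := by exact_mod_cast haN
  have hpos : ∀ s ∈ Set.uIcc (0:ℝ) (a:ℝ), 0 < (N:ℝ) - s := by
    intro s hs
    rw [Set.uIcc_of_le (Nat.cast_nonneg a)] at hs
    linarith [hs.2]
  have hu : ∀ s ∈ Set.uIcc (0:ℝ) (a:ℝ), HasDerivAt (fun s : ℝ => P.eval s) ((derivative P).eval s) s :=
    fun s _ => P.hasDerivAt s
  have hv : ∀ s ∈ Set.uIcc (0:ℝ) (a:ℝ), HasDerivAt (fun s : ℝ => (((N:ℝ) - s)^(i+1))⁻¹)
      (((i:ℝ)+1) / ((N:ℝ)-s)^(i+2)) s := by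
    intro s hs
    have hp := hpos s hs
    have h1 : HasDerivAt (fun s : ℝ => (N:ℝ) - s) (-1) s := by
      simpa using (hasDerivAt_id s).const_sub (N:ℝ)
    have h2 := (h1.pow (i+1)).inv (pow_ne_zero _ hp.ne')
    have hne : (N:ℝ) - s ≠ 0 := hp.ne'
    have h3 : ((i:ℝ)+1) / ((N:ℝ)-s)^(i+2) =
        -(((i+1 : ℕ):ℝ) * ((N:ℝ) - s)^(i+1-1) * -1) / (((N:ℝ) - s)^(i+1))^2 := by
      rw [Nat.add_sub_cancel, div_eq_div_iff (pow_ne_zero _ hne) (pow_ne_zero _ (pow_ne_zero _ hne))]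
      push_cast
      ring
    rw [h3]
    exact h2
  have hu' : IntervalIntegrable (fun s : ℝ => (derivative P).eval s) MeasureTheory.volume (0:ℝ) (a:ℝ) :=
    (derivative P).continuous.intervalIntegrable _ _
  have hv' : IntervalIntegrable (fun s : ℝ => ((i:ℝ)+1) / ((N:ℝ)-s)^(i+2)) MeasureTheory.volume (0:ℝ) (a:ℝ) := by
    apply ContinuousOn.intervalIntegrable
    apply ContinuousOn.div continuousOn_const
    · exact ((continuous_const.sub continuous_id).pow _).continuousOn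
    · intro s hs
      exact pow_ne_zero _ (hpos s hs).ne'
  have key := intervalIntegral.integral_mul_deriv_eq_deriv_mul hv hu hv' hu'
  rw [ha, h0, mul_zero, mul_zero, sub_zero, zero_sub] at key
  have e1 : (fun s : ℝ => (derivative P).eval s / ((N:ℝ) - s)^(i+1)) =
      fun s : ℝ => (((N:ℝ) - s)^(i+1))⁻¹ * (derivative P).eval s := by
    funext s
    rw [div_eq_mul_inv, mul_comm]
  have e2 : (fun s : ℝ => ((i:ℝ)+1) / ((N:ℝ)-s)^(i+2) * P.eval s) =
      fun s : ℝ => ((i:ℝ)+1) * (P.eval s / ((N:ℝ)-s)^(i+2)) := by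
    funext s
    ring
  rw [e1, key, e2, intervalIntegral.integral_const_mul, neg_mul]

theorem PadeId_ind (m n N a : ℕ) (ha : a = m ∨ a = 2*m) (haN : a < N) (i : ℕ) (hi : i ≤ n) :
    ∫ s in (0:ℝ)..(a:ℝ), (derivative^[n] (PadeId_W m ^ n)).eval s / ((N:ℝ) - s) =
      (-1)^i * (i.factorial : ℝ) *
        ∫ s in (0:ℝ)..(a:ℝ), (derivative^[n-i] (PadeId_W m ^ n)).eval s / ((N:ℝ)-s)^(i+1) := by
  have d0 : (X - C (0:ℝ)) ∣ PadeId_W m := by
    unfold PadeId_W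
    rw [mul_assoc, C_0, sub_zero]
    exact dvd_mul_right _ _
  have da : (X - C (a:ℝ)) ∣ PadeId_W m := by
    unfold PadeId_W
    rcases ha with h | h
    · rw [h]
      exact (dvd_mul_left _ _).trans (dvd_mul_right _ _)
    · have h1 : (a:ℝ) = 2 * (m:ℝ) := by rw [h]; push_cast; ring
      rw [h1]
      exact dvd_mul_left _ _
  induction i with
  | zero => simp
  | succ i ih =>
    rw [ih (by omega)]
    have h1 : n - i = (n - (i+1)) + 1 := by omega
    have h2 := PadeId_step (derivative^[n-(i+1)] (PadeId_W m ^ n)) i N a haN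
      (PadeId_root (by omega) d0) (PadeId_root (by omega) da)
    rw [h1, Function.iterate_succ_apply', h2, Nat.factorial_succ]
    push_cast
    ring

theorem pade_id (m n N a : ℕ) (ha : a = m ∨ a = 2*m) (haN : a < N) :
    ∫ s in (0:ℝ)..(a:ℝ), (aeval s (Vp m n) : ℝ) / ((N:ℝ) - s) =
      (-1)^n * ∫ s in (0:ℝ)..(a:ℝ), (s*(s-m)*(s-2*m))^n / ((N:ℝ)-s)^(n+1) := by
  have h1 := PadeId_ind m n N a ha haN n le_rfl
  rw [Nat.sub_self, Function.iterate_zero_apply] at h1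
  have h2 : ∀ s : ℝ, (derivative^[n] (PadeId_W m ^ n)).eval s = (n.factorial : ℝ) * aeval s (Vp m n) := by
    intro s
    have h3 : aeval s (Vp m n) = ((hasseDeriv n (PadeId_W m ^ n))).eval s := by
      unfold Vp
      rw [← PadeId_map, ← Polynomial.map_pow, aeval_def, eval₂_eq_eval_map]
      congr 1
      ext k
      rw [hasseDeriv_coeff, coeff_map, hasseDeriv_coeff, coeff_map]
      simp
    rw [h3]
    have h4 := congrArg (fun p : ℝ[X] => p.eval s)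
      (congrArg (fun f => f (PadeId_W m ^ n)) (Polynomial.factorial_smul_hasseDeriv (R := ℝ) n))
    simpa using h4.symm
  have h5 : ∫ s in (0:ℝ)..(a:ℝ), (derivative^[n] (PadeId_W m ^ n)).eval s / ((N:ℝ) - s) =
      (n.factorial : ℝ) * ∫ s in (0:ℝ)..(a:ℝ), (aeval s (Vp m n) : ℝ) / ((N:ℝ) - s) := by
    rw [← intervalIntegral.integral_const_mul]
    congr 1
    funext s
    rw [h2 s, mul_div_assoc]
  have h6 : ∀ s : ℝ, (PadeId_W m ^ n).eval s / ((N:ℝ)-s)^(n+1) = (s*(s-m)*(s-2*m))^n / ((N:ℝ)-s)^(n+1) := by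
    intro s
    rw [eval_pow, PadeId_eval]
  rw [h5] at h1
  simp only [h6] at h1
  have h7 : (n.factorial : ℝ) ≠ 0 := by exact_mod_cast n.factorial_ne_zero
  apply mul_left_cancel₀ h7
  rw [h1]
  ring

end Pool.Agent.SGP
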