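import Pool.Agent.SGP.PadeId

/-! # PADEINT (difficulty 2). Integrality.
`V ∈ ℤ[X]`, `natDegree V ≤ 2n` (`W` has degree 3, `natDegree_hasseDeriv_le`). For `a < N`:
`∫_0^a V(s)/(N-s) ds = V(N) log(N/(N-a)) - ∫_0^a (V(N)-V(s))/(N-s) ds` and with `V = Σ_{k ≤ 2n} c_k X^k`,
`(V(N)-V(s))/(N-s) = Σ_k c_k Σ_{i<k} N^(k-1-i) s^i` (`Commute.geom_sum₂`/`geom_sum₂_mul`), whose integral from `0` to
`a` is `Σ_k c_k Σ_{i<k} N^(k-1-i) a^(i+1)/(i+1)`; here `i+1 ≤ k ≤ 2n`, so `lcmUpto (2n)` times it is an integer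
(`Nat.lcmUpto n = (Icc 1 n).lcm id`, `Finset.dvd_lcm`). `∫_0^a ds/(N-s) = log N - log(N-a) = log (N/(N-a))`. -/

open Finset Polynomial

namespace Pool.Agent.SGP

theorem natDegree_Vp (m n : ℕ) : (Vp m n).natDegree ≤ 2*n := by
  unfold Vp
  have h1 := natDegree_hasseDeriv_le ((Wp m)^n) n
  have h2 : ((Wp m)^n).natDegree ≤ n * 3 := by
    refine natDegree_pow_le_of_le n ?_
    unfold Wp
    compute_degree
  omega

theorem PadeInt_one (N a : ℕ) (haN : a < N) :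
    ∫ s in (0:ℝ)..(a:ℝ), 1 / ((N:ℝ) - s) = Real.log (N/(N-a)) := by
  have hN : (0:ℝ) < N := by
    have : 0 < N := by omega
    exact_mod_cast this
  have h1 : (0:ℝ) < (N:ℝ) - a := by
    have : (a:ℝ) < N := by exact_mod_cast haN
    linarith
  rw [intervalIntegral.integral_comp_sub_left (fun x => 1 / x) (N:ℝ), sub_zero,
    integral_one_div_of_pos h1 hN]

theorem PadeInt_dvd {n i : ℕ} (h : i < 2*n) : (i+1) ∣ Nat.lcmUpto (2*n) := by
  unfold Nat.lcmUpto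
  exact Finset.dvd_lcm (f := id) (Finset.mem_Icc.2 ⟨by omega, by omega⟩)

theorem pade_int (m n N a : ℕ) (haN : a < N) :
    ∃ Q : ℤ, (Nat.lcmUpto (2*n) : ℝ) * ∫ s in (0:ℝ)..(a:ℝ), (aeval s (Vp m n) : ℝ) / ((N:ℝ) - s) =
      (Nat.lcmUpto (2*n) : ℝ) * (((Vp m n).eval (N:ℤ) : ℤ) : ℝ) * Real.log (N/(N-a)) - Q := by
  have hdeg : (Vp m n).natDegree < 2*n+1 := Nat.lt_succ_of_le (natDegree_Vp m n)
  have hae : ∀ s : ℝ, (aeval s (Vp m n) : ℝ) =
      ∑ k ∈ range (2*n+1), (((Vp m n).coeff k : ℤ) : ℝ) * s^k := by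
    intro s
    rw [aeval_eq_sum_range' hdeg]
    refine sum_congr rfl fun k _ => ?_
    rw [zsmul_eq_mul]
  have hev : (((Vp m n).eval (N:ℤ) : ℤ) : ℝ) =
      ∑ k ∈ range (2*n+1), (((Vp m n).coeff k : ℤ) : ℝ) * (N:ℝ)^k := by
    rw [eval_eq_sum_range' hdeg]
    push_cast
    rfl
  have hgeo : ∀ (s : ℝ) (k : ℕ), (N:ℝ)^k - s^k =
      (∑ i ∈ range k, s^i * (N:ℝ)^(k-1-i)) * ((N:ℝ) - s) := by
    intro s k
    have := geom_sum₂_mul s (N:ℝ) k
    linear_combination this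
  have hcong : ∀ s ∈ Set.uIcc (0:ℝ) a, (aeval s (Vp m n) : ℝ) / ((N:ℝ) - s) =
      (((Vp m n).eval (N:ℤ) : ℤ) : ℝ) * (1 / ((N:ℝ) - s)) -
        ∑ k ∈ range (2*n+1), (((Vp m n).coeff k : ℤ) : ℝ) * ∑ i ∈ range k, s^i * (N:ℝ)^(k-1-i) := by
    intro s hs
    rw [Set.uIcc_of_le (Nat.cast_nonneg a)] at hs
    have haN' : (a:ℝ) < N := by exact_mod_cast haN
    have hne : (N:ℝ) - s ≠ 0 := by
      have := hs.2
      have h : 0 < (N:ℝ) - s := by linarith
      exact h.ne'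
    have h3 : (((Vp m n).eval (N:ℤ) : ℤ) : ℝ) - aeval s (Vp m n) =
        (∑ k ∈ range (2*n+1), (((Vp m n).coeff k : ℤ) : ℝ) * ∑ i ∈ range k, s^i * (N:ℝ)^(k-1-i)) *
          ((N:ℝ) - s) := by
      rw [hae, hev, ← sum_sub_distrib, sum_mul]
      refine sum_congr rfl fun k _ => ?_
      rw [← mul_sub, hgeo, mul_assoc]
    rw [div_eq_iff hne, sub_mul, ← h3, mul_assoc, one_div, inv_mul_cancel₀ hne]
    ring
  have hI1 : IntervalIntegrable (fun s : ℝ => (((Vp m n).eval (N:ℤ) : ℤ) : ℝ) * (1 / ((N:ℝ) - s)))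
      MeasureTheory.volume 0 a := by
    apply ContinuousOn.intervalIntegrable
    apply ContinuousOn.mul continuousOn_const
    apply ContinuousOn.div continuousOn_const (continuousOn_const.sub continuousOn_id)
    intro s hs
    rw [Set.uIcc_of_le (Nat.cast_nonneg a)] at hs
    have haN' : (a:ℝ) < N := by exact_mod_cast haN
    have := hs.2
    have h : 0 < (N:ℝ) - s := by linarith
    exact h.ne'
  have hI2 : IntervalIntegrable (fun s : ℝ => ∑ k ∈ range (2*n+1), (((Vp m n).coeff k : ℤ) : ℝ) *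
      ∑ i ∈ range k, s^i * (N:ℝ)^(k-1-i)) MeasureTheory.volume 0 a := by
    apply Continuous.intervalIntegrable
    fun_prop
  have hP : ∫ s in (0:ℝ)..(a:ℝ), (∑ k ∈ range (2*n+1), (((Vp m n).coeff k : ℤ) : ℝ) *
      ∑ i ∈ range k, s^i * (N:ℝ)^(k-1-i)) = ∑ k ∈ range (2*n+1), (((Vp m n).coeff k : ℤ) : ℝ) *
      ∑ i ∈ range k, ((a:ℝ)^(i+1) / (i+1)) * (N:ℝ)^(k-1-i) := by
    rw [intervalIntegral.integral_finsetSum]
    · refine sum_congr rfl fun k _ => ?_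
      rw [intervalIntegral.integral_const_mul, intervalIntegral.integral_finsetSum]
      · congr 1
        refine sum_congr rfl fun i _ => ?_
        rw [intervalIntegral.integral_mul_const, integral_pow]
        simp
      · intro i _
        apply Continuous.intervalIntegrable
        fun_prop
    · intro k _
      apply Continuous.intervalIntegrable
      fun_prop
  have hex : ∀ i : ℕ, ∃ q : ℤ, i < 2*n → (Nat.lcmUpto (2*n) : ℝ) = ((i:ℝ)+1) * q := by
    intro i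
    by_cases h : i < 2*n
    · obtain ⟨q, hq⟩ := PadeInt_dvd h
      refine ⟨q, fun _ => ?_⟩
      rw [hq]
      push_cast
      rfl
    · exact ⟨0, fun h' => absurd h' h⟩
  choose q hq using hex
  refine ⟨∑ k ∈ range (2*n+1), (Vp m n).coeff k *
    ∑ i ∈ range k, (a:ℤ)^(i+1) * q i * (N:ℤ)^(k-1-i), ?_⟩
  rw [intervalIntegral.integral_congr hcong, intervalIntegral.integral_sub hI1 hI2,
    intervalIntegral.integral_const_mul, PadeInt_one N a haN, hP, mul_sub, ← mul_assoc]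
  congr 1
  push_cast
  rw [mul_sum]
  refine sum_congr rfl fun k hk => ?_
  rw [mul_left_comm, mul_sum]
  congr 1
  refine sum_congr rfl fun i hi => ?_
  have hk' := mem_range.1 hk
  have hi' := mem_range.1 hi
  have hi1 : ((i:ℝ)+1) ≠ 0 := by positivity
  rw [hq i (by omega)]
  field_simp

end Pool.Agent.SGP
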