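import Mathlib

/-! # SEPDVD.
* `sqfree_large`: `P.map ℚ` irreducible, so separable: `U P + V P' = 1` over `ℚ`; clear the denominators:
  `U' P + V' P' = D ≠ 0` in `ℤ[X]`; for a prime `p ∤ D` the reduction is separable, so squarefree.
* `dvd_frob`: `AdjoinRoot P̄` is a finite reduced ring of characteristic `p`; the Frobenius map is
  injective, so bijective on a finite set, so some power `m ≥ 1` is the identity: `x^(p^m) = x` for all
  `x`, in particular for `x = root P̄`, i.e. `P̄ ∣ X^(p^m) - X`. -/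

open Polynomial

namespace Pool.Agent.SGP

theorem sqfree_large (P : ℤ[X]) (hirr : Irreducible (P.map (Int.castRingHom ℚ))) :
    ∃ M : ℕ, ∀ p : ℕ, p.Prime → M < p → Squarefree (P.map (Int.castRingHom (ZMod p))) := by
  have hsep : (P.map (Int.castRingHom ℚ)).Separable := hirr.separable
  obtain ⟨a, b, hab⟩ := hsep
  obtain ⟨b1, hb1m, hb1⟩ := IsLocalization.integerNormalization_spec (nonZeroDivisors ℤ) a
  obtain ⟨b2, hb2m, hb2⟩ := IsLocalization.integerNormalization_spec (nonZeroDivisors ℤ) b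
  set U := IsLocalization.integerNormalization (nonZeroDivisors ℤ) a
  set V := IsLocalization.integerNormalization (nonZeroDivisors ℤ) b
  have hb10 : b1 ≠ 0 := nonZeroDivisors.ne_zero hb1m
  have hb20 : b2 ≠ 0 := nonZeroDivisors.ne_zero hb2m
  have hinj : Function.Injective (Polynomial.map (algebraMap ℤ ℚ)) :=
    Polynomial.map_injective _ (algebraMap ℤ ℚ).injective_int
  have hmapC : Int.castRingHom ℚ = algebraMap ℤ ℚ := rfl
  have hZ : C b2 * U * P + C b1 * V * derivative P = C (b1 * b2) := by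
    apply hinj
    rw [Polynomial.map_add, Polynomial.map_mul, Polynomial.map_mul, Polynomial.map_mul,
      Polynomial.map_mul, hb1, hb2, Polynomial.map_C, Polynomial.map_C, Polynomial.map_C,
      ← Polynomial.derivative_map]
    rw [hmapC, ] at hab
    rw [← Int.cast_smul_eq_zsmul ℚ, ← Int.cast_smul_eq_zsmul ℚ, Polynomial.smul_eq_C_mul,
      Polynomial.smul_eq_C_mul, map_mul, Polynomial.C_mul]
    simp only [eq_intCast] at hab ⊢
    linear_combination (C (b1 : ℚ) * C (b2 : ℚ)) * hab
  refine ⟨(b1 * b2).natAbs, fun p hp hM => ?_⟩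
  have : Fact p.Prime := ⟨hp⟩
  apply Polynomial.Separable.squarefree
  have hD : ((b1 * b2 : ℤ) : ZMod p) ≠ 0 := by
    intro h0
    rw [ZMod.intCast_zmod_eq_zero_iff_dvd] at h0
    have h1 := Int.natAbs_dvd_natAbs.2 h0
    rw [Int.natAbs_natCast] at h1
    have h2 : 0 < (b1 * b2).natAbs := Int.natAbs_pos.2 (mul_ne_zero hb10 hb20)
    exact absurd (Nat.le_of_dvd h2 h1) (by omega)
  have h1 := congrArg (Polynomial.map (Int.castRingHom (ZMod p))) hZ
  rw [Polynomial.map_add, Polynomial.map_mul, Polynomial.map_mul (p := C b1 * V),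
    ← Polynomial.derivative_map, Polynomial.map_C] at h1
  refine ⟨C (((b1 * b2 : ℤ) : ZMod p)⁻¹) * (C b2 * U).map (Int.castRingHom (ZMod p)),
    C (((b1 * b2 : ℤ) : ZMod p)⁻¹) * (C b1 * V).map (Int.castRingHom (ZMod p)), ?_⟩
  rw [mul_assoc, mul_assoc, ← mul_add, h1, ← Polynomial.C_mul, eq_intCast, inv_mul_cancel₀ hD,
    Polynomial.C_1]

theorem dvd_frob (p : ℕ) [Fact p.Prime] (P : (ZMod p)[X]) (hsq : Squarefree P) :
    ∃ m : ℕ, 1 ≤ m ∧ P ∣ X^(p^m) - X := by
  have hP0 : P ≠ 0 := hsq.ne_zero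
  by_cases hu : IsUnit P
  · exact ⟨1, le_rfl, hu.dvd⟩
  have hnt : Nontrivial (AdjoinRoot P) := by
    apply AdjoinRoot.nontrivial
    intro h0
    apply hu
    rw [Polynomial.eq_C_of_degree_eq_zero h0] at hP0 ⊢
    exact Polynomial.isUnit_C.2 (isUnit_iff_ne_zero.2 (fun h => hP0 (by rw [h, Polynomial.C_0])))
  have hfin : Finite (AdjoinRoot P) := by
    have : Module.Finite (ZMod p) (AdjoinRoot P) := (AdjoinRoot.powerBasis hP0).finite
    exact Module.finite_of_finite (ZMod p)
  have hred : IsReduced (AdjoinRoot P) := by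
    have h1 : (Ideal.span ({P} : Set (ZMod p)[X])).IsRadical :=
      isRadical_iff_span_singleton.1 hsq.isRadical
    exact (Ideal.isRadical_iff_quotient_reduced _).1 h1
  have hchar : CharP (AdjoinRoot P) p :=
    charP_of_injective_algebraMap (algebraMap (ZMod p) (AdjoinRoot P)).injective p
  have : ExpChar (AdjoinRoot P) p := ExpChar.prime Fact.out
  have hinj : Function.Injective (frobenius (AdjoinRoot P) p) := frobenius_inj _ _
  have hbij : Function.Bijective (frobenius (AdjoinRoot P) p) :=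
    Finite.injective_iff_bijective.1 hinj
  let σ : Equiv.Perm (AdjoinRoot P) := Equiv.ofBijective _ hbij
  have hσ : IsOfFinOrder σ := isOfFinOrder_of_finite σ
  refine ⟨orderOf σ, hσ.orderOf_pos, ?_⟩
  have h1 : (σ ^ orderOf σ) (AdjoinRoot.root P) = AdjoinRoot.root P := by
    rw [pow_orderOf_eq_one]
    rfl
  rw [← Equiv.Perm.iterate_eq_pow] at h1
  have h2 : (frobenius (AdjoinRoot P) p)^[orderOf σ] (AdjoinRoot.root P) =
      AdjoinRoot.root P := h1
  rw [iterate_frobenius] at h2
  rw [← AdjoinRoot.mk_eq_zero, map_sub, map_pow, AdjoinRoot.mk_X, h2, sub_self]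

end Pool.Agent.SGP
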