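import Pool.Agent.SGP.Defs

/-! # VAL (difficulty 2). Values of short windows are faithful modulo `p^M`.
Let `Z = Σ_{k ∈ S} e_k b^(a+l-k)` (integer). `|Z| ≤ B (l+1) b^l < p^M` (`S ⊆ [a, a+l]`, at most `l+1` elements).
`Σ e_k / b^k = Z / b^(a+l)` in `ℚ`, and `Σ vM = Z * β^(a+l)` in `ZMod (p^M)`, `β = b⁻¹` a unit
(`ZMod.coe_mul_inv_eq_one`). So both sides are equivalent to `Z = 0` resp. `p^M ∣ Z`, and these are equivalent
(`Int.eq_zero_of_abs_lt_dvd`, `ZMod.intCast_zmod_eq_zero_iff_dvd` / `ZMod.intCast_eq_zero_iff`...). -/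

open Finset Polynomial

namespace Pool.Agent.SGP

theorem val_iff (b B p M l a : ℕ) (e : ℕ → ℤ) (hb : 2 ≤ b) (hp : p.Prime) (hpb : ¬ p ∣ b)
    (S : Finset ℕ) (hS : ∀ k ∈ S, a ≤ k ∧ k ≤ a + l) (hbd : ∀ k ∈ S, |e k| ≤ B)
    (hM : B*(l+1)*b^l < p^M) :
    ∑ k ∈ S, vM b e (p^M) k = 0 ↔ ∑ k ∈ S, (e k : ℚ)/(b:ℚ)^k = 0 := by
  have hb0 : (b : ℚ) ≠ 0 := by
    have : b ≠ 0 := by omega
    exact_mod_cast this
  have hcop : Nat.Coprime b (p ^ M) :=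
    Nat.Coprime.pow_right M ((Nat.Prime.coprime_iff_not_dvd hp).2 hpb).symm
  have hinv : (b : ZMod (p ^ M)) * (b : ZMod (p ^ M))⁻¹ = 1 := ZMod.coe_mul_inv_eq_one b hcop
  obtain ⟨Z, hZ⟩ : ∃ Z : ℤ, Z = ∑ k ∈ S, e k * (b : ℤ) ^ (a + l - k) := ⟨_, rfl⟩
  have hsplit : ∀ k ∈ S, a + l - k + k = a + l := fun k hk => Nat.sub_add_cancel (hS k hk).2
  -- rational side
  have h1 : ∑ k ∈ S, (e k : ℚ)/(b:ℚ)^k = (Z : ℚ) / (b : ℚ) ^ (a + l) := by
    rw [hZ, Int.cast_sum, sum_div]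
    refine sum_congr rfl fun k hk => ?_
    have h2 : (b : ℚ) ^ (a + l) = (b : ℚ) ^ (a + l - k) * (b : ℚ) ^ k := by
      rw [← pow_add, hsplit k hk]
    rw [h2]
    push_cast
    have h3 : (b : ℚ) ^ (a + l - k) ≠ 0 := pow_ne_zero _ hb0
    have h4 : (b : ℚ) ^ k ≠ 0 := pow_ne_zero _ hb0
    field_simp
  -- modular side
  have h5 : (b : ZMod (p ^ M)) ^ (a + l) * ∑ k ∈ S, vM b e (p^M) k = (Z : ZMod (p ^ M)) := by
    rw [hZ, Int.cast_sum, mul_sum]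
    refine sum_congr rfl fun k hk => ?_
    unfold vM
    have h2 : (b : ZMod (p ^ M)) ^ (a + l) = (b : ZMod (p ^ M)) ^ (a + l - k) * (b : ZMod (p ^ M)) ^ k := by
      rw [← pow_add, hsplit k hk]
    have h3 : (b : ZMod (p ^ M)) ^ k * ((b : ZMod (p ^ M))⁻¹) ^ k = 1 := by
      rw [← mul_pow, hinv, one_pow]
    rw [h2]
    push_cast
    calc (b : ZMod (p ^ M)) ^ (a + l - k) * (b : ZMod (p ^ M)) ^ k * ((e k : ZMod (p ^ M)) * ((b : ZMod (p ^ M))⁻¹) ^ k)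
        = (e k : ZMod (p ^ M)) * (b : ZMod (p ^ M)) ^ (a + l - k) *
          ((b : ZMod (p ^ M)) ^ k * ((b : ZMod (p ^ M))⁻¹) ^ k) := by ring
      _ = _ := by rw [h3, mul_one]
  have h6 : ∑ k ∈ S, vM b e (p^M) k = ((b : ZMod (p ^ M))⁻¹) ^ (a + l) * (Z : ZMod (p ^ M)) := by
    rw [← h5, ← mul_assoc, ← mul_pow, mul_comm ((b : ZMod (p ^ M))⁻¹), hinv, one_pow, one_mul]
  -- size
  have hbd' : |Z| < ((p ^ M : ℕ) : ℤ) := by
    have h7 : |Z| ≤ ∑ k ∈ S, (B : ℤ) * (b : ℤ) ^ l := by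
      rw [hZ]
      refine (abs_sum_le_sum_abs _ _).trans (sum_le_sum fun k hk => ?_)
      rw [abs_mul, abs_of_nonneg (by positivity : (0 : ℤ) ≤ (b : ℤ) ^ (a + l - k))]
      refine mul_le_mul (hbd k hk) ?_ (by positivity) (by positivity)
      exact pow_le_pow_right₀ (by exact_mod_cast (by omega : 1 ≤ b)) (by have := (hS k hk).1; omega)
    rw [sum_const, nsmul_eq_mul] at h7
    have h8 : S.card ≤ l + 1 := by
      have : S ⊆ Icc a (a + l) := fun k hk => mem_Icc.2 (hS k hk)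
      have h9 := card_le_card this
      rw [Nat.card_Icc] at h9
      omega
    have h10 : (S.card : ℤ) * ((B : ℤ) * (b : ℤ) ^ l) ≤ (l + 1) * ((B : ℤ) * (b : ℤ) ^ l) :=
      mul_le_mul_of_nonneg_right (by exact_mod_cast h8) (by positivity)
    have h11 : ((l : ℤ) + 1) * ((B : ℤ) * (b : ℤ) ^ l) = ((B * (l + 1) * b ^ l : ℕ) : ℤ) := by
      push_cast
      ring
    have h12 : ((B * (l + 1) * b ^ l : ℕ) : ℤ) < ((p ^ M : ℕ) : ℤ) := by exact_mod_cast hM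
    linarith
  constructor
  · intro h
    rw [h, mul_zero] at h5
    have h13 : ((p ^ M : ℕ) : ℤ) ∣ Z := (ZMod.intCast_zmod_eq_zero_iff_dvd Z (p ^ M)).1 h5.symm
    have h14 : Z = 0 := Int.eq_zero_of_abs_lt_dvd h13 hbd'
    rw [h1, h14, Int.cast_zero, zero_div]
  · intro h
    rw [h1, div_eq_zero_iff] at h
    have h15 : (Z : ℚ) = 0 := h.resolve_right (pow_ne_zero _ hb0)
    have h16 : Z = 0 := by exact_mod_cast h15
    rw [h6, h16, Int.cast_zero, mul_zero]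

end Pool.Agent.SGP
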